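import Mathlib

/-!
Farkas' lemma over a linearly ordered field (Bartl's proof), its integral/rational form, and the
conic Carathéodory theorem with exactly `n` (possibly repeated) generators.
-/

set_option autoImplicit false

namespace Pool.H32

open Finset

section Farkas

variable {K W ι : Type*} [Field K] [LinearOrder K] [IsStrictOrderedRing K]
  [AddCommGroup W] [Module K W]

/-- Farkas' lemma for linear functionals on an arbitrary vector space. -/
theorem farkas_functional [DecidableEq ι] (s : Finset ι) :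
    ∀ (a : ι → W →ₗ[K] K) (g : W →ₗ[K] K),
      (∀ x, (∀ i ∈ s, 0 ≤ a i x) → 0 ≤ g x) →
      ∃ u : ι → K, (∀ i, 0 ≤ u i) ∧ g = ∑ i ∈ s, u i • a i := by
  induction s using Finset.induction_on with
  | empty =>
    intro a g h
    refine ⟨fun _ => 0, fun _ => le_rfl, ?_⟩
    ext x
    have h1 := h x (by simp)
    have h2 := h (-x) (by simp)
    simp only [map_neg] at h2
    simp only [sum_empty, LinearMap.zero_apply]
    linarith
  | insert j s hj ih =>
    intro a g h
    by_cases hs : ∀ x, (∀ i ∈ s, 0 ≤ a i x) → 0 ≤ g x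
    · obtain ⟨u, hu, hg⟩ := ih a g hs
      refine ⟨fun i => if i = j then 0 else u i, fun i => ?_, ?_⟩
      · dsimp only; split_ifs; exacts [le_rfl, hu i]
      · rw [sum_insert hj, hg]
        simp only [if_true, zero_smul, zero_add]
        refine sum_congr rfl fun i hi => ?_
        have : i ≠ j := fun e => hj (e ▸ hi)
        rw [if_neg this]
    · push Not at hs
      obtain ⟨y, hy, hgy⟩ := hs
      have haj : a j y < 0 := by
        by_contra hcon
        push Not at hcon
        have := h y (by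
          intro i hi
          rcases mem_insert.1 hi with rfl | hi
          · exact hcon
          · exact hy i hi)
        linarith
      -- normalise: `z = (-(a j y))⁻¹ • y`, `a j z = -1`
      set c : K := (-(a j y))⁻¹ with hc
      have hcpos : 0 < c := by rw [hc]; exact inv_pos.2 (by linarith)
      set z : W := c • y with hz
      have hajz : a j z = -1 := by
        rw [hz, map_smul, smul_eq_mul, hc]
        have : a j y ≠ 0 := ne_of_lt haj
        field_simp
      have haz : ∀ i ∈ s, 0 ≤ a i z := by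
        intro i hi
        rw [hz, map_smul, smul_eq_mul]
        exact mul_nonneg hcpos.le (hy i hi)
      have hgz : g z < 0 := by
        rw [hz, map_smul, smul_eq_mul]
        exact mul_neg_of_pos_of_neg hcpos hgy
      obtain ⟨u, hu, hg⟩ := ih (fun i => a i + (a i z) • a j) (g + (g z) • a j) (by
        intro x hx
        have key := h (x + (a j x) • z) (by
          intro i hi
          rcases mem_insert.1 hi with rfl | hi
          · simp only [map_add, map_smul, smul_eq_mul, hajz]
            linarith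
          · have := hx i hi
            simp only [LinearMap.add_apply, LinearMap.smul_apply, smul_eq_mul] at this
            simp only [map_add, map_smul, smul_eq_mul]
            linarith)
        simp only [map_add, map_smul, smul_eq_mul] at key
        simp only [LinearMap.add_apply, LinearMap.smul_apply, smul_eq_mul]
        linarith)
      refine ⟨fun i => if i = j then (-(g z) + ∑ k ∈ s, u k * a k z) else u i, fun i => ?_, ?_⟩
      · dsimp only
        split_ifs
        · have : 0 ≤ ∑ k ∈ s, u k * a k z :=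
            sum_nonneg fun k hk => mul_nonneg (hu k) (haz k hk)
          linarith
        · exact hu i
      · rw [sum_insert hj]
        simp only [if_true]
        have h1 : ∑ i ∈ s, (if i = j then (-(g z) + ∑ k ∈ s, u k * a k z) else u i) • a i
            = ∑ i ∈ s, u i • a i := by
          refine sum_congr rfl fun i hi => ?_
          have : i ≠ j := fun e => hj (e ▸ hi)
          rw [if_neg this]
        rw [h1]
        have h2 : g = ∑ i ∈ s, u i • (a i + (a i z) • a j) - (g z) • a j := by
          rw [← hg]; abel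
        have h3 : ∑ i ∈ s, u i • (a i + (a i z) • a j)
            = ∑ i ∈ s, u i • a i + (∑ k ∈ s, u k * a k z) • a j := by
          rw [sum_smul, ← sum_add_distrib]
          refine sum_congr rfl fun i _ => ?_
          rw [smul_add, smul_smul]
        rw [h3] at h2
        conv_lhs => rw [h2]
        rw [add_smul, neg_smul]
        abel

end Farkas

section Rational

variable {ι : Type*} [Fintype ι]

/-- Integral hypothesis, rational conclusion. `w` is a rational vector. -/
theorem farkas_rat {n : ℕ} (rho : ι → Fin n → ℤ) (w : Fin n → ℚ)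
    (h : ∀ m : Fin n → ℤ, (∀ i, 0 ≤ ∑ j, m j * rho i j) → 0 ≤ ∑ j, (m j : ℚ) * w j) :
    ∃ lam : ι → ℚ, (∀ i, 0 ≤ lam i) ∧ ∀ j, w j = ∑ i, lam i * (rho i j : ℚ) := by
  classical
  let a : ι → (Fin n → ℚ) →ₗ[ℚ] ℚ := fun i =>
    ∑ j, (rho i j : ℚ) • LinearMap.proj j
  let g : (Fin n → ℚ) →ₗ[ℚ] ℚ := ∑ j, (w j) • LinearMap.proj j
  have ha : ∀ i x, a i x = ∑ j, (rho i j : ℚ) * x j := by
    intro i x; simp [a, LinearMap.sum_apply]
  have hg : ∀ x, g x = ∑ j, w j * x j := by
    intro x; simp [g, LinearMap.sum_apply]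
  obtain ⟨u, hu, hgu⟩ := farkas_functional (Finset.univ : Finset ι) a g (by
    intro x hx
    -- clear denominators
    obtain ⟨N, hN, m, hm⟩ : ∃ N : ℕ, 0 < N ∧ ∃ m : Fin n → ℤ, ∀ j, (m j : ℚ) = N * x j := by
      refine ⟨∏ j, (x j).den, Finset.prod_pos fun j _ => (x j).den_pos,
        fun j => (∏ k ∈ Finset.univ.erase j, ((x k).den : ℤ)) * (x j).num, fun j => ?_⟩
      have h1 : ((∏ k, (x k).den : ℕ) : ℚ)
          = (∏ k ∈ Finset.univ.erase j, ((x k).den : ℚ)) * ((x j).den : ℚ) := by
        push_cast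
        rw [mul_comm, Finset.mul_prod_erase Finset.univ (fun k => ((x k).den : ℚ)) (mem_univ j)]
      rw [h1]
      push_cast
      rw [mul_assoc]
      congr 1
      exact (Rat.den_mul_eq_num (x j)).symm
    have hNq : (0 : ℚ) < N := by exact_mod_cast hN
    have h1 := h m (by
      intro i
      have h2 := hx i (mem_univ i)
      rw [ha] at h2
      have h3 : ((∑ j, m j * rho i j : ℤ) : ℚ) = N * ∑ j, (rho i j : ℚ) * x j := by
        push_cast
        rw [Finset.mul_sum]
        refine sum_congr rfl fun j _ => ?_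
        rw [hm j]; ring
      have h4 : (0 : ℚ) ≤ ((∑ j, m j * rho i j : ℤ) : ℚ) := by
        rw [h3]; exact mul_nonneg hNq.le h2
      exact_mod_cast h4)
    rw [hg]
    have h5 : ∑ j, (m j : ℚ) * w j = N * ∑ j, w j * x j := by
      rw [Finset.mul_sum]
      refine sum_congr rfl fun j _ => ?_
      rw [hm j]; ring
    rw [h5] at h1
    exact nonneg_of_mul_nonneg_right h1 hNq)
  refine ⟨u, hu, fun j => ?_⟩
  have h1 := congrArg (fun f : (Fin n → ℚ) →ₗ[ℚ] ℚ => f (Pi.single j 1)) hgu
  simp only [LinearMap.sum_apply, LinearMap.smul_apply, smul_eq_mul] at h1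
  rw [hg] at h1
  have h2 : ∑ k, w k * (Pi.single j (1 : ℚ) : Fin n → ℚ) k = w j := by
    simp [Pi.single_apply]
  rw [h2] at h1
  rw [h1]
  refine sum_congr rfl fun i _ => ?_
  rw [ha]
  simp [Pi.single_apply]

/-- Integral vector version. -/
theorem farkas_int {n : ℕ} (rho : ι → Fin n → ℤ) (w : Fin n → ℤ)
    (h : ∀ m : Fin n → ℤ, (∀ i, 0 ≤ ∑ j, m j * rho i j) → 0 ≤ ∑ j, m j * w j) :
    ∃ lam : ι → ℚ, (∀ i, 0 ≤ lam i) ∧ ∀ j, (w j : ℚ) = ∑ i, lam i * (rho i j : ℚ) := by
  refine farkas_rat rho (fun j => (w j : ℚ)) fun m hm => ?_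
  have := h m hm
  exact_mod_cast this

end Rational

section Caratheodory

variable {K V ι : Type*} [Field K] [LinearOrder K] [IsStrictOrderedRing K]
  [AddCommGroup V] [Module K V]

/-- Conic Carathéodory: a nonnegative combination can be rewritten with positive coefficients on a
linearly independent subfamily. -/
theorem conic_caratheodory [Fintype ι] (rho : ι → V) (w : V) (lam : ι → K)
    (hlam : ∀ i, 0 ≤ lam i) (hw : w = ∑ i, lam i • rho i) :
    ∃ (s : Finset ι) (mu : ι → K), (∀ i ∈ s, 0 < mu i) ∧ w = ∑ i ∈ s, mu i • rho i ∧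
      LinearIndependent K (fun i : s => rho i) := by
  classical
  let P : ℕ → Prop := fun c => ∃ (s : Finset ι) (mu : ι → K), s.card = c ∧ (∀ i ∈ s, 0 < mu i) ∧
    w = ∑ i ∈ s, mu i • rho i
  have hP : ∃ c, P c := by
    refine ⟨(Finset.univ.filter fun i => lam i ≠ 0).card, Finset.univ.filter fun i => lam i ≠ 0,
      lam, rfl, fun i hi => ?_, ?_⟩
    · have := (mem_filter.1 hi).2
      exact lt_of_le_of_ne (hlam i) (Ne.symm this)
    · rw [hw, Finset.sum_filter_of_ne]
      intro i _ hi h0
      apply hi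
      rw [h0, zero_smul]
  obtain ⟨s, mu, hcard, hpos, hsum⟩ := Nat.find_spec hP
  refine ⟨s, mu, hpos, hsum, ?_⟩
  by_contra hdep
  rw [Fintype.linearIndependent_iff] at hdep
  push Not at hdep
  obtain ⟨g, hg, i0, hi0⟩ := hdep
  -- extend `g` to `ι`, with a positive value somewhere
  obtain ⟨nu, hnu, k0, hk0s, hk0⟩ : ∃ nu : ι → K, ∑ i ∈ s, nu i • rho i = 0 ∧
      ∃ k0 ∈ s, 0 < nu k0 := by
    have hext : ∀ g' : s → K, ∑ i ∈ s, (if h : i ∈ s then g' ⟨i, h⟩ else 0) • rho i
        = ∑ i : s, g' i • rho i := by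
      intro g'
      rw [← Finset.sum_coe_sort s (fun i => (if h : i ∈ s then g' ⟨i, h⟩ else 0) • rho i)]
      refine sum_congr rfl fun i _ => ?_
      rw [dif_pos i.2]
    rcases lt_or_gt_of_ne hi0 with hneg | hpos'
    · refine ⟨fun i => if h : i ∈ s then -(g ⟨i, h⟩) else 0, ?_, i0, i0.2, ?_⟩
      · have := hext (fun i => -(g i))
        rw [this]
        simp only [neg_smul, sum_neg_distrib, hg, neg_zero]
      · simp only [dif_pos i0.2]
        linarith
    · refine ⟨fun i => if h : i ∈ s then g ⟨i, h⟩ else 0, ?_, i0, i0.2, ?_⟩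
      · rw [hext g, hg]
      · simp only [dif_pos i0.2]
        exact hpos'
  -- minimal ratio
  obtain ⟨k, hk, hmin⟩ := Finset.exists_min_image (s.filter fun i => 0 < nu i)
    (fun i => mu i / nu i) ⟨k0, mem_filter.2 ⟨hk0s, hk0⟩⟩
  obtain ⟨hks, hknu⟩ := mem_filter.1 hk
  set t : K := mu k / nu k with ht
  have htpos : 0 < t := div_pos (hpos k hks) hknu
  set mu' : ι → K := fun i => mu i - t * nu i with hmu'
  have hmu'nn : ∀ i ∈ s, 0 ≤ mu' i := by
    intro i hi
    by_cases hni : 0 < nu i
    · have h1 := hmin i (mem_filter.2 ⟨hi, hni⟩)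
      have h2 : t * nu i ≤ mu i := by
        rw [← le_div_iff₀ hni]; exact h1
      simp only [hmu']; linarith
    · push Not at hni
      have h1 : t * nu i ≤ 0 := mul_nonpos_of_nonneg_of_nonpos htpos.le hni
      have h2 := hpos i hi
      simp only [hmu']; linarith
  have hmu'k : mu' k = 0 := by
    simp only [hmu', ht]
    field_simp
    simp
  have hsum' : w = ∑ i ∈ s, mu' i • rho i := by
    have : ∑ i ∈ s, mu' i • rho i = ∑ i ∈ s, mu i • rho i - t • ∑ i ∈ s, nu i • rho i := by
      rw [Finset.smul_sum, ← sum_sub_distrib]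
      refine sum_congr rfl fun i _ => ?_
      rw [smul_smul, ← sub_smul]
    rw [this, hnu, smul_zero, sub_zero]
    exact hsum
  have hlt : (s.filter fun i => mu' i ≠ 0).card < Nat.find hP := by
    rw [← hcard]
    refine Finset.card_lt_card ?_
    refine Finset.filter_ssubset.2 ⟨k, hks, ?_⟩
    simp [hmu'k]
  refine Nat.find_min hP hlt ⟨s.filter fun i => mu' i ≠ 0, mu', rfl, fun i hi => ?_, ?_⟩
  · obtain ⟨h1, h2⟩ := mem_filter.1 hi
    exact lt_of_le_of_ne (hmu'nn i h1) (Ne.symm h2)
  · rw [Finset.sum_filter_of_ne]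
    · exact hsum'
    · intro i _ hi h0
      apply hi
      rw [h0, zero_smul]

end Caratheodory

section Padded

variable {ι : Type*} [Fintype ι]

/-- Carathéodory with exactly `n` positive terms (indices may be repeated). -/
theorem caratheodory_rat {n : ℕ} (rho : ι → Fin n → ℤ) (w : Fin n → ℚ) (hw0 : w ≠ 0)
    (h : ∀ m : Fin n → ℤ, (∀ i, 0 ≤ ∑ j, m j * rho i j) → 0 ≤ ∑ j, (m j : ℚ) * w j) :
    ∃ (c : Fin n → ι) (lam : Fin n → ℚ), (∀ l, 0 < lam l) ∧
      ∀ j, w j = ∑ l, lam l * (rho (c l) j : ℚ) := by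
  classical
  obtain ⟨lam, hlam, hw⟩ := farkas_rat rho w h
  let r : ι → (Fin n → ℚ) := fun i j => (rho i j : ℚ)
  have hw' : w = ∑ i, lam i • r i := by
    ext j
    rw [hw j, Finset.sum_apply]
    rfl
  obtain ⟨s, mu, hpos, hsum, hli⟩ := conic_caratheodory r w lam hlam hw'
  have hcard : s.card ≤ n := by
    have := hli.fintype_card_le_finrank
    simpa using this
  have hne : s.Nonempty := by
    rcases s.eq_empty_or_nonempty with rfl | hs
    · exfalso; apply hw0; simpa using hsum
    · exact hs
  -- a surjection `Fin n → s`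
  have : Nonempty s := ⟨⟨hne.choose, hne.choose_spec⟩⟩
  have hle : Fintype.card s ≤ Fintype.card (Fin n) := by simpa using hcard
  obtain ⟨e⟩ : Nonempty (s ↪ Fin n) := Function.Embedding.nonempty_of_card_le hle
  let c : Fin n → s := Function.invFun e
  have hc : Function.Surjective c := Function.invFun_surjective e.injective
  let f : s → ℕ := fun i => (Finset.univ.filter fun l => c l = i).card
  have hf : ∀ i, 0 < f i := by
    intro i
    obtain ⟨l, hl⟩ := hc i
    exact Finset.card_pos.2 ⟨l, mem_filter.2 ⟨mem_univ _, hl⟩⟩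
  refine ⟨fun l => (c l : ι), fun l => mu (c l) / f (c l), fun l => ?_, fun j => ?_⟩
  · exact div_pos (hpos _ (c l).2) (by exact_mod_cast hf (c l))
  · have h1 : w j = ∑ i ∈ s, mu i * (rho i j : ℚ) := by
      rw [hsum, Finset.sum_apply]
      rfl
    rw [h1, ← Finset.sum_coe_sort s (fun i => mu i * (rho i j : ℚ))]
    rw [← Finset.sum_fiberwise_of_maps_to (s := Finset.univ) (t := (Finset.univ : Finset s))
      (g := c) (fun _ _ => mem_univ _) (fun l => mu (c l) / f (c l) * (rho (c l) j : ℚ))]
    refine sum_congr rfl fun i _ => ?_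
    have h2 : ∑ l ∈ Finset.univ.filter (fun l => c l = i), mu (c l) / f (c l) * (rho (c l) j : ℚ)
        = ∑ l ∈ Finset.univ.filter (fun l => c l = i), mu i / f i * (rho i j : ℚ) := by
      refine sum_congr rfl fun l hl => ?_
      rw [(mem_filter.1 hl).2]
    rw [h2, Finset.sum_const, nsmul_eq_mul]
    have h3 : (f i : ℚ) ≠ 0 := by exact_mod_cast (hf i).ne'
    change mu ↑i * (rho ↑i j : ℚ) = (f i : ℚ) * (mu ↑i / (f i : ℚ) * (rho ↑i j : ℚ))
    field_simp

/-- Integral vector version of `caratheodory_rat`. -/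
theorem caratheodory_int {n : ℕ} (rho : ι → Fin n → ℤ) (w : Fin n → ℤ) (hw0 : w ≠ 0)
    (h : ∀ m : Fin n → ℤ, (∀ i, 0 ≤ ∑ j, m j * rho i j) → 0 ≤ ∑ j, m j * w j) :
    ∃ (c : Fin n → ι) (lam : Fin n → ℚ), (∀ l, 0 < lam l) ∧
      ∀ j, (w j : ℚ) = ∑ l, lam l * (rho (c l) j : ℚ) := by
  refine caratheodory_rat rho (fun j => (w j : ℚ)) ?_ fun m hm => ?_
  · intro h0
    apply hw0
    ext j
    have := congrFun h0 j
    simpa using this
  · have := h m hm
    exact_mod_cast this

end Padded

end Pool.H32
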