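import Mathlib
import Pool.Agent.H26.Defs

/-!
# Crepant charts and orbifold weighted blow-ups

`G : LogGerm k K n` is a germ of an `n`-dimensional log pair `x ∈ (X, Δ)` with function field `K`
(see `Pool.Agent.H26.Defs`).  We define smooth crepant charts of `G` and the divisors over `X`
obtained by weighted blow-ups in such charts.
-/

open scoped BigOperators
open KaehlerDifferential

namespace Pool.H32

open Pool.Agent.H26

universe u v

/-- `t` is a system of parameters generating the maximal ideal of the local ring of `Spec B` at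
the closed point `𝔪`: the `t i` lie in `𝔪`, and every element of `𝔪` is in the ideal generated by
them after multiplication by an element not vanishing at the point. -/
structure IsParam {k : Type u} {L : Type v} [Field k] [Field L] [Algebra k L]
    (B : Subalgebra k L) (𝔪 : Ideal B) {n : ℕ} (t : Fin n → B) : Prop where
  mem : ∀ i, t i ∈ 𝔪
  gen : ∀ b ∈ 𝔪, ∃ s : B, s ∉ 𝔪 ∧ s * b ∈ Ideal.span (Set.range t)

/-- the ideal generated by the monomials `∏ t i ^ d i` of weight `∑ w i * d i` at least `c` -/
def weightIdeal {k : Type u} {L : Type v} [Field k] [Field L] [Algebra k L]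
    (B : Subalgebra k L) {n : ℕ} (t : Fin n → B) (w : Fin n → ℕ) (c : ℕ) : Ideal B :=
  Ideal.span {x | ∃ d : Fin n → ℕ, c ≤ ∑ i, w i * d i ∧ x = ∏ i, t i ^ d i}

/-- A *crepant chart* of the `n`-dimensional germ `x ∈ (X, Δ)`: a normal affine variety
`Y = Spec B` with function field `L`, a generically finite dominant morphism `π : Y → X` (given by
the inclusion `A ⊆ B`), a smooth point `y` of `Y` (a closed point whose maximal ideal is generated,
in the local ring, by `n = dim Y` elements `t i`) with `π y = x`, such that near `y` the pull back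
of `K_X + Δ` is `K_Y + Δ_Y` with
`Δ_Y = ∑ l, c l • (t l = 0) + ∑ j, d j • (g j = 0)`.
Here `K_Y` is the divisor of the pull back of the rational top form `G.ω`. -/
structure CrepantChart {k : Type u} {K : Type v} [Field k] [Field K] [Algebra k K] {n : ℕ}
    (G : LogGerm k K n) (L : Type v) [Field L] [Algebra k L] [Algebra K L]
    [IsScalarTower k K L] where
  /-- the coordinate ring of `Y` -/
  B : Subalgebra k L
  fg : B.FG
  isFractionRing : IsFractionRing B L
  normal : IsIntegrallyClosed B
  /-- `A ⊆ B` -/
  map_mem : ∀ f : G.A, algebraMap K L (f : K) ∈ B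
  /-- the closed point `y` -/
  pt : Ideal B
  isMaximal : pt.IsMaximal
  /-- `π y = x` -/
  mem_pt_iff : ∀ f : G.A, (⟨algebraMap K L (f : K), map_mem f⟩ : B) ∈ pt ↔ f ∈ G.pt
  /-- parameters at `y` -/
  t : Fin n → B
  isParam : IsParam B pt t
  /-- the pull back of the top form `G.ω` -/
  ω : Module.Basis (Fin n) L (Ω[L⁄k])
  ω_eq : ∀ i, ω i = KaehlerDifferential.map k k K L (G.ω i)
  /-- the coefficients of the coordinate hyperplanes in `Δ_Y` -/
  c : Fin n → ℝ
  /-- index set of the other part of `Δ_Y` -/
  α : Type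
  fintype : Fintype α
  /-- its coefficients -/
  d : α → ℝ
  /-- its equations -/
  g : α → B
  g_ne_zero : ∀ j, g j ≠ 0
  /-- `K_Y + Δ_Y` is the pull back of `K_X + Δ` -/
  crepant : ∀ V : DVal k L, V.IsPrimeDivisorThrough B pt → ∃ e : ℤ, V.FormOrd ω e ∧
    (e : ℝ) + (∑ l, c l * (V.val (t l : L) : ℝ) + ∑ j, d j * (V.val (g j : L) : ℝ)) =
      ∑ i, G.r i * (V.val (algebraMap K L (G.s i)) : ℝ)

namespace CrepantChart

variable {k : Type u} {K : Type v} [Field k] [Field K] [Algebra k K] {n : ℕ}
  {G : LogGerm k K n} {L : Type v} [Field L] [Algebra k L] [Algebra K L] [IsScalarTower k K L]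

attribute [instance] CrepantChart.fintype CrepantChart.isFractionRing CrepantChart.normal
  CrepantChart.isMaximal

/-- `C.IsOrbifoldWeightedBlowup E`: the divisor `E` over `X` is the divisor of an orbifold weighted
blow-up in the chart `C`.  This means that there are an automorphism `σ` of `Y` over `X` fixing the
point `y`, acting on the parameters as `t l ↦ ζ ^ (w l) • t l` with `ζ` a primitive `r`-th root of
unity, such that `E` is the restriction to `X` of the monomial valuation with
weights `w l / r > 0`:
a regular function `f` on `X` satisfies `E f ≥ c / r` iff near `y` it is in the ideal generated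
by the monomials of weight at least `c`.  (For `r = 1`: `σ` is the identity and `E` is the image
of the exceptional divisor of the weighted blow-up of `Y` at `y` with weights `w`.) -/
def IsOrbifoldWeightedBlowup (C : CrepantChart G L) (E : DVal k K) : Prop :=
  ∃ (r : ℕ) (ζ : k) (σ : L ≃ₐ[K] L) (w : Fin n → ℕ),
    0 < r ∧ IsPrimitiveRoot ζ r ∧ (∀ l, 0 < w l) ∧
    (∀ b : C.B, ∃ b' : C.B, (b' : L) = σ b ∧ (b ∈ C.pt → b' ∈ C.pt)) ∧
    (∀ l, σ (C.t l : L) = algebraMap k L (ζ ^ w l) * C.t l) ∧
    ∀ f : G.A, f ≠ 0 → ∀ c : ℕ, ((c : ℤ) ≤ r * E.val (f : K) ↔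
      ∃ s : C.B, s ∉ C.pt ∧
        s * ⟨algebraMap K L (f : K), C.map_mem f⟩ ∈ weightIdeal C.B C.t w c)

end CrepantChart

/-- The set of the minimal log discrepancies `b = mld (x, X, Δ) ≥ 0` of germs of log pairs of
dimension `n` (over arbitrary algebraically closed fields of characteristic zero) which are the
infimum of log discrepancies of divisors given by orbifold weighted blow-ups in crepant charts
whose boundary has coefficients in `Γ'` along the coordinate hyperplanes, and otherwise is
`∑ j, d j • (g j = 0)` with `d j ∈ Γ`. -/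
def OrbMlds (n : ℕ) (Γ Γ' : Set ℝ) : Set EReal :=
  {x | ∃ (k : Type u) (_ : Field k) (_ : IsAlgClosed k) (_ : CharZero k) (K : Type v) (_ : Field K)
    (_ : Algebra k K) (G : LogGerm k K n) (b : ℝ), x = (b : EReal) ∧ 0 ≤ b ∧ G.mld = (b : EReal) ∧
    ∀ ε : ℝ, 0 < ε → ∃ (L : Type v) (_ : Field L) (_ : Algebra k L) (_ : Algebra K L)
      (_ : IsScalarTower k K L) (_ : FiniteDimensional K L) (C : CrepantChart G L)
      (E : DVal k K) (a : ℝ), (∀ l, C.c l ∈ Γ') ∧ (∀ j, C.d j ∈ Γ) ∧
      C.IsOrbifoldWeightedBlowup E ∧ G.IsLogDiscrepancy E a ∧ a < b + ε}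

end Pool.H32
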