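import Mathlib
import Pool.Agent.H26.PrimeDiv
import Pool.Agent.H26.LogForm

/-!
# Monomial valuations in a regular system of parameters

`RegCoord k L n` packages a regular local ring `B ⊆ L` with residue field `k`, a regular system of
parameters `t` and the derivations `∂/∂t_j` of `L` preserving `B`.
-/

set_option autoImplicit false

open scoped BigOperators nonZeroDivisors WithZero
open MvPolynomial

namespace Pool.H32

universe u v

/-- A regular local ring `B` with fraction field `L` and residue field `k`, with parameters `t` and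
the dual derivations. -/
structure RegCoord (k : Type u) (L : Type v) [Field k] [Field L] [Algebra k L] (n : ℕ) where
  B : Subalgebra k L
  t : Fin n → L
  t_mem : ∀ i, t i ∈ B
  D : Fin n → Derivation k L L
  D_t : ∀ i j, D j (t i) = if i = j then 1 else 0
  D_mem : ∀ j, ∀ b ∈ B, D j b ∈ B
  isFractionRing : IsFractionRing B L
  isNoetherianRing : IsNoetherianRing B
  isLocalRing : IsLocalRing B
  maximalIdeal_eq : IsLocalRing.maximalIdeal B =
    Ideal.span (Set.range fun i => (⟨t i, t_mem i⟩ : B))
  residue : ∀ b : B, ∃ c : k, b - algebraMap k B c ∈ IsLocalRing.maximalIdeal B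

namespace RegCoord

variable {k : Type u} {L : Type v} [Field k] [Field L] [Algebra k L] {n : ℕ}
  (C : RegCoord k L n)

attribute [instance] RegCoord.isFractionRing RegCoord.isNoetherianRing RegCoord.isLocalRing

/-- monomials in the parameters -/
def mono (d : Fin n →₀ ℕ) : L := ∏ i, C.t i ^ d i

lemma mono_zero : C.mono 0 = 1 := by simp [mono]

lemma mono_add (d e : Fin n →₀ ℕ) : C.mono (d + e) = C.mono d * C.mono e := by
  simp [mono, pow_add, Finset.prod_mul_distrib]

lemma mono_mem (d : Fin n →₀ ℕ) : C.mono d ∈ C.B :=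
  Subalgebra.prod_mem _ fun i _ => Subalgebra.pow_mem _ (C.t_mem i) _

lemma aeval_monomial' (d : Fin n →₀ ℕ) (c : k) :
    aeval C.t (monomial d c) = algebraMap k L c * C.mono d := by
  rw [aeval_monomial, mono, Finsupp.prod_fintype]
  intro i; simp

lemma mono_single (i : Fin n) : C.mono (Finsupp.single i 1) = C.t i := by
  classical
  rw [mono, Finset.prod_eq_single i]
  · simp
  · intro j _ hj
    rw [Finsupp.single_apply, if_neg (fun h => hj h.symm), pow_zero]
  · simp

/-- the weight filtration -/
def Fil (w : Fin n → ℕ) (c : ℕ) : Submodule C.B L :=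
  Submodule.span C.B {x | ∃ d : Fin n →₀ ℕ, c ≤ Finsupp.weight w d ∧ x = C.mono d}

lemma mono_mem_Fil {w : Fin n → ℕ} {c : ℕ} {d : Fin n →₀ ℕ} (h : c ≤ Finsupp.weight w d) :
    C.mono d ∈ C.Fil w c := Submodule.subset_span ⟨d, h, rfl⟩

lemma Fil_le_B (w : Fin n → ℕ) (c : ℕ) {x : L} (hx : x ∈ C.Fil w c) : x ∈ C.B := by
  induction hx using Submodule.span_induction with
  | mem x h => obtain ⟨d, _, rfl⟩ := h; exact C.mono_mem d
  | zero => exact C.B.zero_mem
  | add x y _ _ hx hy => exact C.B.add_mem hx hy
  | smul b x _ hx => exact C.B.mul_mem b.2 hx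

lemma mem_Fil_zero {w : Fin n → ℕ} {x : L} : x ∈ C.Fil w 0 ↔ x ∈ C.B := by
  refine ⟨C.Fil_le_B w 0, fun hx => ?_⟩
  have h := (C.Fil w 0).smul_mem (⟨x, hx⟩ : C.B) (C.mono_mem_Fil (w := w) (d := 0) (Nat.zero_le _))
  rw [C.mono_zero] at h
  have e : ((⟨x, hx⟩ : C.B) • (1 : L)) = x := by
    rw [Subalgebra.smul_def]; simp
  rwa [e] at h

lemma Fil_anti {w : Fin n → ℕ} {c d : ℕ} (h : c ≤ d) : C.Fil w d ≤ C.Fil w c := by
  refine Submodule.span_mono ?_
  rintro x ⟨e, he, rfl⟩
  exact ⟨e, h.trans he, rfl⟩

lemma mul_mem_Fil_left {w : Fin n → ℕ} {c : ℕ} {b x : L} (hb : b ∈ C.B) (hx : x ∈ C.Fil w c) :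
    b * x ∈ C.Fil w c := (C.Fil w c).smul_mem (⟨b, hb⟩ : C.B) hx

lemma Fil_mul {w : Fin n → ℕ} {c d : ℕ} {x y : L} (hx : x ∈ C.Fil w c) (hy : y ∈ C.Fil w d) :
    x * y ∈ C.Fil w (c + d) := by
  induction hx using Submodule.span_induction with
  | mem x h =>
    obtain ⟨e, he, rfl⟩ := h
    induction hy using Submodule.span_induction with
    | mem y h =>
      obtain ⟨f, hf, rfl⟩ := h
      rw [← C.mono_add]
      apply C.mono_mem_Fil
      rw [map_add]
      exact add_le_add he hf
    | zero => rw [mul_zero]; exact Submodule.zero_mem _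
    | add y z _ _ h1 h2 => rw [mul_add]; exact Submodule.add_mem _ h1 h2
    | smul b y _ h1 =>
      rw [Algebra.mul_smul_comm]
      exact Submodule.smul_mem _ _ h1
  | zero => rw [zero_mul]; exact Submodule.zero_mem _
  | add x z _ _ h1 h2 => rw [add_mul]; exact Submodule.add_mem _ h1 h2
  | smul b x _ h1 =>
    rw [Algebra.smul_mul_assoc]
    exact Submodule.smul_mem _ _ h1

lemma t_mem_Fil {w : Fin n → ℕ} (i : Fin n) : C.t i ∈ C.Fil w (w i) := by
  rw [← C.mono_single i]
  apply C.mono_mem_Fil
  simp [Finsupp.weight_single]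

lemma D_mono (j : Fin n) (d : Fin n →₀ ℕ) :
    C.D j (C.mono d) = (d j : L) * C.mono (d - Finsupp.single j 1) := by
  classical
  have hprod : ∀ s : Finset (Fin n), C.D j (∏ i ∈ s, C.t i ^ d i) =
      if j ∈ s then (d j : L) * ∏ i ∈ s, C.t i ^ (d i - if i = j then 1 else 0) else 0 := by
    intro s
    induction s using Finset.induction_on with
    | empty => simp
    | insert a s ha ih =>
      rw [Finset.prod_insert ha, Derivation.leibniz, ih, Derivation.leibniz_pow, C.D_t]
      by_cases hja : j = a
      · subst hja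
        rw [if_neg ha, if_pos (Finset.mem_insert_self _ _)]
        simp only [if_true, smul_eq_mul, mul_zero, zero_add, mul_one, nsmul_eq_mul]
        rw [Finset.prod_insert ha]
        simp only [if_true]
        have : ∏ i ∈ s, C.t i ^ (d i - if i = j then 1 else 0) = ∏ i ∈ s, C.t i ^ d i := by
          refine Finset.prod_congr rfl fun i hi => ?_
          have : i ≠ j := fun h => ha (h ▸ hi)
          rw [if_neg this, Nat.sub_zero]
        rw [this]
        ring
      · have haj : ¬ a = j := fun h => hja h.symm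
        rw [if_neg haj]
        simp only [smul_zero, add_zero]
        by_cases hjs : j ∈ s
        · rw [if_pos hjs, if_pos (Finset.mem_insert_of_mem hjs), Finset.prod_insert ha, if_neg haj,
            Nat.sub_zero, smul_eq_mul]
          ring
        · rw [if_neg hjs, if_neg (by
            intro h
            rcases Finset.mem_insert.1 h with h | h
            · exact hja h
            · exact hjs h), smul_zero]
  rw [mono, hprod, if_pos (Finset.mem_univ j), mono]
  congr 1
  refine Finset.prod_congr rfl fun i _ => ?_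
  congr 1
  rw [Finsupp.tsub_apply, Finsupp.single_apply]
  by_cases h : i = j
  · simp [h]
  · rw [if_neg h, if_neg (fun h' => h h'.symm)]

lemma D_mem_Fil {w : Fin n → ℕ} {c : ℕ} (j : Fin n) {x : L} (hx : x ∈ C.Fil w c) :
    C.D j x ∈ C.Fil w (c - w j) := by
  classical
  induction hx using Submodule.span_induction with
  | mem x h =>
    obtain ⟨d, hd, rfl⟩ := h
    rw [C.D_mono]
    by_cases hj : d j = 0
    · rw [hj, Nat.cast_zero, zero_mul]; exact Submodule.zero_mem _
    · apply C.mul_mem_Fil_left (Subalgebra.natCast_mem _ _)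
      apply C.mono_mem_Fil
      have h1 : d = (d - Finsupp.single j 1) + Finsupp.single j 1 := by
        ext i
        rw [Finsupp.add_apply, Finsupp.tsub_apply]
        by_cases h : j = i
        · subst h; simp; omega
        · simp [Finsupp.single_apply, h]
      have h2 : Finsupp.weight w d = Finsupp.weight w (d - Finsupp.single j 1) + w j := by
        conv_lhs => rw [h1]
        rw [map_add, Finsupp.weight_single]
        simp
      omega
  | zero => rw [map_zero]; exact Submodule.zero_mem _
  | add x y _ _ h1 h2 => rw [map_add]; exact Submodule.add_mem _ h1 h2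
  | smul b x hx h1 =>
    rw [Subalgebra.smul_def, smul_eq_mul, Derivation.leibniz]
    refine Submodule.add_mem _ ?_ ?_
    · rw [smul_eq_mul]
      exact C.mul_mem_Fil_left b.2 h1
    · rw [smul_eq_mul, mul_comm]
      exact C.mul_mem_Fil_left (C.D_mem j _ b.2) (C.Fil_anti (Nat.sub_le _ _) hx)

/-! ### The maximal ideal -/

variable {w : Fin n → ℕ} (hw : ∀ i, 0 < w i)
include hw

lemma weight_pos {d : Fin n →₀ ℕ} (hd : d ≠ 0) : 0 < Finsupp.weight w d := by
  obtain ⟨i, hi⟩ : ∃ i, d i ≠ 0 := by
    by_contra h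
    push Not at h
    exact hd (Finsupp.ext h)
  rw [Finsupp.weight_apply]
  refine lt_of_lt_of_le (b := d i • w i) ?_ ?_
  · exact Nat.mul_pos (Nat.pos_of_ne_zero hi) (hw i)
  · rw [Finsupp.sum_fintype _ _ (by simp)]
    exact Finset.single_le_sum (f := fun i => d i • w i) (fun _ _ => Nat.zero_le _)
      (Finset.mem_univ i)

lemma mem_Fil_one_iff {x : L} :
    x ∈ C.Fil w 1 ↔ ∃ hx : x ∈ C.B, (⟨x, hx⟩ : C.B) ∈ IsLocalRing.maximalIdeal C.B := by
  classical
  constructor
  · intro h
    refine ⟨C.Fil_le_B w 1 h, ?_⟩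
    have key : ∀ y (hy : y ∈ C.Fil w 1), (⟨y, C.Fil_le_B w 1 hy⟩ : C.B) ∈
        IsLocalRing.maximalIdeal C.B := by
      intro y hy
      induction hy using Submodule.span_induction with
      | mem y h =>
        obtain ⟨d, hd, rfl⟩ := h
        have hd0 : d ≠ 0 := by rintro rfl; simp at hd
        obtain ⟨i, hi⟩ : ∃ i, d i ≠ 0 := by
          by_contra h
          push Not at h
          exact hd0 (Finsupp.ext h)
        rw [C.maximalIdeal_eq]
        have h1 : C.mono d = C.mono (d - Finsupp.single i 1) * C.t i := by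
          rw [← C.mono_single i, ← C.mono_add]
          congr 1
          ext j
          rw [Finsupp.add_apply, Finsupp.tsub_apply]
          by_cases h : i = j
          · subst h; simp; omega
          · simp [h]
        have h2 : (⟨C.mono d, C.mono_mem d⟩ : C.B) =
            ⟨C.mono (d - Finsupp.single i 1), C.mono_mem _⟩ * ⟨C.t i, C.t_mem i⟩ :=
          Subtype.ext h1
        change (⟨C.mono d, _⟩ : C.B) ∈ _
        rw [h2]
        exact Ideal.mul_mem_left _ _ (Ideal.subset_span ⟨i, rfl⟩)
      | zero => exact Ideal.zero_mem _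
      | add x y hx hy h1 h2 => exact Ideal.add_mem _ h1 h2
      | smul b x hx h1 => exact Ideal.mul_mem_left _ b h1
    exact key x h
  · rintro ⟨hx, h⟩
    rw [C.maximalIdeal_eq] at h
    have key : ∀ y ∈ Ideal.span (Set.range fun i => (⟨C.t i, C.t_mem i⟩ : C.B)),
        (y : L) ∈ C.Fil w 1 := by
      intro y hy
      induction hy using Submodule.span_induction with
      | mem y h =>
        obtain ⟨i, rfl⟩ := h
        exact C.Fil_anti (hw i) (C.t_mem_Fil i)
      | zero => exact Submodule.zero_mem _
      | add x y _ _ h1 h2 => exact Submodule.add_mem _ h1 h2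
      | smul b x _ h1 => exact C.mul_mem_Fil_left b.2 h1
    exact key _ h

lemma one_not_mem_Fil_one : (1 : L) ∉ C.Fil w 1 := by
  rw [C.mem_Fil_one_iff hw]
  rintro ⟨h1, h2⟩
  exact (Ideal.ne_top_iff_one _).1 (IsLocalRing.maximalIdeal.isMaximal C.B).ne_top h2

lemma algebraMap_mem_Fil_one {c : k} (h : algebraMap k L c ∈ C.Fil w 1) : c = 0 := by
  by_contra hc
  apply C.one_not_mem_Fil_one hw
  have h1 := C.mul_mem_Fil_left (b := algebraMap k L c⁻¹) (Subalgebra.algebraMap_mem _ _) h
  rwa [← map_mul, inv_mul_cancel₀ hc, map_one] at h1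

lemma exists_const {x : L} (hx : x ∈ C.B) : ∃ c : k, x - algebraMap k L c ∈ C.Fil w 1 := by
  obtain ⟨c, hc⟩ := C.residue ⟨x, hx⟩
  refine ⟨c, (C.mem_Fil_one_iff hw).2 ⟨?_, hc⟩⟩
  exact Subalgebra.sub_mem _ hx (Subalgebra.algebraMap_mem _ _)

/-- an element of `B` outside `Fil w 1` is a unit of `B` -/
lemma inv_mem {x : L} (hx : x ∈ C.B) (h : x ∉ C.Fil w 1) : x⁻¹ ∈ C.B := by
  have h1 : IsUnit (⟨x, hx⟩ : C.B) := by
    by_contra h2
    exact h ((C.mem_Fil_one_iff hw).2 ⟨hx, (IsLocalRing.mem_maximalIdeal _).2 h2⟩)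
  obtain ⟨y, hy⟩ := h1.exists_right_inv
  have h2 : x * (y : L) = 1 := congrArg (fun z : C.B => (z : L)) hy
  have h3 : x⁻¹ = y := by
    have hx0 : x ≠ 0 := by rintro rfl; simp at h2
    field_simp
    exact h2.symm
  rw [h3]; exact y.2

/-- initial forms -/
lemma exists_lead {c : ℕ} {x : L} (hx : x ∈ C.Fil w c) :
    ∃ P : MvPolynomial (Fin n) k, IsWeightedHomogeneous w P c ∧
      x - aeval C.t P ∈ C.Fil w (c + 1) := by
  classical
  induction hx using Submodule.span_induction with
  | mem x h =>
    obtain ⟨d, hd, rfl⟩ := h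
    rcases hd.lt_or_eq with h1 | h1
    · exact ⟨0, isWeightedHomogeneous_zero _ _ _, by
        rw [map_zero, sub_zero]; exact C.mono_mem_Fil h1⟩
    · refine ⟨monomial d 1, isWeightedHomogeneous_monomial _ _ _ h1.symm, ?_⟩
      rw [C.aeval_monomial', map_one, one_mul, sub_self]
      exact Submodule.zero_mem _
  | zero => exact ⟨0, isWeightedHomogeneous_zero _ _ _, by simp⟩
  | add x y _ _ h1 h2 =>
    obtain ⟨P, hP, hxP⟩ := h1
    obtain ⟨Q, hQ, hyQ⟩ := h2
    refine ⟨P + Q, hP.add hQ, ?_⟩
    have : x + y - aeval C.t (P + Q) = (x - aeval C.t P) + (y - aeval C.t Q) := by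
      rw [map_add]; ring
    rw [this]
    exact Submodule.add_mem _ hxP hyQ
  | smul b x hx h1 =>
    obtain ⟨P, hP, hxP⟩ := h1
    obtain ⟨a, ha⟩ := C.exists_const hw b.2
    refine ⟨MvPolynomial.C a * P, hP.C_mul a, ?_⟩
    have e : b • x - aeval C.t (MvPolynomial.C a * P) =
        ((b : L) - algebraMap k L a) * x + algebraMap k L a * (x - aeval C.t P) := by
      rw [map_mul, aeval_C, Subalgebra.smul_def, smul_eq_mul]; ring
    rw [e]
    refine Submodule.add_mem _ ?_ ?_
    · have := C.Fil_mul ha hx
      rwa [add_comm] at this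
    · exact C.mul_mem_Fil_left (Subalgebra.algebraMap_mem _ _) hxP

omit hw in
lemma D_aeval (j : Fin n) (P : MvPolynomial (Fin n) k) :
    C.D j (aeval C.t P) = aeval C.t (pderiv j P) := by
  classical
  induction P using MvPolynomial.induction_on with
  | C a => simp
  | add p q h1 h2 => simp only [map_add, h1, h2]
  | mul_X p i h =>
    rw [map_mul, Derivation.leibniz, h, aeval_X, C.D_t, Derivation.leibniz, pderiv_X, map_add]
    simp only [smul_eq_mul, map_mul, aeval_X]
    by_cases hij : i = j
    · subst hij; simp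
    · simp [hij, Pi.single_apply, Ne.symm hij]

omit hw in
lemma pderiv_homog {j : Fin n} {c : ℕ} {P : MvPolynomial (Fin n) k}
    (hP : IsWeightedHomogeneous w P c) : pderiv j P = 0 ∨
      (w j ≤ c ∧ IsWeightedHomogeneous w (pderiv j P) (c - w j)) := by
  classical
  have hc : ∀ d : Fin n →₀ ℕ, coeff d (pderiv j P) ≠ 0 →
      Finsupp.weight w d + w j = c := by
    intro d hd
    rw [coeff_pderiv] at hd
    have h1 : coeff (d + Finsupp.single j 1) P ≠ 0 := fun h => hd (by rw [h, zero_mul])
    have h2 := hP h1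
    rw [map_add, Finsupp.weight_single] at h2
    simpa using h2
  by_cases h0 : pderiv j P = 0
  · exact Or.inl h0
  · right
    obtain ⟨d, hd⟩ : ∃ d, coeff d (pderiv j P) ≠ 0 := by
      by_contra h
      push Not at h
      exact h0 (MvPolynomial.ext _ _ (by simpa using h))
    have h1 := hc d hd
    refine ⟨by omega, fun e he => ?_⟩
    have := hc e he
    omega

/-- quasi-regularity -/
lemma homog_indep [CharZero k] {c : ℕ} : ∀ {P : MvPolynomial (Fin n) k},
    IsWeightedHomogeneous w P c → aeval C.t P ∈ C.Fil w (c + 1) → P = 0 := by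
  classical
  induction c using Nat.strong_induction_on with
  | _ c ih =>
    intro P hP hmem
    have hder : ∀ j, pderiv j P = 0 := by
      intro j
      rcases pderiv_homog (j := j) hP with h | ⟨hle, h⟩
      · exact h
      · have hlt : c - w j < c := by have := hw j; omega
        refine ih (c - w j) hlt h ?_
        have h1 := C.D_mem_Fil j hmem
        rw [C.D_aeval] at h1
        have e : c + 1 - w j = c - w j + 1 := by omega
        rwa [e] at h1
    -- P is constant
    have hconst : P = MvPolynomial.C (coeff 0 P) := by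
      refine MvPolynomial.ext _ _ fun d => ?_
      rw [coeff_C]
      by_cases hd : 0 = d
      · rw [if_pos hd, ← hd]
      · rw [if_neg hd]
        obtain ⟨i, hi⟩ : ∃ i, d i ≠ 0 := by
          by_contra h
          push Not at h
          exact hd (Finsupp.ext h).symm
        have h1 := congrArg (coeff (d - Finsupp.single i 1)) (hder i)
        rw [coeff_pderiv, coeff_zero] at h1
        have h2 : d - Finsupp.single i 1 + Finsupp.single i 1 = d := by
          ext j
          rw [Finsupp.add_apply, Finsupp.tsub_apply]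
          by_cases h : i = j
          · subst h; simp; omega
          · simp [Finsupp.single_apply, h]
        rw [h2] at h1
        rcases mul_eq_zero.1 h1 with h3 | h3
        · exact h3
        · exfalso
          have h4 : (((d - Finsupp.single i 1 : Fin n →₀ ℕ) i + 1 : ℕ) : k) = 0 := by
            push_cast; exact_mod_cast h3
          exact Nat.cast_ne_zero.2 (Nat.succ_ne_zero _) h4
    rw [hconst, aeval_C] at hmem
    have h0 := C.algebraMap_mem_Fil_one hw (C.Fil_anti (Nat.le_add_left 1 c) hmem)
    rw [hconst, h0, MvPolynomial.C_0]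

/-- the filtration is separated -/
lemma exists_not_mem_Fil {x : L} (hx0 : x ≠ 0) : ∃ c, x ∉ C.Fil w c := by
  classical
  by_contra hcon
  push Not at hcon
  have hxB : x ∈ C.B := C.Fil_le_B w 0 (hcon 0)
  set W : ℕ := ∑ i, w i with hW
  -- monomials of large weight are in high powers of the maximal ideal
  have hmono : ∀ (d : Fin n →₀ ℕ) (N : ℕ), N ≤ ∑ i, d i →
      (⟨C.mono d, C.mono_mem d⟩ : C.B) ∈ IsLocalRing.maximalIdeal C.B ^ N := by
    intro d N hN
    have h1 : (⟨C.mono d, C.mono_mem d⟩ : C.B) = ∏ i, (⟨C.t i, C.t_mem i⟩ : C.B) ^ d i := by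
      apply Subtype.ext
      push_cast
      rfl
    rw [h1]
    apply Ideal.pow_le_pow_right hN
    rw [← Finset.prod_pow_eq_pow_sum]
    refine Ideal.prod_mem_prod fun i _ => ?_
    refine Ideal.pow_mem_pow ?_ _
    rw [C.maximalIdeal_eq]
    exact Ideal.subset_span ⟨i, rfl⟩
  have hFil : ∀ N : ℕ, ∀ y (hy : y ∈ C.Fil w (N * W)), (⟨y, C.Fil_le_B w _ hy⟩ : C.B) ∈
      IsLocalRing.maximalIdeal C.B ^ N := by
    intro N y hy
    induction hy using Submodule.span_induction with
    | mem y h =>
      obtain ⟨d, hd, rfl⟩ := h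
      apply hmono
      rw [Finsupp.weight_apply, Finsupp.sum_fintype _ _ (by simp)] at hd
      have h1 : ∑ i, d i • w i ≤ (∑ i, d i) * W := by
        rw [Finset.sum_mul]
        refine Finset.sum_le_sum fun i _ => ?_
        rw [smul_eq_mul]
        exact Nat.mul_le_mul_left _
          (Finset.single_le_sum (f := w) (fun _ _ => Nat.zero_le _) (Finset.mem_univ i))
      have h2 : N * W ≤ (∑ i, d i) * W := hd.trans h1
      rcases Nat.eq_zero_or_pos W with hW0 | hW0
      · have hn : ∀ i : Fin n, False := fun i => by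
          have h3 : w i ≤ W := Finset.single_le_sum (f := w) (fun _ _ => Nat.zero_le _)
            (Finset.mem_univ i)
          have := hw i
          omega
        -- n = 0: then B is a field, contradiction handled separately below
        exact absurd (hcon 1) (by
          intro h5
          have h6 : (1 : L) ∈ C.Fil w 1 := by
            have h7 : (⟨x, hxB⟩ : C.B) ∈ IsLocalRing.maximalIdeal C.B :=
              ((C.mem_Fil_one_iff hw).1 h5).2
            rw [C.maximalIdeal_eq] at h7
            have h8 : Set.range (fun i => (⟨C.t i, C.t_mem i⟩ : C.B)) = ∅ := by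
              rw [Set.range_eq_empty_iff]
              exact ⟨hn⟩
            rw [h8, Ideal.span_empty, Ideal.mem_bot] at h7
            exact absurd (congrArg (fun z : C.B => (z : L)) h7) hx0
          exact C.one_not_mem_Fil_one hw h6)
      · exact Nat.le_of_mul_le_mul_right h2 hW0
    | zero => exact Ideal.zero_mem _
    | add x y hx hy h1 h2 => exact Ideal.add_mem _ h1 h2
    | smul b x hx h1 => exact Ideal.mul_mem_left _ b h1
  have hmem : (⟨x, hxB⟩ : C.B) ∈ ⨅ i : ℕ, IsLocalRing.maximalIdeal C.B ^ i := by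
    rw [Ideal.mem_iInf]
    intro N
    exact hFil N x (hcon _)
  rw [Ideal.iInf_pow_eq_bot_of_isLocalRing _ (IsLocalRing.maximalIdeal.isMaximal C.B).ne_top,
    Ideal.mem_bot] at hmem
  exact hx0 (congrArg (fun z : C.B => (z : L)) hmem)

end RegCoord

end Pool.H32
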