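import Mathlib
import Pool.Agent.H32.RegVal

/-!
# The monomial valuation attached to weights
-/

set_option autoImplicit false

open scoped BigOperators nonZeroDivisors WithZero
open MvPolynomial

namespace Pool.H32

universe u v

namespace RegCoord

variable {k : Type u} {L : Type v} [Field k] [Field L] [Algebra k L] {n : ℕ}
  (C : RegCoord k L n) {w : Fin n → ℕ}

lemma lead_ne_zero {c : ℕ} {x : L} {P : MvPolynomial (Fin n) k}
    (hx : x ∉ C.Fil w (c + 1)) (hP : x - aeval C.t P ∈ C.Fil w (c + 1)) : P ≠ 0 := by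
  rintro rfl
  rw [map_zero, sub_zero] at hP
  exact hx hP

lemma mul_not_mem_Fil [CharZero k] (hw : ∀ i, 0 < w i) {c d : ℕ} {x y : L}
    (hx : x ∈ C.Fil w c) (hx' : x ∉ C.Fil w (c + 1)) (hy : y ∈ C.Fil w d)
    (hy' : y ∉ C.Fil w (d + 1)) : x * y ∉ C.Fil w (c + d + 1) := by
  intro hxy
  obtain ⟨P, hP, hxP⟩ := C.exists_lead hw hx
  obtain ⟨Q, hQ, hyQ⟩ := C.exists_lead hw hy
  have hP0 := C.lead_ne_zero hx' hxP
  have hQ0 := C.lead_ne_zero hy' hyQ
  have hPm : aeval C.t P ∈ C.Fil w c := by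
    have : aeval C.t P = x - (x - aeval C.t P) := by ring
    rw [this]
    exact Submodule.sub_mem _ hx (C.Fil_anti (Nat.le_succ c) hxP)
  have h1 : (x - aeval C.t P) * y ∈ C.Fil w (c + d + 1) := by
    have := C.Fil_mul hxP hy
    have e : c + 1 + d = c + d + 1 := by ring
    rwa [e] at this
  have h2 : aeval C.t P * (y - aeval C.t Q) ∈ C.Fil w (c + d + 1) := by
    have := C.Fil_mul hPm hyQ
    rwa [← add_assoc] at this
  have h3 : aeval C.t (P * Q) ∈ C.Fil w (c + d + 1) := by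
    have e : aeval C.t (P * Q) = x * y - ((x - aeval C.t P) * y +
        aeval C.t P * (y - aeval C.t Q)) := by
      rw [map_mul]; ring
    rw [e]
    exact Submodule.sub_mem _ hxy (Submodule.add_mem _ h1 h2)
  have h4 := C.homog_indep hw (hP.mul hQ) h3
  rcases mul_eq_zero.1 h4 with h | h
  · exact hP0 h
  · exact hQ0 h

lemma exists_ord (hw : ∀ i, 0 < w i) {x : L} (hx : x ∈ C.B) (hx0 : x ≠ 0) :
    ∃ c, x ∈ C.Fil w c ∧ x ∉ C.Fil w (c + 1) := by
  classical
  obtain ⟨c, hc⟩ := C.exists_not_mem_Fil hw hx0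
  have hex : ∃ c, x ∉ C.Fil w c := ⟨c, hc⟩
  have h1 := Nat.find_spec hex
  have h0 : Nat.find hex ≠ 0 := by
    intro h
    rw [h] at h1
    exact h1 (C.mem_Fil_zero.2 hx)
  obtain ⟨m, hm⟩ := Nat.exists_eq_succ_of_ne_zero h0
  refine ⟨m, ?_, ?_⟩
  · by_contra h
    have := Nat.find_min' hex h
    omega
  · rw [hm] at h1; exact h1

open Classical in
/-- the order of an element of `B` (junk value `0` outside `B` and at `0`) -/
noncomputable def ordN (w : Fin n → ℕ) (x : L) : ℕ :=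
  if h : ∃ c, x ∈ C.Fil w c ∧ x ∉ C.Fil w (c + 1) then h.choose else 0

lemma ordN_spec (hw : ∀ i, 0 < w i) {x : L} (hx : x ∈ C.B) (hx0 : x ≠ 0) :
    x ∈ C.Fil w (C.ordN w x) ∧ x ∉ C.Fil w (C.ordN w x + 1) := by
  have h := C.exists_ord hw hx hx0
  unfold ordN
  rw [dif_pos h]
  exact h.choose_spec

lemma le_ordN_iff (hw : ∀ i, 0 < w i) {x : L} (hx : x ∈ C.B) (hx0 : x ≠ 0) {c : ℕ} :
    c ≤ C.ordN w x ↔ x ∈ C.Fil w c := by
  obtain ⟨h1, h2⟩ := C.ordN_spec hw hx hx0
  constructor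
  · intro h; exact C.Fil_anti h h1
  · intro h
    by_contra hcon
    push Not at hcon
    exact h2 (C.Fil_anti hcon h)

lemma ordN_eq (hw : ∀ i, 0 < w i) {x : L} {c : ℕ} (h1 : x ∈ C.Fil w c)
    (h2 : x ∉ C.Fil w (c + 1)) : C.ordN w x = c := by
  have hx := C.Fil_le_B w c h1
  have hx0 : x ≠ 0 := by rintro rfl; exact h2 (Submodule.zero_mem _)
  apply le_antisymm
  · by_contra hcon
    push Not at hcon
    exact h2 ((C.le_ordN_iff hw hx hx0).1 hcon)
  · exact (C.le_ordN_iff hw hx hx0).2 h1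

lemma ordN_mul [CharZero k] (hw : ∀ i, 0 < w i) {x y : L} (hx : x ∈ C.B) (hx0 : x ≠ 0)
    (hy : y ∈ C.B) (hy0 : y ≠ 0) : C.ordN w (x * y) = C.ordN w x + C.ordN w y := by
  obtain ⟨h1, h2⟩ := C.ordN_spec hw hx hx0
  obtain ⟨h3, h4⟩ := C.ordN_spec hw hy hy0
  exact C.ordN_eq hw (C.Fil_mul h1 h3) (C.mul_not_mem_Fil hw h1 h2 h3 h4)

/-- the monomial valuation on `B`, multiplicative notation -/
noncomputable def valB [CharZero k] (w : Fin n → ℕ) (hw : ∀ i, 0 < w i) : Valuation C.B ℤᵐ⁰ := by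
  classical
  exact
  { toFun := fun x => if x = 0 then 0 else WithZero.exp (-(C.ordN w (x : L) : ℤ))
    map_zero' := by simp
    map_one' := by
      have h1 : (1 : C.B) ≠ 0 := one_ne_zero
      rw [if_neg h1]
      have h2 : C.ordN w ((1 : C.B) : L) = 0 := by
        apply C.ordN_eq hw
        · exact C.mem_Fil_zero.2 (1 : C.B).2
        · exact C.one_not_mem_Fil_one hw
      rw [h2]
      simp
    map_mul' := by
      intro x y
      by_cases hx : x = 0
      · simp [hx]
      by_cases hy : y = 0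
      · simp [hy]
      rw [if_neg hx, if_neg hy, if_neg (mul_ne_zero hx hy), ← WithZero.exp_add]
      congr 1
      have hx' : (x : L) ≠ 0 := fun h => hx (Subtype.ext h)
      have hy' : (y : L) ≠ 0 := fun h => hy (Subtype.ext h)
      have := C.ordN_mul hw x.2 hx' y.2 hy'
      push_cast [this]
      ring
    map_add_le_max' := by
      intro x y
      by_cases hxy : x + y = 0
      · rw [if_pos hxy]; exact zero_le
      by_cases hx : x = 0
      · subst hx; simp
      by_cases hy : y = 0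
      · subst hy; simp
      rw [if_neg hx, if_neg hy, if_neg hxy]
      have hx' : (x : L) ≠ 0 := fun h => hx (Subtype.ext h)
      have hy' : (y : L) ≠ 0 := fun h => hy (Subtype.ext h)
      have hxy' : ((x + y : C.B) : L) ≠ 0 := fun h => hxy (Subtype.ext h)
      have hmin : min (C.ordN w (x : L)) (C.ordN w (y : L)) ≤ C.ordN w ((x + y : C.B) : L) := by
        rw [C.le_ordN_iff hw (x + y).2 hxy']
        push_cast
        exact Submodule.add_mem _
          (C.Fil_anti (min_le_left _ _) (C.ordN_spec hw x.2 hx').1)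
          (C.Fil_anti (min_le_right _ _) (C.ordN_spec hw y.2 hy').1)
      rcases min_le_iff.1 hmin with h | h
      · refine le_max_of_le_left ?_
        rw [WithZero.exp_le_exp]
        omega
      · refine le_max_of_le_right ?_
        rw [WithZero.exp_le_exp]
        omega }

lemma valB_apply [CharZero k] (hw : ∀ i, 0 < w i) {x : C.B} (hx : x ≠ 0) :
    C.valB w hw x = WithZero.exp (-(C.ordN w (x : L) : ℤ)) := by
  classical
  change (if x = 0 then 0 else WithZero.exp (-(C.ordN w (x : L) : ℤ))) = _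
  rw [if_neg hx]

/-- the monomial valuation on `L` -/
noncomputable def mv [CharZero k] (w : Fin n → ℕ) (hw : ∀ i, 0 < w i) :
    AddValuation L (WithTop ℤ) :=
  Pool.Agent.H26.addValOfVal ((C.valB w hw).extendToLocalization (S := C.B⁰) (by
    intro x hx
    change ¬ (C.valB w hw x = 0)
    rw [C.valB_apply hw (nonZeroDivisors.ne_zero hx)]
    exact WithZero.exp_ne_zero) L)

lemma mv_apply [CharZero k] (hw : ∀ i, 0 < w i) {x : L} (hx : x ∈ C.B) (hx0 : x ≠ 0) :
    C.mv w hw x = ((C.ordN w x : ℤ) : WithTop ℤ) := by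
  unfold mv
  rw [Pool.Agent.H26.addValOfVal_apply _ hx0]
  have h1 := (C.valB w hw).extendToLocalization_apply_map_apply (S := C.B⁰) (B := L) (by
    intro x hx
    change ¬ (C.valB w hw x = 0)
    rw [C.valB_apply hw (nonZeroDivisors.ne_zero hx)]
    exact WithZero.exp_ne_zero) (⟨x, hx⟩ : C.B)
  have h2 : algebraMap C.B L ⟨x, hx⟩ = x := rfl
  rw [h2] at h1
  rw [h1, C.valB_apply hw (fun h => hx0 (congrArg (fun z : C.B => (z : L)) h)), WithZero.log_exp]
  simp

lemma le_mv_iff [CharZero k] (hw : ∀ i, 0 < w i) {x : L} (hx : x ∈ C.B) {c : ℕ} :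
    ((c : ℤ) : WithTop ℤ) ≤ C.mv w hw x ↔ x ∈ C.Fil w c := by
  by_cases hx0 : x = 0
  · subst hx0
    simp
  · rw [C.mv_apply hw hx hx0, ← C.le_ordN_iff hw hx hx0]
    norm_cast

lemma mv_nonneg [CharZero k] (hw : ∀ i, 0 < w i) {x : L} (hx : x ∈ C.B) : 0 ≤ C.mv w hw x := by
  have := (C.le_mv_iff hw hx (c := 0)).2 (C.mem_Fil_zero.2 hx)
  simpa using this

lemma mv_pos_iff [CharZero k] (hw : ∀ i, 0 < w i) {x : L} (hx : x ∈ C.B) :
    0 < C.mv w hw x ↔ x ∈ C.Fil w 1 := by
  rw [← C.le_mv_iff hw hx]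
  by_cases hx0 : x = 0
  · subst hx0; simp
  · rw [C.mv_apply hw hx hx0]
    norm_cast

lemma mv_mono [CharZero k] (hw : ∀ i, 0 < w i) (d : Fin n →₀ ℕ) :
    C.mv w hw (C.mono d) = ((Finsupp.weight w d : ℤ) : WithTop ℤ) := by
  have h1 : C.mono d ∈ C.Fil w (Finsupp.weight w d) := C.mono_mem_Fil le_rfl
  have h2 : C.mono d ∉ C.Fil w (Finsupp.weight w d + 1) := by
    intro h
    have h3 : aeval C.t (monomial d (1 : k)) ∈ C.Fil w (Finsupp.weight w d + 1) := by
      rw [C.aeval_monomial', map_one, one_mul]; exact h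
    have h4 := C.homog_indep hw (isWeightedHomogeneous_monomial w d (1 : k) rfl) h3
    exact one_ne_zero ((monomial_eq_zero).1 h4)
  have h0 : C.mono d ≠ 0 := by intro h; rw [h] at h2; exact h2 (Submodule.zero_mem _)
  rw [C.mv_apply hw (C.mono_mem d) h0, C.ordN_eq hw h1 h2]

lemma t_ne_zero [CharZero k] (i : Fin n) : C.t i ≠ 0 := by
  intro h
  have h1 := C.D_t i i
  rw [h, map_zero, if_pos rfl] at h1
  exact zero_ne_one h1

lemma mv_t [CharZero k] (hw : ∀ i, 0 < w i) (i : Fin n) :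
    C.mv w hw (C.t i) = ((w i : ℤ) : WithTop ℤ) := by
  rw [← C.mono_single i, C.mv_mono hw, Finsupp.weight_single]
  simp

lemma mv_const [CharZero k] (hw : ∀ i, 0 < w i) {c : k} (hc : c ≠ 0) :
    C.mv w hw (algebraMap k L c) = 0 := by
  apply le_antisymm
  · by_contra h
    push Not at h
    have := (C.mv_pos_iff hw (Subalgebra.algebraMap_mem _ c)).1 h
    exact hc (C.algebraMap_mem_Fil_one hw this)
  · exact C.mv_nonneg hw (Subalgebra.algebraMap_mem _ c)

end RegCoord

end Pool.H32
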