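import Mathlib
import Pool.Agent.H32.RegVal2

/-!
# Supports, derivations and logarithmic determinants for monomial valuations
-/

set_option autoImplicit false

open scoped BigOperators nonZeroDivisors WithZero
open MvPolynomial

namespace Pool.H32

universe u v

namespace RegCoord

variable {k : Type u} {L : Type v} [Field k] [Field L] [Algebra k L] {n : ℕ}
  (C : RegCoord k L n) {w : Fin n → ℕ}

lemma Fil_one_eq {w w' : Fin n → ℕ} (hw : ∀ i, 0 < w i) (hw' : ∀ i, 0 < w' i) :
    C.Fil w 1 = C.Fil w' 1 := by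
  ext x
  rw [C.mem_Fil_one_iff hw, C.mem_Fil_one_iff hw']

/-! ### iterated derivatives -/

/-- iterated derivation along a list of indices -/
def Dl (l : List (Fin n)) (x : L) : L := l.foldr (fun j y => C.D j y) x

/-- iterated derivative of polynomials -/
noncomputable def Dp (k : Type u) [Field k] {n : ℕ} (l : List (Fin n))
    (P : MvPolynomial (Fin n) k) : MvPolynomial (Fin n) k :=
  l.foldr (fun j Q => pderiv j Q) P

/-- the exponent counted by a list -/
noncomputable def cnt {n : ℕ} (l : List (Fin n)) : Fin n →₀ ℕ :=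
  (l.map fun j => Finsupp.single j 1).sum

lemma Dl_nil (x : L) : C.Dl [] x = x := rfl
lemma Dl_cons (j : Fin n) (l : List (Fin n)) (x : L) : C.Dl (j :: l) x = C.D j (C.Dl l x) := rfl
lemma cnt_cons (j : Fin n) (l : List (Fin n)) : cnt (j :: l) = Finsupp.single j 1 + cnt l := rfl

lemma cnt_append (l l' : List (Fin n)) : cnt (l ++ l') = cnt l + cnt l' := by
  simp [cnt]

lemma exists_cnt (d : Fin n →₀ ℕ) : ∃ l : List (Fin n), cnt l = d := by
  induction d using Finsupp.induction_linear with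
  | zero => exact ⟨[], rfl⟩
  | add f g hf hg =>
    obtain ⟨l, rfl⟩ := hf
    obtain ⟨l', rfl⟩ := hg
    exact ⟨l ++ l', cnt_append l l'⟩
  | single i m =>
    refine ⟨List.replicate m i, ?_⟩
    simp [cnt]

lemma Dl_sub (l : List (Fin n)) (x y : L) : C.Dl l (x - y) = C.Dl l x - C.Dl l y := by
  induction l with
  | nil => rfl
  | cons j l ih => rw [Dl_cons, ih, map_sub, Dl_cons, Dl_cons]

lemma Dl_mem_Fil {c : ℕ} (l : List (Fin n)) {x : L} (hx : x ∈ C.Fil w c) :
    C.Dl l x ∈ C.Fil w (c - Finsupp.weight w (cnt l)) := by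
  induction l with
  | nil => simpa [cnt, Dl] using hx
  | cons j l ih =>
    rw [Dl_cons, cnt_cons, map_add, Finsupp.weight_single, one_smul]
    have := C.D_mem_Fil j ih
    have e : c - Finsupp.weight w (cnt l) - w j = c - (w j + Finsupp.weight w (cnt l)) := by omega
    rwa [e] at this

lemma Dl_mem_B (l : List (Fin n)) {x : L} (hx : x ∈ C.B) : C.Dl l x ∈ C.B := by
  induction l with
  | nil => exact hx
  | cons j l ih => exact C.D_mem j _ ih

lemma Dl_aeval (l : List (Fin n)) (P : MvPolynomial (Fin n) k) :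
    C.Dl l (aeval C.t P) = aeval C.t (Dp k l P) := by
  induction l with
  | nil => rfl
  | cons j l ih =>
    rw [Dl_cons, ih, C.D_aeval]
    rfl

lemma coeff_Dp (l : List (Fin n)) (P : MvPolynomial (Fin n) k) (d : Fin n →₀ ℕ) :
    ∃ N : ℕ, 0 < N ∧ coeff d (Dp k l P) = (N : k) * coeff (d + cnt l) P := by
  induction l generalizing d with
  | nil => exact ⟨1, one_pos, by simp [Dp, cnt]⟩
  | cons j l ih =>
    obtain ⟨N, hN, h⟩ := ih (d + Finsupp.single j 1)
    refine ⟨N * (d j + 1), by positivity, ?_⟩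
    change coeff d (pderiv j (Dp k l P)) = _
    rw [coeff_pderiv, h, cnt_cons, add_assoc]
    push_cast
    ring

/-- the support of the expansion of `x` in the parameters -/
def supp (x : L) : Set (Fin n →₀ ℕ) :=
  {d | ∀ l : List (Fin n), cnt l = d → C.Dl l x ∉ C.Fil (fun _ => 1) 1}

lemma le_weight_of_mem_supp (hw : ∀ i, 0 < w i) {c : ℕ} {x : L} (hx : x ∈ C.Fil w c)
    {d : Fin n →₀ ℕ} (hd : d ∈ C.supp x) : c ≤ Finsupp.weight w d := by
  by_contra hcon
  push Not at hcon
  obtain ⟨l, hl⟩ := exists_cnt d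
  apply hd l hl
  have h1 := C.Dl_mem_Fil l hx
  rw [hl] at h1
  rw [← C.Fil_one_eq hw (fun _ => one_pos)]
  exact C.Fil_anti (by omega) h1

lemma exists_mem_supp [CharZero k] (hw : ∀ i, 0 < w i) {c : ℕ} {x : L} (hx : x ∈ C.Fil w c)
    (hx' : x ∉ C.Fil w (c + 1)) : ∃ d ∈ C.supp x, Finsupp.weight w d = c := by
  obtain ⟨P, hP, hxP⟩ := C.exists_lead hw hx
  have hP0 := C.lead_ne_zero hx' hxP
  obtain ⟨d, hd⟩ := MvPolynomial.ne_zero_iff.1 hP0
  have hdw : Finsupp.weight w d = c := hP hd
  refine ⟨d, fun l hl hmem => ?_, hdw⟩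
  rw [C.Fil_one_eq (fun _ => one_pos) hw] at hmem
  have h1 := C.Dl_mem_Fil l hxP
  rw [hl, hdw, Nat.add_sub_cancel_left] at h1
  rw [Dl_sub, Dl_aeval] at h1
  have h2 : aeval C.t (Dp k l P) ∈ C.Fil w 1 := by
    have := Submodule.sub_mem _ hmem h1
    simpa using this
  have h3 : Dp k l P = MvPolynomial.C (coeff 0 (Dp k l P)) := by
    refine MvPolynomial.ext _ _ fun e => ?_
    rw [coeff_C]
    by_cases he : 0 = e
    · rw [if_pos he, ← he]
    · rw [if_neg he]
      obtain ⟨N, _, h⟩ := coeff_Dp l P e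
      rw [h, hl]
      have h5 : coeff (e + d) P = 0 := by
        by_contra hne
        have h6 : Finsupp.weight w (e + d) = c := hP hne
        rw [map_add, hdw] at h6
        have h7 := weight_pos hw (Ne.symm he)
        omega
      rw [h5, mul_zero]
  rw [h3, aeval_C] at h2
  have h4 := C.algebraMap_mem_Fil_one hw h2
  obtain ⟨N, hN, h⟩ := coeff_Dp l P 0
  rw [h, zero_add, hl] at h4
  rcases mul_eq_zero.1 h4 with h5 | h5
  · exact absurd (Nat.cast_eq_zero.1 h5) hN.ne'
  · exact hd h5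

lemma mv_le_of_mem_supp [CharZero k] (hw : ∀ i, 0 < w i) {x : L} (hx : x ∈ C.B) (hx0 : x ≠ 0)
    {d : Fin n →₀ ℕ} (hd : d ∈ C.supp x) :
    C.mv w hw x ≤ ((Finsupp.weight w d : ℤ) : WithTop ℤ) := by
  rw [C.mv_apply hw hx hx0]
  have := C.le_weight_of_mem_supp hw (C.ordN_spec hw hx hx0).1 hd
  exact_mod_cast this

lemma exists_mv_eq [CharZero k] (hw : ∀ i, 0 < w i) {x : L} (hx : x ∈ C.B) (hx0 : x ≠ 0) :
    ∃ d ∈ C.supp x, C.mv w hw x = ((Finsupp.weight w d : ℤ) : WithTop ℤ) := by
  obtain ⟨h1, h2⟩ := C.ordN_spec hw hx hx0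
  obtain ⟨d, hd, h⟩ := C.exists_mem_supp hw h1 h2
  exact ⟨d, hd, by rw [C.mv_apply hw hx hx0, h]⟩

/-! ### derivations and the valuation -/

/-- the logarithmic derivation `t_j ∂/∂t_j` -/
def th (j : Fin n) (x : L) : L := C.t j * C.D j x

lemma th_mul (j : Fin n) (x y : L) : C.th j (x * y) = x * C.th j y + y * C.th j x := by
  unfold th
  rw [Derivation.leibniz, smul_eq_mul, smul_eq_mul]; ring

lemma th_mem (j : Fin n) {x : L} (hx : x ∈ C.B) : C.th j x ∈ C.B :=
  C.B.mul_mem (C.t_mem j) (C.D_mem j _ hx)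

lemma exists_div (x : L) : ∃ g h : L, g ∈ C.B ∧ h ∈ C.B ∧ h ≠ 0 ∧ x * h = g := by
  obtain ⟨a, b, hb, hab⟩ := IsFractionRing.div_surjective C.B x
  have hb0 : (b : L) ≠ 0 := fun h => nonZeroDivisors.ne_zero hb (Subtype.ext h)
  refine ⟨a, b, a.2, b.2, hb0, ?_⟩
  rw [← hab]
  change (a : L) / (b : L) * b = a
  field_simp

lemma mv_ne_top [CharZero k] (hw : ∀ i, 0 < w i) {x : L} (hx : x ≠ 0) : C.mv w hw x ≠ ⊤ :=
  (AddValuation.ne_top_iff _).2 hx

lemma mv_th_B [CharZero k] (hw : ∀ i, 0 < w i) (j : Fin n) {x : L} (hx : x ∈ C.B) :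
    C.mv w hw x ≤ C.mv w hw (C.th j x) := by
  by_cases hx0 : x = 0
  · subst hx0; simp [th]
  rw [C.mv_apply hw hx hx0, C.le_mv_iff hw (C.th_mem j hx)]
  have h1 := (C.ordN_spec hw hx hx0).1
  have h2 := C.Fil_mul (C.t_mem_Fil (w := w) j) (C.D_mem_Fil j h1)
  exact C.Fil_anti (by omega) h2

lemma mv_th [CharZero k] (hw : ∀ i, 0 < w i) (j : Fin n) (x : L) :
    C.mv w hw x ≤ C.mv w hw (C.th j x) := by
  obtain ⟨g, h, hg, hh, hh0, hgh⟩ := C.exists_div x
  have e : C.th j x * h = C.th j g - x * C.th j h := by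
    rw [← hgh, th_mul]; ring
  have h1 : C.mv w hw x + C.mv w hw h ≤ C.mv w hw (C.th j x) + C.mv w hw h := by
    rw [← AddValuation.map_mul, ← AddValuation.map_mul, e]
    apply AddValuation.map_le_sub
    · rw [hgh]; exact C.mv_th_B hw j hg
    · rw [AddValuation.map_mul, AddValuation.map_mul]
      exact add_le_add le_rfl (C.mv_th_B hw j hh)
  exact (WithTop.add_le_add_iff_right (C.mv_ne_top hw hh0)).1 h1

/-- the weighted Euler derivation -/
def eu (w : Fin n → ℕ) (x : L) : L := ∑ j, (w j : L) * C.th j x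

lemma eu_mul (x y : L) : C.eu w (x * y) = x * C.eu w y + y * C.eu w x := by
  unfold eu
  rw [Finset.mul_sum, Finset.mul_sum, ← Finset.sum_add_distrib]
  refine Finset.sum_congr rfl fun j _ => ?_
  rw [th_mul]; ring

lemma eu_add (x y : L) : C.eu w (x + y) = C.eu w x + C.eu w y := by
  unfold eu
  rw [← Finset.sum_add_distrib]
  refine Finset.sum_congr rfl fun j _ => ?_
  rw [th, th, th, map_add]; ring

lemma mv_nat_nonneg [CharZero k] (hw : ∀ i, 0 < w i) (m : ℤ) : 0 ≤ C.mv w hw (m : L) := by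
  have : ((m : ℤ) : L) = algebraMap k L m := by simp
  rw [this]
  exact C.mv_nonneg hw (Subalgebra.algebraMap_mem _ _)

lemma mv_eu [CharZero k] (hw : ∀ i, 0 < w i) (x : L) : C.mv w hw x ≤ C.mv w hw (C.eu w x) := by
  unfold eu
  refine (C.mv w hw).map_le_sum fun j _ => ?_
  rw [AddValuation.map_mul]
  calc C.mv w hw x = 0 + C.mv w hw x := by rw [zero_add]
    _ ≤ _ := add_le_add (by exact_mod_cast C.mv_nat_nonneg hw (w j)) (C.mv_th hw j x)

lemma eu_aeval {c : ℕ} {P : MvPolynomial (Fin n) k} (hP : IsWeightedHomogeneous w P c) :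
    C.eu w (aeval C.t P) = (c : L) * aeval C.t P := by
  have h := hP.sum_weight_X_mul_pderiv
  have h1 := congrArg (aeval C.t) h
  rw [map_sum, map_nsmul, nsmul_eq_mul] at h1
  rw [← h1, eu]
  refine Finset.sum_congr rfl fun j _ => ?_
  rw [th, C.D_aeval, map_nsmul, map_mul, aeval_X, nsmul_eq_mul]

lemma lt_iff_add_one_le {a : ℤ} {b : WithTop ℤ} : (a : WithTop ℤ) < b ↔ ((a + 1 : ℤ) : WithTop ℤ) ≤ b := by
  cases b with
  | top => simp
  | coe b => norm_cast

lemma mv_eu_sub_B [CharZero k] (hw : ∀ i, 0 < w i) {x : L} (hx : x ∈ C.B) (hx0 : x ≠ 0) :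
    C.mv w hw x < C.mv w hw (C.eu w x - (C.ordN w x : L) * x) := by
  obtain ⟨h1, h2⟩ := C.ordN_spec hw hx hx0
  obtain ⟨P, hP, hxP⟩ := C.exists_lead hw h1
  rw [C.mv_apply hw hx hx0, lt_iff_add_one_le]
  have hy : (((C.ordN w x : ℤ) + 1 : ℤ) : WithTop ℤ) ≤ C.mv w hw (x - aeval C.t P) := by
    have := (C.le_mv_iff hw (C.Fil_le_B w _ hxP)).2 hxP
    exact_mod_cast this
  have e : C.eu w x - (C.ordN w x : L) * x =
      C.eu w (x - aeval C.t P) - (C.ordN w x : L) * (x - aeval C.t P) := by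
    have h3 : C.eu w x = C.eu w (x - aeval C.t P) + C.eu w (aeval C.t P) := by
      rw [← C.eu_add]; congr 1; ring
    rw [h3, C.eu_aeval hP]; ring
  rw [e]
  apply AddValuation.map_le_sub
  · exact hy.trans (C.mv_eu hw _)
  · rw [AddValuation.map_mul]
    calc _ ≤ C.mv w hw (x - aeval C.t P) := hy
      _ = 0 + C.mv w hw (x - aeval C.t P) := by rw [zero_add]
      _ ≤ _ := add_le_add (by exact_mod_cast C.mv_nat_nonneg hw (C.ordN w x)) le_rfl

lemma mv_eu_pos [CharZero k] (hw : ∀ i, 0 < w i) {x : L} (hx : 0 ≤ C.mv w hw x) :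
    0 < C.mv w hw (C.eu w x) := by
  by_cases hx0 : x = 0
  · subst hx0
    have : C.eu w 0 = 0 := by simp [eu, th]
    rw [this]; simp
  obtain ⟨g, h, hg, hh, hh0, hgh⟩ := C.exists_div x
  have hg0 : g ≠ 0 := by rw [← hgh]; exact mul_ne_zero hx0 hh0
  have h1 := C.mv_eu_sub_B hw hg hg0
  have h2 := C.mv_eu_sub_B hw hh hh0
  have hv : C.mv w hw x + C.mv w hw h = C.mv w hw g := by
    rw [← AddValuation.map_mul, hgh]
  -- `m = val x`
  have hgv := C.mv_apply hw hg hg0
  have hhv := C.mv_apply hw hh hh0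
  obtain ⟨m, hm⟩ : ∃ m : ℤ, C.mv w hw x = (m : WithTop ℤ) := by
    obtain ⟨m, hm⟩ := WithTop.ne_top_iff_exists.1 (C.mv_ne_top hw hx0)
    exact ⟨m, hm.symm⟩
  have hm' : m + (C.ordN w h : ℤ) = C.ordN w g := by
    rw [hm, hgv, hhv, ← WithTop.coe_add] at hv
    exact_mod_cast hv
  have e : (C.eu w x - (m : L) * x) * h =
      (C.eu w g - (C.ordN w g : L) * g) - x * (C.eu w h - (C.ordN w h : L) * h) := by
    have h3 : C.eu w g = x * C.eu w h + h * C.eu w x := by rw [← hgh, C.eu_mul]
    have h4 : (C.ordN w g : L) = (m : L) + (C.ordN w h : L) := by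
      have := congrArg (fun z : ℤ => (z : L)) hm'
      push_cast at this
      exact this.symm
    rw [h3, h4, ← hgh]; ring
  have h5 : C.mv w hw x + C.mv w hw h < C.mv w hw (C.eu w x - (m : L) * x) + C.mv w hw h := by
    rw [← AddValuation.map_mul (C.mv w hw) (C.eu w x - (m : L) * x), e, hv]
    rw [sub_eq_add_neg]
    apply AddValuation.map_lt_add
    · exact h1
    · rw [AddValuation.map_neg, AddValuation.map_mul, ← hv]
      exact WithTop.add_lt_add_left (C.mv_ne_top hw hx0) h2
  have h6 : C.mv w hw x < C.mv w hw (C.eu w x - (m : L) * x) :=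
    lt_of_add_lt_add_right h5
  have e2 : C.eu w x = (C.eu w x - (m : L) * x) + (m : L) * x := by ring
  rw [e2]
  apply AddValuation.map_lt_add
  · exact lt_of_le_of_lt hx h6
  · rw [AddValuation.map_mul]
    rcases eq_or_ne m 0 with h0 | h0
    · subst h0; simp
    · have hmpos : 0 < C.mv w hw x := by
        rw [hm] at hx ⊢
        have : (0 : ℤ) ≤ m := by exact_mod_cast hx
        exact_mod_cast lt_of_le_of_ne this (Ne.symm h0)
      exact lt_of_lt_of_le hmpos (by
        calc C.mv w hw x = 0 + C.mv w hw x := by rw [zero_add]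
          _ ≤ _ := add_le_add (C.mv_nat_nonneg hw m) le_rfl)

end RegCoord

/-- determinant with one column of positive value -/
lemma det_pos_of_col {R : Type*} [CommRing R] {n : ℕ} (v : AddValuation R (WithTop ℤ))
    (M : Matrix (Fin n) (Fin n) R) (j0 : Fin n) (h : ∀ i j, 0 ≤ v (M i j))
    (h1 : ∀ i, 1 ≤ v (M i j0)) : 1 ≤ v M.det := by
  rw [Matrix.det_apply]
  refine v.map_le_sum fun σ _ => ?_
  have h2 : v (Equiv.Perm.sign σ • ∏ i, M (σ i) i) = v (∏ i, M (σ i) i) := by
    rcases Int.units_eq_one_or (Equiv.Perm.sign σ) with h | h <;> rw [h]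
    · simp
    · simp
  rw [h2]
  rw [← Finset.mul_prod_erase _ _ (Finset.mem_univ j0), v.map_mul]
  have h3 : ∀ s : Finset (Fin n), 0 ≤ v (∏ x ∈ s, M (σ x) x) := by
    intro s
    induction s using Finset.induction_on with
    | empty => simp
    | insert a s ha ih =>
      rw [Finset.prod_insert ha, v.map_mul]
      exact add_nonneg (h _ _) ih
  calc (1 : WithTop ℤ) = 1 + 0 := by rw [add_zero]
    _ ≤ _ := add_le_add (h1 _) (h3 _)

lemma det_nonneg_of {R : Type*} [CommRing R] {n : ℕ} (v : AddValuation R (WithTop ℤ))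
    (M : Matrix (Fin n) (Fin n) R) (h : ∀ i j, 0 ≤ v (M i j)) : 0 ≤ v M.det := by
  rw [Matrix.det_apply]
  refine v.map_le_sum fun σ _ => ?_
  have h2 : v (Equiv.Perm.sign σ • ∏ i, M (σ i) i) = v (∏ i, M (σ i) i) := by
    rcases Int.units_eq_one_or (Equiv.Perm.sign σ) with h | h <;> rw [h]
    · simp
    · simp
  rw [h2]
  have h3 : ∀ s : Finset (Fin n), 0 ≤ v (∏ x ∈ s, M (σ x) x) := by
    intro s
    induction s using Finset.induction_on with
    | empty => simp
    | insert a s ha ih =>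
      rw [Finset.prod_insert ha, v.map_mul]
      exact add_nonneg (h _ _) ih
  exact h3 _

namespace RegCoord

variable {k : Type u} {L : Type v} [Field k] [Field L] [Algebra k L] {n : ℕ}
  (C : RegCoord k L n) {w : Fin n → ℕ}

/-- the logarithmic Jacobian of elements of nonnegative value has positive value -/
lemma mv_det_pos [CharZero k] (hw : ∀ i, 0 < w i) (j0 : Fin n) (y : Fin n → L)
    (hy : ∀ i, 0 ≤ C.mv w hw (y i)) :
    1 ≤ C.mv w hw (Matrix.det (Matrix.of fun i j => C.th j (y i))) := by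
  set M : Matrix (Fin n) (Fin n) L := Matrix.of fun i j => C.th j (y i) with hM
  have h1 := Matrix.det_updateCol_sum M j0 (fun j => (w j : L))
  have h2 : 1 ≤ C.mv w hw ((M.updateCol j0 fun k => ∑ i, (w i : L) • M k i).det) := by
    apply det_pos_of_col _ _ j0
    · intro i j
      by_cases hj : j = j0
      · subst hj
        rw [Matrix.updateCol_self]
        exact (hy i).trans (C.mv_eu hw (y i))
      · rw [Matrix.updateCol_ne hj]
        exact (hy i).trans (C.mv_th hw j (y i))
    · intro i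
      rw [Matrix.updateCol_self]
      have := C.mv_eu_pos hw (hy i)
      have h3 : ((0 : ℤ) : WithTop ℤ) < C.mv w hw (C.eu w (y i)) := by exact_mod_cast this
      rw [lt_iff_add_one_le] at h3
      have h5 : (∑ x, (w x : L) • M i x) = C.eu w (y i) := rfl
      rw [h5]
      simpa using h3
  rw [h1, smul_eq_mul, AddValuation.map_mul] at h2
  have h4 : C.mv w hw ((w j0 : ℕ) : L) = 0 := by
    have : ((w j0 : ℕ) : L) = algebraMap k L (w j0 : k) := by simp
    rw [this]
    exact C.mv_const hw (Nat.cast_ne_zero.2 (hw j0).ne')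
  rwa [h4, zero_add] at h2

/-! ### Laurent monomials -/

/-- Laurent monomials in the parameters -/
noncomputable def zmono (m : Fin n → ℤ) : L := ∏ i, C.t i ^ m i

lemma zmono_ne_zero [CharZero k] (m : Fin n → ℤ) : C.zmono m ≠ 0 :=
  Finset.prod_ne_zero_iff.2 fun i _ => zpow_ne_zero _ (C.t_ne_zero i)

lemma zmono_add [CharZero k] (m m' : Fin n → ℤ) : C.zmono (m + m') = C.zmono m * C.zmono m' := by
  unfold zmono
  rw [← Finset.prod_mul_distrib]
  exact Finset.prod_congr rfl fun i _ => zpow_add₀ (C.t_ne_zero i) _ _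

lemma zmono_zero : C.zmono 0 = 1 := by simp [zmono]

lemma zmono_nsmul [CharZero k] (a : ℕ) (m : Fin n → ℤ) : C.zmono (a • m) = C.zmono m ^ a := by
  induction a with
  | zero => simp [zmono_zero]
  | succ a ih => rw [succ_nsmul, zmono_add, ih, pow_succ]

lemma zmono_sum [CharZero k] {ι : Type*} (s : Finset ι) (f : ι → Fin n → ℤ) :
    C.zmono (∑ i ∈ s, f i) = ∏ i ∈ s, C.zmono (f i) := by
  classical
  induction s using Finset.induction_on with
  | empty => simp [zmono_zero]
  | insert a s ha ih => rw [Finset.sum_insert ha, zmono_add, ih, Finset.prod_insert ha]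

lemma zmono_natCast (d : Fin n →₀ ℕ) : C.zmono (fun i => (d i : ℤ)) = C.mono d := by
  simp [zmono, mono]

lemma mv_zmono [CharZero k] (hw : ∀ i, 0 < w i) (m : Fin n → ℤ) :
    C.mv w hw (C.zmono m) = ((∑ i, (w i : ℤ) * m i : ℤ) : WithTop ℤ) := by
  classical
  have h1 : ∀ (i : Fin n) (a : ℤ), C.mv w hw (C.t i ^ a) = (((w i : ℤ) * a : ℤ) : WithTop ℤ) := by
    intro i a
    have hnat : ∀ b : ℕ, C.mv w hw (C.t i ^ b) = (((w i : ℤ) * b : ℤ) : WithTop ℤ) := by
      intro b
      rw [AddValuation.map_pow, C.mv_t hw]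
      rw [← WithTop.coe_nsmul]
      congr 1
      rw [nsmul_eq_mul]; ring
    cases a with
    | ofNat b => simpa using hnat b
    | negSucc b =>
      rw [zpow_negSucc]
      have h2 : C.mv w hw (C.t i ^ (b + 1))⁻¹ + C.mv w hw (C.t i ^ (b + 1)) = 0 := by
        rw [← AddValuation.map_mul, inv_mul_cancel₀ (pow_ne_zero _ (C.t_ne_zero i)),
          AddValuation.map_one]
      rw [hnat] at h2
      obtain ⟨z, hz⟩ := WithTop.ne_top_iff_exists.1
        (C.mv_ne_top hw (inv_ne_zero (pow_ne_zero (b + 1) (C.t_ne_zero i))))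
      rw [← hz, ← WithTop.coe_add] at h2
      rw [← hz]
      congr 1
      have h3 : z + (w i : ℤ) * ((b + 1 : ℕ) : ℤ) = 0 := by exact_mod_cast h2
      rw [Int.negSucc_eq]
      push_cast at h3 ⊢
      linarith
  have h2 : ∀ s : Finset (Fin n), C.mv w hw (∏ i ∈ s, C.t i ^ m i) =
      ((∑ i ∈ s, (w i : ℤ) * m i : ℤ) : WithTop ℤ) := by
    intro s
    induction s using Finset.induction_on with
    | empty => simp
    | insert a s ha ih =>
      rw [Finset.prod_insert ha, Finset.sum_insert ha, AddValuation.map_mul, ih, h1,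
        ← WithTop.coe_add]
  exact h2 _

lemma D_t_self (j : Fin n) : C.D j (C.t j) = 1 := by rw [C.D_t, if_pos rfl]

lemma th_zmono [CharZero k] (j : Fin n) (m : Fin n → ℤ) :
    C.th j (C.zmono m) = (m j : L) * C.zmono m := by
  classical
  have hprod : ∀ s : Finset (Fin n), C.th j (∏ i ∈ s, C.t i ^ m i) =
      (if j ∈ s then (m j : L) else 0) * ∏ i ∈ s, C.t i ^ m i := by
    intro s
    induction s using Finset.induction_on with
    | empty => simp [th]
    | insert a s ha ih =>
      rw [Finset.prod_insert ha, th_mul, ih]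
      have h1 : C.th j (C.t a ^ m a) = (if j = a then (m j : L) else 0) * C.t a ^ m a := by
        unfold th
        rw [Derivation.leibniz_zpow, C.D_t]
        by_cases hja : j = a
        · subst hja
          rw [if_pos rfl, if_pos rfl, smul_eq_mul, mul_one, ← Int.cast_smul_eq_zsmul L,
            smul_eq_mul, zpow_sub_one₀ (C.t_ne_zero j)]
          have := C.t_ne_zero j
          field_simp
        · rw [if_neg (fun h => hja h.symm), if_neg hja, smul_zero]
          simp
      rw [h1]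
      by_cases hja : j = a
      · subst hja
        rw [if_pos rfl, if_neg ha, if_pos (Finset.mem_insert_self _ _)]
        ring
      · rw [if_neg hja]
        by_cases hjs : j ∈ s
        · rw [if_pos hjs, if_pos (Finset.mem_insert_of_mem hjs)]; ring
        · rw [if_neg hjs, if_neg (by
            intro h
            rcases Finset.mem_insert.1 h with h | h
            · exact hja h
            · exact hjs h)]
          ring
  have := hprod Finset.univ
  rw [if_pos (Finset.mem_univ j)] at this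
  exact this

/-- the logarithmic Jacobian of Laurent monomials -/
lemma det_zmono [CharZero k] (m : Fin n → Fin n → ℤ) :
    Matrix.det (Matrix.of fun i j => C.th j (C.zmono (m i))) =
      ((Matrix.det (Matrix.of m) : ℤ) : L) * ∏ i, C.zmono (m i) := by
  have h1 : (Matrix.of fun i j => C.th j (C.zmono (m i)) : Matrix (Fin n) (Fin n) L) =
      Matrix.of fun i j => C.zmono (m i) * ((Matrix.of m).map (fun z : ℤ => (z : L))) i j := by
    ext i j
    rw [Matrix.of_apply, Matrix.of_apply, C.th_zmono, Matrix.map_apply, Matrix.of_apply]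
    ring
  rw [h1, Matrix.det_mul_column, mul_comm]
  congr 1
  have h2 := (Int.castRingHom L).map_det (Matrix.of m)
  rw [eq_comm]
  convert! h2 using 1

/-- finite sums of Laurent monomials with distinct exponents of the same weight -/
lemma mv_sum_zmono [CharZero k] (hw : ∀ i, 0 < w i) {ι : Type*} (s : Finset ι) (m : ι → Fin n → ℤ)
    (hm : Set.InjOn m s) (c : ι → k) (e : ℤ) (he : ∀ i ∈ s, ∑ l, (w l : ℤ) * m i l = e)
    (hc : ∃ i ∈ s, c i ≠ 0) :
    C.mv w hw (∑ i ∈ s, algebraMap k L (c i) * C.zmono (m i)) = (e : WithTop ℤ) := by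
  classical
  -- shift to nonnegative exponents
  obtain ⟨N, hN⟩ : ∃ N : ℕ, ∀ i ∈ s, ∀ l, 0 ≤ m i l + N := by
    refine ⟨∑ i ∈ s, ∑ l, (m i l).natAbs, fun i hi l => ?_⟩
    have h1 : (m i l).natAbs ≤ ∑ l, (m i l).natAbs :=
      Finset.single_le_sum (f := fun l => (m i l).natAbs) (fun _ _ => Nat.zero_le _)
        (Finset.mem_univ l)
    have h2 : ∑ l, (m i l).natAbs ≤ ∑ i ∈ s, ∑ l, (m i l).natAbs :=
      Finset.single_le_sum (f := fun i => ∑ l, (m i l).natAbs) (fun _ _ => Nat.zero_le _) hi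
    omega
  let d : ι → (Fin n →₀ ℕ) := fun i => Finsupp.equivFunOnFinite.symm fun l => (m i l + N).toNat
  have hd : ∀ i ∈ s, ∀ l, ((d i l : ℕ) : ℤ) = m i l + N := by
    intro i hi l
    simp only [d, Finsupp.equivFunOnFinite_symm_apply_apply]
    exact Int.toNat_of_nonneg (hN i hi l)
  set NN : Fin n → ℤ := fun _ => (N : ℤ) with hNN
  set P : MvPolynomial (Fin n) k := ∑ i ∈ s, monomial (d i) (c i) with hP
  have hshift : C.zmono NN * (∑ i ∈ s, algebraMap k L (c i) * C.zmono (m i)) = aeval C.t P := by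
    rw [hP, map_sum, Finset.mul_sum]
    refine Finset.sum_congr rfl fun i hi => ?_
    rw [C.aeval_monomial', ← C.zmono_natCast, mul_left_comm, ← C.zmono_add]
    congr 2
    ext l
    rw [Pi.add_apply, hd i hi l, hNN]; ring
  have hinj : Set.InjOn d s := by
    intro i hi j hj hij
    apply hm hi hj
    ext l
    have h1 := hd i hi l
    have h2 := hd j hj l
    rw [hij] at h1
    linarith
  have hPne : P ≠ 0 := by
    obtain ⟨i, hi, hci⟩ := hc
    intro h0
    have h1 := congrArg (coeff (d i)) h0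
    rw [hP, coeff_sum, coeff_zero, Finset.sum_eq_single i] at h1
    · rw [coeff_monomial, if_pos rfl] at h1; exact hci h1
    · intro j hj hji
      rw [coeff_monomial, if_neg]
      intro h; exact hji (hinj hj hi h)
    · intro h; exact absurd hi h
  have hweight : ∀ i ∈ s, (Finsupp.weight w (d i) : ℤ) = e + ∑ l, (w l : ℤ) * N := by
    intro i hi
    rw [Finsupp.weight_apply, Finsupp.sum_fintype _ _ (by simp)]
    push_cast
    rw [← he i hi, ← Finset.sum_add_distrib]
    refine Finset.sum_congr rfl fun l _ => ?_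
    rw [smul_eq_mul]
    push_cast
    rw [hd i hi l]; ring
  obtain ⟨i0, hi0, _⟩ := hc
  set W0 : ℕ := Finsupp.weight w (d i0) with hW0
  have hhom : IsWeightedHomogeneous w P W0 := by
    rw [hP]
    apply IsWeightedHomogeneous.sum
    intro i hi
    apply isWeightedHomogeneous_monomial
    have h1 := hweight i hi
    have h2 := hweight i0 hi0
    have : (Finsupp.weight w (d i) : ℤ) = W0 := by rw [h1, hW0, h2]
    exact_mod_cast this
  have hmvP : C.mv w hw (aeval C.t P) = ((W0 : ℤ) : WithTop ℤ) := by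
    have hmemP : aeval C.t P ∈ C.Fil w W0 := by
      rw [hP, map_sum]
      refine Submodule.sum_mem _ fun i hi => ?_
      rw [C.aeval_monomial']
      refine C.mul_mem_Fil_left (Subalgebra.algebraMap_mem _ _) (C.mono_mem_Fil ?_)
      have h1 := hweight i hi
      have h2 := hweight i0 hi0
      have : (Finsupp.weight w (d i) : ℤ) = W0 := by rw [h1, hW0, h2]
      exact_mod_cast this.ge
    have hnot : aeval C.t P ∉ C.Fil w (W0 + 1) := fun h => hPne (C.homog_indep hw hhom h)
    have h0 : aeval C.t P ≠ 0 := by intro h; rw [h] at hnot; exact hnot (Submodule.zero_mem _)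
    rw [C.mv_apply hw (C.Fil_le_B w _ hmemP) h0, C.ordN_eq hw hmemP hnot]
  have h5 := congrArg (C.mv w hw) hshift
  rw [AddValuation.map_mul, C.mv_zmono hw, hmvP] at h5
  set X := C.mv w hw (∑ i ∈ s, algebraMap k L (c i) * C.zmono (m i)) with hX
  have hXtop : X ≠ ⊤ := by
    intro h
    rw [h] at h5
    simp at h5
  obtain ⟨z, hz⟩ := WithTop.ne_top_iff_exists.1 hXtop
  rw [← hz] at h5 ⊢
  rw [← WithTop.coe_add] at h5
  congr 1
  have h6 : (∑ i, (w i : ℤ) * NN i) + z = W0 := by exact_mod_cast h5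
  have h7 := hweight i0 hi0
  rw [← hW0] at h7
  simp only [hNN] at h6
  linarith

end RegCoord

end Pool.H32
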