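import Mathlib
import Pool.Agent.H32.RegVal3
import Pool.Agent.H26.Normal
import Pool.Agent.H32.OrbDefs

/-!
# Regular coordinates at a smooth point

`B ⊆ L` is a finitely generated `k`-algebra with fraction field `L`, `𝔪` a maximal ideal of `B`
whose local ring has maximal ideal generated by `n = dim` elements `t`.  We construct the
`RegCoord` given by the local ring and `t`.
-/

set_option autoImplicit false

open scoped BigOperators nonZeroDivisors
open MvPolynomial KaehlerDifferential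
open Pool.Agent.H26

namespace Pool.H32

universe u v

section

variable {k : Type u} {L : Type v} [Field k] [Field L] [Algebra k L]

/-- the local ring of `Spec B` at `𝔪`, as a subalgebra of the fraction field -/
noncomputable def locAt (B : Subalgebra k L) [IsFractionRing B L] (𝔪 : Ideal B) [𝔪.IsPrime] :
    Subalgebra k L := (Loc L 𝔪).restrictScalars k

variable {B : Subalgebra k L} [IsFractionRing B L] {𝔪 : Ideal B} [𝔪.IsPrime]

lemma mem_locAt_iff {x : L} : x ∈ locAt B 𝔪 ↔ ∃ a s : B, s ∉ 𝔪 ∧ x * (s : L) = a := by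
  change x ∈ Loc L 𝔪 ↔ _
  rw [mem_Loc_iff]
  rfl

lemma le_locAt {x : L} (hx : x ∈ B) : x ∈ locAt B 𝔪 :=
  mem_locAt_iff.2 ⟨⟨x, hx⟩, 1, (Ideal.ne_top_iff_one _).1 (Ideal.IsPrime.ne_top inferInstance),
    by simp⟩

lemma inv_mem_locAt {s : B} (hs : s ∉ 𝔪) : (s : L)⁻¹ ∈ locAt B 𝔪 := by
  have hs0 : (s : L) ≠ 0 := by
    intro h
    have : s = 0 := Subtype.ext h
    exact hs (this ▸ 𝔪.zero_mem)
  exact mem_locAt_iff.2 ⟨1, s, hs, by simp [hs0]⟩

noncomputable instance : IsLocalRing (locAt B 𝔪) :=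
  inferInstanceAs (IsLocalRing (Loc L 𝔪))

instance [IsNoetherianRing B] : IsNoetherianRing (locAt B 𝔪) :=
  inferInstanceAs (IsNoetherianRing (Loc L 𝔪))

lemma mem_maximalIdeal_locAt_iff {x : L} (hx : x ∈ locAt B 𝔪) :
    (⟨x, hx⟩ : locAt B 𝔪) ∈ IsLocalRing.maximalIdeal (locAt B 𝔪) ↔
      ∃ a s : B, s ∉ 𝔪 ∧ a ∈ 𝔪 ∧ x * (s : L) = a := by
  have hunit : ∀ y (hy : y ∈ locAt B 𝔪), IsUnit (⟨y, hy⟩ : locAt B 𝔪) ↔ y ≠ 0 ∧ y⁻¹ ∈ locAt B 𝔪 := by
    intro y hy
    constructor
    · intro h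
      obtain ⟨z, hz⟩ := h.exists_right_inv
      have h1 : y * (z : L) = 1 := congrArg (fun z : locAt B 𝔪 => (z : L)) hz
      have hy0 : y ≠ 0 := by rintro rfl; simp at h1
      refine ⟨hy0, ?_⟩
      have : y⁻¹ = z := by field_simp; exact h1.symm
      rw [this]; exact z.2
    · rintro ⟨h0, h1⟩
      exact IsUnit.of_mul_eq_one ⟨y⁻¹, h1⟩ (Subtype.ext (mul_inv_cancel₀ h0))
  rw [IsLocalRing.mem_maximalIdeal, mem_nonunits_iff, hunit]
  constructor
  · intro h
    obtain ⟨a, s, hs, h1⟩ := mem_locAt_iff.1 hx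
    refine ⟨a, s, hs, ?_, h1⟩
    by_contra ha
    apply h
    have hs0 : (s : L) ≠ 0 := by
      intro h
      have : s = 0 := Subtype.ext h
      exact hs (this ▸ 𝔪.zero_mem)
    have ha0 : (a : L) ≠ 0 := by
      intro h
      have : a = 0 := Subtype.ext h
      exact ha (this ▸ 𝔪.zero_mem)
    have hx0 : x ≠ 0 := by
      rintro rfl
      rw [zero_mul] at h1
      exact ha0 h1.symm
    refine ⟨hx0, mem_locAt_iff.2 ⟨s, a, ha, ?_⟩⟩
    rw [← h1]; field_simp
  · rintro ⟨a, s, hs, ha, h1⟩ ⟨h2, h3⟩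
    obtain ⟨b, r, hr, h4⟩ := mem_locAt_iff.1 h3
    have h5 : (r : L) * s = b * a := by
      rw [← h1, ← h4]; field_simp
    have h6 : r * s = b * a := Subtype.ext h5
    have h7 : r * s ∈ 𝔪 := by rw [h6]; exact 𝔪.mul_mem_left _ ha
    rcases Ideal.IsPrime.mem_or_mem inferInstance h7 with h | h
    · exact hr h
    · exact hs h

instance : IsFractionRing (locAt B 𝔪) L := by
  refine IsFractionRing.of_field _ _ fun x => ?_
  obtain ⟨a, b, hb, hab⟩ := IsFractionRing.div_surjective B x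
  exact ⟨⟨a, le_locAt a.2⟩, ⟨b, le_locAt b.2⟩, hab.symm⟩

lemma maximalIdeal_locAt {n : ℕ} {t : Fin n → B} (ht : IsParam B 𝔪 t) :
    IsLocalRing.maximalIdeal (locAt B 𝔪) =
      Ideal.span (Set.range fun i => (⟨(t i : L), le_locAt (t i).2⟩ : locAt B 𝔪)) := by
  classical
  apply le_antisymm
  · rintro ⟨x, hx⟩ hxm
    obtain ⟨a, s, hs, ha, h1⟩ := (mem_maximalIdeal_locAt_iff hx).1 hxm
    obtain ⟨s', hs', h2⟩ := ht.gen a ha
    have hs0 : (s : L) ≠ 0 := by
      intro h
      have : s = 0 := Subtype.ext h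
      exact hs (this ▸ 𝔪.zero_mem)
    have hs0' : (s' : L) ≠ 0 := by
      intro h
      have : s' = 0 := Subtype.ext h
      exact hs' (this ▸ 𝔪.zero_mem)
    let φ : B →+* locAt B 𝔪 :=
      { toFun := fun b => ⟨b, le_locAt b.2⟩
        map_one' := rfl
        map_mul' := fun _ _ => rfl
        map_zero' := rfl
        map_add' := fun _ _ => rfl }
    have h3 : φ (s' * a) ∈ Ideal.span (Set.range fun i =>
        (⟨(t i : L), le_locAt (t i).2⟩ : locAt B 𝔪)) := by
      have h4 := Ideal.mem_map_of_mem φ h2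
      rw [Ideal.map_span] at h4
      convert h4 using 2
      rw [← Set.range_comp]
      rfl
    have h5 : (⟨x, hx⟩ : locAt B 𝔪) =
        (⟨(s : L)⁻¹, inv_mem_locAt hs⟩ * ⟨(s' : L)⁻¹, inv_mem_locAt hs'⟩ : locAt B 𝔪) * φ (s' * a) := by
      apply Subtype.ext
      change x = (s : L)⁻¹ * (s' : L)⁻¹ * ((s' : L) * a)
      rw [← h1]
      field_simp
    rw [h5]
    exact Ideal.mul_mem_left _ _ h3
  · rw [Ideal.span_le]
    rintro _ ⟨i, rfl⟩
    exact (mem_maximalIdeal_locAt_iff _).2 ⟨t i, 1,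
      (Ideal.ne_top_iff_one _).1 (Ideal.IsPrime.ne_top inferInstance), ht.mem i, by simp⟩

omit [IsFractionRing B L] in
lemma exists_residue_B [IsAlgClosed k] (hfg : B.FG) [𝔪.IsMaximal] (b : B) :
    ∃ c : k, b - algebraMap k B c ∈ 𝔪 := by
  have : Algebra.FiniteType k B := (Subalgebra.fg_iff_finiteType B).1 hfg
  let _ : Field (B ⧸ 𝔪) := Ideal.Quotient.field 𝔪
  have h1 : Algebra.FiniteType k (B ⧸ 𝔪) :=
    Algebra.FiniteType.of_surjective (Ideal.Quotient.mkₐ k 𝔪) (Ideal.Quotient.mkₐ_surjective k 𝔪)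
  have h2 : Module.Finite k (B ⧸ 𝔪) := finite_of_finite_type_of_isJacobsonRing k (B ⧸ 𝔪)
  have h3 : Algebra.IsIntegral k (B ⧸ 𝔪) := Algebra.IsIntegral.of_finite k (B ⧸ 𝔪)
  obtain ⟨c, hc⟩ := (IsAlgClosed.algebraMap_bijective_of_isIntegral (k := k) (K := B ⧸ 𝔪)).2
    (Ideal.Quotient.mk 𝔪 b)
  refine ⟨c, ?_⟩
  rw [← Ideal.Quotient.eq_zero_iff_mem, map_sub, ← hc]
  exact sub_self _

lemma exists_residue [IsAlgClosed k] (hfg : B.FG) [𝔪.IsMaximal] (x : locAt B 𝔪) :
    ∃ c : k, x - algebraMap k (locAt B 𝔪) c ∈ IsLocalRing.maximalIdeal (locAt B 𝔪) := by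
  obtain ⟨x, hx⟩ := x
  obtain ⟨a, s, hs, h1⟩ := mem_locAt_iff.1 hx
  obtain ⟨ca, hca⟩ := exists_residue_B (𝔪 := 𝔪) hfg a
  obtain ⟨cs, hcs⟩ := exists_residue_B (𝔪 := 𝔪) hfg s
  have hcs0 : cs ≠ 0 := by
    rintro rfl
    rw [map_zero, sub_zero] at hcs
    exact hs hcs
  refine ⟨ca / cs, ?_⟩
  have hmem : x - algebraMap k L (ca / cs) ∈ locAt B 𝔪 :=
    (locAt B 𝔪).sub_mem hx (Subalgebra.algebraMap_mem _ _)
  refine (mem_maximalIdeal_locAt_iff hmem).2 ⟨a - algebraMap k B (ca / cs) * s, s, hs, ?_, ?_⟩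
  · have e : a - algebraMap k B (ca / cs) * s = (a - algebraMap k B ca) -
        algebraMap k B (ca / cs) * (s - algebraMap k B cs) := by
      have h2 : algebraMap k B (ca / cs) * algebraMap k B cs = algebraMap k B ca := by
        rw [← map_mul, div_mul_cancel₀ _ hcs0]
      rw [mul_sub, h2]; ring
    rw [e]
    exact 𝔪.sub_mem hca (𝔪.mul_mem_left _ hcs)
  · rw [sub_mul, h1]
    rfl

/-! ### differentials -/

/-- the `R`-module generated by the differentials of the local ring -/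
lemma exists_span_D (hfg : B.FG) : ∃ S : Finset L, ∀ x ∈ locAt B 𝔪,
    D k L x ∈ Submodule.span (locAt B 𝔪) ((fun s => D k L s) '' (S : Set L)) := by
  classical
  obtain ⟨S, hS⟩ := hfg
  refine ⟨S, ?_⟩
  have hB : ∀ b ∈ B, D k L b ∈ Submodule.span (locAt B 𝔪) ((fun s => D k L s) '' (S : Set L)) := by
    intro b hb
    have key : ∀ b ∈ Algebra.adjoin k (S : Set L),
        b ∈ B ∧ D k L b ∈ Submodule.span (locAt B 𝔪) ((fun s => D k L s) '' (S : Set L)) := by
      intro b hb
      induction hb using Algebra.adjoin_induction with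
      | mem x hx =>
        exact ⟨hS ▸ Algebra.subset_adjoin hx, Submodule.subset_span ⟨x, hx, rfl⟩⟩
      | algebraMap r =>
        refine ⟨Subalgebra.algebraMap_mem _ _, ?_⟩
        rw [Derivation.map_algebraMap]
        exact Submodule.zero_mem _
      | add x y _ _ h1 h2 =>
        refine ⟨B.add_mem h1.1 h2.1, ?_⟩
        rw [map_add]
        exact Submodule.add_mem _ h1.2 h2.2
      | mul x y _ _ h1 h2 =>
        refine ⟨B.mul_mem h1.1 h2.1, ?_⟩
        rw [Derivation.leibniz]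
        exact Submodule.add_mem _
          (Submodule.smul_mem _ (⟨x, le_locAt h1.1⟩ : locAt B 𝔪) h2.2)
          (Submodule.smul_mem _ (⟨y, le_locAt h2.1⟩ : locAt B 𝔪) h1.2)
    exact (key b (hS ▸ hb)).2
  intro x hx
  obtain ⟨a, s, hs, h1⟩ := mem_locAt_iff.1 hx
  have hs0 : (s : L) ≠ 0 := by
    intro h
    have : s = 0 := Subtype.ext h
    exact hs (this ▸ 𝔪.zero_mem)
  have h2 : D k L x = (s : L)⁻¹ • (D k L (a : L) - x • D k L (s : L)) := by
    rw [← h1, Derivation.leibniz, add_sub_cancel_left, smul_smul, inv_mul_cancel₀ hs0, one_smul]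
  rw [h2]
  exact Submodule.smul_mem _ (⟨_, inv_mem_locAt hs⟩ : locAt B 𝔪)
    (Submodule.sub_mem _ (hB a a.2) (Submodule.smul_mem _ (⟨x, hx⟩ : locAt B 𝔪) (hB s s.2)))

/-- the differentials of the parameters generate the differentials of the local ring -/
theorem D_mem_span_param [IsAlgClosed k] (hfg : B.FG) [𝔪.IsMaximal] {n : ℕ} {t : Fin n → B}
    (ht : IsParam B 𝔪 t) {x : L} (hx : x ∈ locAt B 𝔪) :
    D k L x ∈ Submodule.span (locAt B 𝔪) (Set.range fun i => D k L (t i : L)) := by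
  classical
  set R := locAt B 𝔪 with hR
  set N : Submodule R (Ω[L⁄k]) := Submodule.span R (Set.range fun i => D k L (t i : L)) with hN
  set N' : Submodule R (Ω[L⁄k]) := Submodule.span R {y | ∃ x ∈ R, y = D k L x} with hN'
  obtain ⟨S, hS⟩ := exists_span_D (B := B) (𝔪 := 𝔪) hfg
  have hfgN' : N'.FG := by
    have h1 : N' ≤ Submodule.span R ((fun s => D k L s) '' (S : Set L)) := by
      rw [hN', Submodule.span_le]
      rintro _ ⟨x, hx, rfl⟩
      exact hS x hx
    have hfg1 : (Submodule.span R ((fun s => D k L s) '' (S : Set L))).FG :=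
      Submodule.fg_span ((Finset.finite_toSet S).image _)
    have : Algebra.FiniteType k B := (Subalgebra.fg_iff_finiteType B).1 hfg
    have : IsNoetherianRing B := Algebra.FiniteType.isNoetherianRing k B
    have hnoeth : IsNoetherian R (Submodule.span R ((fun s => D k L s) '' (S : Set L))) :=
      isNoetherian_of_fg_of_noetherian _ hfg1
    have h2 : (Submodule.comap (Submodule.span R ((fun s => D k L s) '' (S : Set L))).subtype N').FG :=
      IsNoetherian.noetherian _
    have h3 := h2.map (Submodule.span R ((fun s => D k L s) '' (S : Set L))).subtype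
    rw [Submodule.map_comap_subtype, inf_eq_right.2 h1] at h3
    exact h3
  have hle : N' ≤ N ⊔ IsLocalRing.maximalIdeal R • N' := by
    rw [hN', Submodule.span_le]
    rintro _ ⟨x, hx, rfl⟩
    obtain ⟨c, hc⟩ := exists_residue (𝔪 := 𝔪) hfg ⟨x, hx⟩
    have h1 : D k L x = D k L (x - algebraMap k L c) := by
      rw [map_sub, Derivation.map_algebraMap, sub_zero]
    rw [maximalIdeal_locAt ht] at hc
    obtain ⟨r, hr⟩ := (Ideal.mem_span_range_iff_exists_fun).1 hc
    have h2 : x - algebraMap k L c = ∑ i, (r i : L) * (t i : L) := by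
      have := congrArg (fun z : R => (z : L)) hr
      simp only [AddSubmonoidClass.coe_finsetSum, MulMemClass.coe_mul] at this
      exact this.symm
    rw [h1, h2, map_sum]
    refine Submodule.sum_mem _ fun i _ => ?_
    rw [Derivation.leibniz]
    apply Submodule.add_mem
    · apply Submodule.mem_sup_left
      exact Submodule.smul_mem _ (r i) (Submodule.subset_span ⟨i, rfl⟩)
    · apply Submodule.mem_sup_right
      have h3 : (⟨(t i : L), le_locAt (t i).2⟩ : R) ∈ IsLocalRing.maximalIdeal R := by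
        rw [maximalIdeal_locAt ht]
        exact Ideal.subset_span ⟨i, rfl⟩
      have h6 : D k L (r i : L) ∈ N' := Submodule.subset_span ⟨r i, (r i).2, rfl⟩
      have h7 : (⟨(t i : L), le_locAt (t i).2⟩ : R) • D k L (r i : L) ∈
          IsLocalRing.maximalIdeal R • N' := Submodule.smul_mem_smul h3 h6
      exact h7
  have hjac : IsLocalRing.maximalIdeal R ≤ Ideal.jacobson ⊥ := IsLocalRing.maximalIdeal_le_jacobson ⊥
  have h4 : N' ≤ N := Submodule.le_of_le_smul_of_le_jacobson_bot (R := R) (M := Ω[L⁄k])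
    (I := IsLocalRing.maximalIdeal R) hfgN' hjac hle
  have h5 : D k L x ∈ N' := Submodule.subset_span ⟨x, hx, rfl⟩
  exact h4 h5

lemma span_param_eq_top [IsAlgClosed k] (hfg : B.FG) [𝔪.IsMaximal] {n : ℕ} {t : Fin n → B}
    (ht : IsParam B 𝔪 t) :
    (⊤ : Submodule L (Ω[L⁄k])) ≤ Submodule.span L (Set.range fun i => D k L (t i : L)) := by
  have hR : ∀ x ∈ locAt B 𝔪, D k L x ∈ Submodule.span L (Set.range fun i => D k L (t i : L)) := by
    intro x hx
    have h := D_mem_span_param hfg ht hx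
    exact Submodule.span_le_restrictScalars (locAt B 𝔪) L _ h
  rw [← KaehlerDifferential.span_range_derivation, Submodule.span_le]
  rintro _ ⟨x, rfl⟩
  obtain ⟨a, b, hb, hab⟩ := IsFractionRing.div_surjective B x
  have hb0 : (b : L) ≠ 0 := fun h => nonZeroDivisors.ne_zero hb (Subtype.ext h)
  have h1 : x * (b : L) = a := by
    rw [← hab]
    change (a : L) / (b : L) * b = a
    field_simp
  have h2 : D k L x = (b : L)⁻¹ • (D k L (a : L) - x • D k L (b : L)) := by
    rw [← h1, Derivation.leibniz, add_sub_cancel_left, smul_smul, inv_mul_cancel₀ hb0, one_smul]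
  rw [h2]
  exact Submodule.smul_mem _ _ (Submodule.sub_mem _ (hR _ (le_locAt a.2))
    (Submodule.smul_mem _ _ (hR _ (le_locAt b.2))))

/-- the basis `dt` -/
noncomputable def dtBasis [IsAlgClosed k] (hfg : B.FG) [𝔪.IsMaximal] {n : ℕ} {t : Fin n → B}
    (ht : IsParam B 𝔪 t) (ω : Module.Basis (Fin n) L (Ω[L⁄k])) :
    Module.Basis (Fin n) L (Ω[L⁄k]) :=
  basisOfTopLeSpanOfCardEqFinrank (fun i => D k L (t i : L)) (span_param_eq_top hfg ht)
    (Module.finrank_eq_card_basis ω).symm

lemma dtBasis_apply [IsAlgClosed k] (hfg : B.FG) [𝔪.IsMaximal] {n : ℕ} {t : Fin n → B}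
    (ht : IsParam B 𝔪 t) (ω : Module.Basis (Fin n) L (Ω[L⁄k])) (i : Fin n) :
    dtBasis hfg ht ω i = D k L (t i : L) := by
  unfold dtBasis
  rw [coe_basisOfTopLeSpanOfCardEqFinrank]

/-- the coordinates at a smooth point -/
noncomputable def regCoord [IsAlgClosed k] (hfg : B.FG) [𝔪.IsMaximal] {n : ℕ} {t : Fin n → B}
    (ht : IsParam B 𝔪 t) (ω : Module.Basis (Fin n) L (Ω[L⁄k])) : RegCoord k L n where
  B := locAt B 𝔪
  t := fun i => (t i : L)
  t_mem := fun i => le_locAt (t i).2
  D := fun j => ((dtBasis hfg ht ω).coord j).compDer (D k L)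
  D_t := by
    classical
    intro i j
    change (dtBasis hfg ht ω).coord j (D k L (t i : L)) = _
    rw [← dtBasis_apply hfg ht ω, Module.Basis.coord_apply, Module.Basis.repr_self,
      Finsupp.single_apply]
  D_mem := by
    classical
    intro j b hb
    change (dtBasis hfg ht ω).coord j (D k L b) ∈ locAt B 𝔪
    have h := D_mem_span_param hfg ht hb
    rw [Submodule.mem_span_range_iff_exists_fun] at h
    obtain ⟨c, hc⟩ := h
    rw [← hc, map_sum]
    refine Subalgebra.sum_mem _ fun i _ => ?_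
    have h1 : (dtBasis hfg ht ω).coord j (c i • D k L (t i : L)) =
        (c i : L) * (if i = j then 1 else 0) := by
      have h2 : c i • D k L (t i : L) = (c i : L) • D k L (t i : L) := rfl
      rw [h2, map_smul, ← dtBasis_apply hfg ht ω, Module.Basis.coord_apply,
        Module.Basis.repr_self, Finsupp.single_apply, smul_eq_mul]
    rw [h1]
    refine Subalgebra.mul_mem _ (c i).2 ?_
    split_ifs
    · exact Subalgebra.one_mem _
    · exact Subalgebra.zero_mem _
  isFractionRing := inferInstance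
  isNoetherianRing := by
    have : Algebra.FiniteType k B := (Subalgebra.fg_iff_finiteType B).1 hfg
    have : IsNoetherianRing B := Algebra.FiniteType.isNoetherianRing k B
    infer_instance
  isLocalRing := inferInstance
  maximalIdeal_eq := maximalIdeal_locAt ht
  residue := exists_residue hfg

end

end Pool.H32
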