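import Mathlib
import Pool.Agent.H32.Smooth
import Pool.Agent.H26.PrimeDiv
import Pool.Agent.H26.Cartier
import Pool.Agent.H26.LogForm

/-!
# From prime divisors to monomial valuations
-/

set_option autoImplicit false

open scoped BigOperators nonZeroDivisors
open MvPolynomial KaehlerDifferential
open Pool.Agent.H26

namespace Pool.H32

universe u v

/-! ### integer values of additive valuations -/

section iv

variable {L : Type v} [Field L] (v : AddValuation L (WithTop ℤ))

/-- integer value, junk value `0` at `0` -/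
def iv (x : L) : ℤ := (v x).untopD 0

lemma eq_iv {x : L} (hx : x ≠ 0) : v x = ((iv v x : ℤ) : WithTop ℤ) := by
  have h : v x ≠ ⊤ := (AddValuation.ne_top_iff v).2 hx
  unfold iv
  obtain ⟨z, hz⟩ := WithTop.ne_top_iff_exists.1 h
  rw [← hz]
  rfl

lemma iv_eq_of {x : L} {z : ℤ} (h : v x = (z : WithTop ℤ)) : iv v x = z := by
  unfold iv
  rw [h]; rfl

@[simp] lemma iv_one : iv v 1 = 0 := iv_eq_of v (by simp)

lemma iv_mul {x y : L} (hx : x ≠ 0) (hy : y ≠ 0) : iv v (x * y) = iv v x + iv v y := by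
  have h := v.map_mul x y
  rw [eq_iv v hx, eq_iv v hy, eq_iv v (mul_ne_zero hx hy)] at h
  exact_mod_cast h

lemma iv_inv {x : L} (hx : x ≠ 0) : iv v x⁻¹ = - iv v x := by
  have h := iv_mul v hx (inv_ne_zero hx)
  rw [mul_inv_cancel₀ hx, iv_one] at h
  linarith

lemma iv_div {x y : L} (hx : x ≠ 0) (hy : y ≠ 0) : iv v (x / y) = iv v x - iv v y := by
  rw [div_eq_mul_inv, iv_mul v hx (inv_ne_zero hy), iv_inv v hy]; ring

lemma iv_pow {x : L} (hx : x ≠ 0) (m : ℕ) : iv v (x ^ m) = m * iv v x := by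
  induction m with
  | zero => simp
  | succ m ih => rw [pow_succ, iv_mul v (pow_ne_zero _ hx) hx, ih]; push_cast; ring

lemma iv_zpow {x : L} (hx : x ≠ 0) (m : ℤ) : iv v (x ^ m) = m * iv v x := by
  cases m with
  | ofNat m => simpa using iv_pow v hx m
  | negSucc m =>
    rw [zpow_negSucc, iv_inv v (pow_ne_zero _ hx), iv_pow v hx]
    push_cast [Int.negSucc_eq]
    ring

lemma iv_prod {ι : Type*} (s : Finset ι) (f : ι → L) (hf : ∀ i ∈ s, f i ≠ 0) :
    iv v (∏ i ∈ s, f i) = ∑ i ∈ s, iv v (f i) := by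
  classical
  induction s using Finset.induction_on with
  | empty => simp
  | insert a s ha ih =>
    rw [Finset.prod_insert ha, Finset.sum_insert ha, iv_mul v (hf a (Finset.mem_insert_self _ _))
      (Finset.prod_ne_zero_iff.2 fun i hi => hf i (Finset.mem_insert_of_mem hi)),
      ih fun i hi => hf i (Finset.mem_insert_of_mem hi)]

lemma nonneg_iff {x : L} (hx : x ≠ 0) : 0 ≤ v x ↔ 0 ≤ iv v x := by
  rw [eq_iv v hx]; norm_cast

lemma pos_iff {x : L} (hx : x ≠ 0) : 0 < v x ↔ 0 < iv v x := by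
  rw [eq_iv v hx]; norm_cast

end iv

section transfer

variable {k : Type u} {L : Type v} [Field k] [Field L] [Algebra k L]
variable {B : Subalgebra k L} [IsFractionRing B L] {𝔪 : Ideal B} [𝔪.IsPrime]

lemma iv_eq_val (V : DVal k L) (x : L) : iv V.ord x = V.val x := rfl

/-- a real divisor which vanishes at all prime divisors through the point vanishes at every
valuation centred on the local ring -/
theorem transfer [IsNoetherianRing B] [IsIntegrallyClosed B] {ι : Type*} [Fintype ι]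
    (c : ι → ℝ) (x : ι → L) (hx : ∀ i, x i ≠ 0)
    (h : ∀ V : DVal k L, V.IsPrimeDivisorThrough B 𝔪 → ∑ i, c i * (V.val (x i) : ℝ) = 0)
    (v : AddValuation L (WithTop ℤ)) (hv : ∀ y ∈ locAt B 𝔪, 0 ≤ v y) :
    ∑ i, c i * (iv v (x i) : ℝ) = 0 := by
  classical
  set S : Submodule ℤ ℝ := Submodule.span ℤ (Set.range c) with hS
  have : Module.Finite ℤ S := Module.Finite.span_of_finite ℤ (Set.finite_range c)
  have : Module.Free ℤ S := Module.free_of_finite_type_torsion_free'
  let β := Module.finBasis ℤ S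
  have hcS : ∀ i, c i ∈ S := fun i => Submodule.subset_span ⟨i, rfl⟩
  let q : ι → Fin (Module.finrank ℤ S) → ℤ := fun i j => β.repr ⟨c i, hcS i⟩ j
  have hq : ∀ i, c i = ∑ j, (q i j : ℝ) * (β j : ℝ) := by
    intro i
    have h1 := β.sum_repr ⟨c i, hcS i⟩
    have h2 : ((∑ j, (β.repr ⟨c i, hcS i⟩) j • β j : S) : ℝ) = c i := congrArg Subtype.val h1
    rw [← h2, AddSubmonoidClass.coe_finsetSum]
    refine Finset.sum_congr rfl fun j _ => ?_
    simp [q]
  let X : Fin (Module.finrank ℤ S) → L := fun j => ∏ i, x i ^ (q i j)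
  have hX0 : ∀ j, X j ≠ 0 := fun j => Finset.prod_ne_zero_iff.2 fun i _ => zpow_ne_zero _ (hx i)
  have hXval : ∀ (w : AddValuation L (WithTop ℤ)) j, iv w (X j) = ∑ i, q i j * iv w (x i) := by
    intro w j
    rw [iv_prod w _ _ fun i _ => zpow_ne_zero _ (hx i)]
    refine Finset.sum_congr rfl fun i _ => iv_zpow w (hx i) _
  have hsum : ∀ w : AddValuation L (WithTop ℤ), ∑ i, c i * (iv w (x i) : ℝ) =
      ∑ j, (β j : ℝ) * (iv w (X j) : ℝ) := by
    intro w
    simp_rw [hXval]
    push_cast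
    simp_rw [Finset.mul_sum]
    rw [Finset.sum_comm]
    refine Finset.sum_congr rfl fun i _ => ?_
    rw [hq i, Finset.sum_mul]
    refine Finset.sum_congr rfl fun j _ => ?_
    ring
  have hXv : ∀ j, ∀ V : DVal k L, V.IsPrimeDivisorThrough B 𝔪 → iv V.ord (X j) = 0 := by
    intro j V hV
    have h1 := h V hV
    have h1' : ∑ i, c i * (iv V.ord (x i) : ℝ) = 0 := h1
    rw [hsum V.ord] at h1'
    have h2 : ∑ j, iv V.ord (X j) • β j = 0 := by
      apply Subtype.ext
      rw [AddSubmonoidClass.coe_finsetSum]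
      simp only [SetLike.val_smul, zsmul_eq_mul, ZeroMemClass.coe_zero]
      rw [← h1']
      refine Finset.sum_congr rfl fun j _ => mul_comm _ _
    exact (Fintype.linearIndependent_iff.1 β.linearIndependent) _ h2 j
  have hXL : ∀ j, X j ∈ locAt B 𝔪 ∧ (X j)⁻¹ ∈ locAt B 𝔪 := by
    intro j
    constructor
    · change X j ∈ Loc L 𝔪
      refine mem_Loc_of_forall 𝔪 _ fun V hV => ?_
      rw [nonneg_iff V.ord (hX0 j), hXv j V hV]
    · change (X j)⁻¹ ∈ Loc L 𝔪
      refine mem_Loc_of_forall 𝔪 _ fun V hV => ?_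
      rw [nonneg_iff V.ord (inv_ne_zero (hX0 j)), iv_inv V.ord (hX0 j), hXv j V hV, neg_zero]
  have hv0 : ∀ j, iv v (X j) = 0 := by
    intro j
    have h1 := (nonneg_iff v (hX0 j)).1 (hv _ (hXL j).1)
    have h2 := (nonneg_iff v (inv_ne_zero (hX0 j))).1 (hv _ (hXL j).2)
    rw [iv_inv v (hX0 j)] at h2
    omega
  rw [hsum v]
  simp [hv0]

/-! ### the form `dt₁ ∧ ⋯ ∧ dtₙ` generates the canonical sheaf -/

variable {n : ℕ} {t : Fin n → B}

lemma det_dt [IsAlgClosed k] (hfg : B.FG) [𝔪.IsMaximal]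
    (ht : IsParam B 𝔪 t) (ω : Module.Basis (Fin n) L (Ω[L⁄k])) (y : Fin n → L) :
    (dtBasis hfg ht ω).det (fun i => D k L (y i)) =
      Matrix.det (Matrix.of fun i j => (regCoord hfg ht ω).D j (y i)) := by
  rw [Module.Basis.det_apply, ← Matrix.det_transpose]
  rfl

theorem formOrd_dt [IsAlgClosed k] (hfg : B.FG) [𝔪.IsMaximal] [IsNoetherianRing B]
    [IsIntegrallyClosed B] (ht : IsParam B 𝔪 t) (ω : Module.Basis (Fin n) L (Ω[L⁄k]))
    (V : DVal k L) (hV : V.IsPrimeDivisorThrough B 𝔪) : V.FormOrd (dtBasis hfg ht ω) 0 := by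
  classical
  obtain ⟨P, hP, hP1, hPm⟩ := hV
  have : P.IsPrime := HasCenter.isPrime hP
  have hkey := (dval_key P hP1 V hP).2
  have hD : ∀ (j : Fin n) (x : L), 0 ≤ V.ord x → 0 ≤ V.ord ((regCoord hfg ht ω).D j x) := by
    intro j x hx
    obtain ⟨a, s, hs, h1⟩ := (mem_Loc_iff P x).1 ((hkey x).1 hx)
    have h1' : x * (s : L) = (a : L) := h1
    have hs0 : (s : L) ≠ 0 := by
      intro h
      have : s = 0 := Subtype.ext h
      exact hs (this ▸ P.zero_mem)
    have hVs : V.ord (s : L) = 0 := by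
      have h2 := hP.1 s
      have h3 := (hP.2 s).not.1 hs
      exact le_antisymm (not_lt.1 h3) h2
    have hDL : ∀ b : B, 0 ≤ V.ord ((regCoord hfg ht ω).D j (b : L)) := by
      intro b
      have h4 : (regCoord hfg ht ω).D j (b : L) ∈ locAt B 𝔪 :=
        (regCoord hfg ht ω).D_mem j _ (le_locAt b.2)
      exact ord_nonneg_of_mem_Loc hP hPm h4
    have h5 : (regCoord hfg ht ω).D j x * (s : L) = (regCoord hfg ht ω).D j (a : L) -
        x * (regCoord hfg ht ω).D j (s : L) := by
      rw [← h1', Derivation.leibniz, smul_eq_mul, smul_eq_mul]; ring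
    have h6 : 0 ≤ V.ord ((regCoord hfg ht ω).D j x * (s : L)) := by
      rw [h5]
      refine V.ord.map_le_sub (hDL a) ?_
      rw [V.ord.map_mul]
      exact add_nonneg hx (hDL s)
    rwa [V.ord.map_mul, hVs, add_zero] at h6
  refine ⟨fun y hy => ?_, fun i => (t i : L), fun i => ?_, ?_⟩
  · rw [det_dt]
    have := det_nonneg_of V.ord (Matrix.of fun i j => (regCoord hfg ht ω).D j (y i))
      (fun i j => hD j _ (hy i))
    simpa using this
  · exact hP.1 (t i)
  · rw [det_dt]
    have h7 : (Matrix.of fun i j => (regCoord hfg ht ω).D j (t i : L)) =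
        (1 : Matrix (Fin n) (Fin n) L) := by
      ext i j
      rw [Matrix.of_apply, Matrix.one_apply]
      exact (regCoord hfg ht ω).D_t i j
    rw [h7, Matrix.det_one]
    simp

end transfer

end Pool.H32
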