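import Mathlib
import Pool.Agent.H32.Crepant

/-!
# Bases adapted to a valuation and a tame automorphism
-/

set_option autoImplicit false

open scoped BigOperators nonZeroDivisors
open Pool.Agent.H26

namespace Pool.H32

universe u v

section adapted

variable {k : Type u} {L : Type v} [Field k] [Field L] [Algebra k L] {n : ℕ}

/-- an adapted basis of a finite dimensional space for a valuation -/
lemma exists_max_basis (F : DVal k L) (V : Submodule k L) (t : Fin n → L)
    (ht : LinearIndependent k t) (htV : ∀ i, t i ∈ V)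
    (hbd : ∃ M : ℤ, ∀ s : Fin n → L, LinearIndependent k s → (∀ i, s i ∈ V) →
      ∑ i, F.val (s i) ≤ M) :
    ∃ s : Fin n → L, LinearIndependent k s ∧ (∀ i, s i ∈ V) ∧
      ∀ (a : Fin n → k) (i : Fin n), a i ≠ 0 → F.val (∑ j, a j • s j) ≤ F.val (s i) := by
  classical
  obtain ⟨M, hM⟩ := hbd
  let S : Set ℤ := {z | ∃ s : Fin n → L, LinearIndependent k s ∧ (∀ i, s i ∈ V) ∧
    ∑ i, F.val (s i) = z}
  have hne : ∃ z, z ∈ S := ⟨_, t, ht, htV, rfl⟩
  obtain ⟨z, ⟨s, hs, hsV, hz⟩, hmax⟩ := Int.exists_greatest_of_bdd (P := fun z => z ∈ S)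
    ⟨M, fun z hz => by obtain ⟨s, hs, hsV, rfl⟩ := hz; exact hM s hs hsV⟩ hne
  refine ⟨s, hs, hsV, fun a i hai => ?_⟩
  by_contra hcon
  push Not at hcon
  set x := ∑ j, a j • s j with hx
  -- replace
  let s' : Fin n → L := Function.update s i x
  have hs'V : ∀ j, s' j ∈ V := by
    intro j
    by_cases hj : j = i
    · subst hj
      simp only [s', Function.update_self]
      exact V.sum_mem fun j _ => V.smul_mem _ (hsV j)
    · simp only [s', Function.update_of_ne hj]
      exact hsV j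
  have hs'ind : LinearIndependent k s' := by
    rw [Fintype.linearIndependent_iff] at hs ⊢
    intro c hc
    have h1 : ∑ j, c j • s' j = ∑ j, ((if j = i then 0 else c j) + c i * a j) • s j := by
      have h2 : ∀ j, c j • s' j = (if j = i then 0 else c j) • s j + (if j = i then c i • x else 0) := by
        intro j
        by_cases hj : j = i
        · subst hj; simp [s']
        · simp [s', hj]
      simp_rw [h2, add_smul]
      rw [Finset.sum_add_distrib, Finset.sum_add_distrib]
      congr 1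
      rw [Finset.sum_ite_eq' Finset.univ i, if_pos (Finset.mem_univ i), hx, Finset.smul_sum]
      refine Finset.sum_congr rfl fun j _ => ?_
      rw [smul_smul]
    rw [h1] at hc
    have h3 := hs _ hc
    have h4 : c i = 0 := by
      have := h3 i
      rw [if_pos rfl, zero_add] at this
      exact (mul_eq_zero.1 this).resolve_right hai
    intro j
    by_cases hj : j = i
    · rw [hj]; exact h4
    · have := h3 j
      rwa [if_neg hj, h4, zero_mul, add_zero] at this
  have hsum : ∑ j, F.val (s' j) = z - F.val (s i) + F.val x := by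
    rw [← hz, ← Finset.add_sum_erase _ _ (Finset.mem_univ i),
      ← Finset.add_sum_erase (a := i) _ (fun j => F.val (s j)) (Finset.mem_univ i)]
    have h1 : F.val (s' i) = F.val x := by simp [s']
    have h2 : ∑ j ∈ Finset.univ.erase i, F.val (s' j) = ∑ j ∈ Finset.univ.erase i, F.val (s j) := by
      refine Finset.sum_congr rfl fun j hj => ?_
      simp only [s', Function.update_of_ne (Finset.ne_of_mem_erase hj)]
    rw [h1, h2]
    ring
  have h5 := hmax _ ⟨s', hs'ind, hs'V, rfl⟩
  rw [hsum] at h5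
  omega

/-- iterates of a tame automorphism -/
lemma tame_iterate (F : DVal k L) (σ : L ≃ₐ[k] L) {ζ : k} (hζ : ζ ≠ 0)
    (hσ : ∀ x : L, x ≠ 0 → F.ord x < F.ord (σ x - algebraMap k L (ζ ^ (F.val x)) * x))
    {x : L} (hx : x ≠ 0) (m : ℕ) :
    F.ord x < F.ord ((σ ^ m) x - algebraMap k L (ζ ^ (m * F.val x)) * x) := by
  induction m with
  | zero =>
    rw [pow_zero, Nat.cast_zero, zero_mul, zpow_zero, map_one, one_mul]
    change F.ord x < F.ord (x - x)
    rw [sub_self, F.ord.map_zero, F.ord_eq_val hx]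
    exact WithTop.coe_lt_top _
  | succ m ih =>
    have hinv : ∀ y : L, F.ord (σ y) = F.ord y := by
      intro y
      by_cases hy : y = 0
      · subst hy; simp
      · have h1 := hσ y hy
        have h2 : F.ord (algebraMap k L (ζ ^ (F.val y)) * y) = F.ord y := by
          rw [F.ord.map_mul, F.ord_algebraMap _ (zpow_ne_zero _ hζ), zero_add]
        have h3 := F.ord.map_eq_of_lt_sub (x := algebraMap k L (ζ ^ (F.val y)) * y) (y := σ y)
          (by rw [h2]; exact h1)
        rw [← h2, ← h3]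
    set ρ := (σ ^ m) x - algebraMap k L (ζ ^ (m * F.val x)) * x with hρ
    have h1 : (σ ^ (m + 1)) x = σ ((σ ^ m) x) := by rw [pow_succ']; rfl
    have h2 : (σ ^ m) x = algebraMap k L (ζ ^ (m * F.val x)) * x + ρ := by rw [hρ]; ring
    have h3 : (σ ^ (m + 1)) x - algebraMap k L (ζ ^ (((m + 1 : ℕ) : ℤ) * F.val x)) * x =
        algebraMap k L (ζ ^ (m * F.val x)) * (σ x - algebraMap k L (ζ ^ (F.val x)) * x) + σ ρ := by
      have h4 : ζ ^ (((m + 1 : ℕ) : ℤ) * F.val x) = ζ ^ (m * F.val x) * ζ ^ (F.val x) := by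
        rw [← zpow_add₀ hζ]; congr 1; push_cast; ring
      rw [h1, h2, map_add, map_mul, AlgEquiv.commutes, h4, map_mul]
      ring
    rw [h3]
    apply F.ord.map_lt_add
    · rw [F.ord.map_mul, F.ord_algebraMap _ (zpow_ne_zero _ hζ), zero_add]
      exact hσ x hx
    · rw [hinv]; exact ih

/-- **Adapted eigenbases.** -/
theorem exists_adapted [CharZero k] (F : DVal k L) (V : Submodule k L) (t : Fin n → L)
    (ht : LinearIndependent k t) (htV : ∀ i, t i ∈ V)
    (hbd : ∃ M : ℤ, ∀ s : Fin n → L, LinearIndependent k s → (∀ i, s i ∈ V) →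
      ∑ i, F.val (s i) ≤ M)
    (σ : L ≃ₐ[k] L) (hσV : ∀ x ∈ V, σ x ∈ V) {N : ℕ} (hN : 0 < N) (hσN : σ ^ N = 1) {ζ : k}
    (hζ : ζ ≠ 0)
    (hσ : ∀ x : L, x ≠ 0 → F.ord x < F.ord (σ x - algebraMap k L (ζ ^ (F.val x)) * x)) :
    ∃ s : Fin n → L, LinearIndependent k s ∧ (∀ i, s i ∈ V) ∧
      (∀ i, σ (s i) = algebraMap k L (ζ ^ (F.val (s i))) * s i) ∧
      ∀ (a : Fin n → k) (i : Fin n), a i ≠ 0 → F.val (∑ j, a j • s j) ≤ F.val (s i) := by
  classical
  obtain ⟨s, hs, hsV, hsF⟩ := exists_max_basis F V t ht htV hbd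
  have hs0 : ∀ i, s i ≠ 0 := fun i => hs.ne_zero i
  have hN0 : (N : k) ≠ 0 := by exact_mod_cast hN.ne'
  -- the power of ζ
  have hpowN : ∀ i, ζ ^ ((N : ℤ) * F.val (s i)) = 1 := by
    intro i
    have h1 := tame_iterate F σ hζ hσ (hs0 i) N
    rw [hσN] at h1
    have h2 : (1 : L ≃ₐ[k] L) (s i) - algebraMap k L (ζ ^ ((N : ℤ) * F.val (s i))) * s i =
        algebraMap k L (1 - ζ ^ ((N : ℤ) * F.val (s i))) * s i := by
      rw [map_sub, map_one]
      change s i - _ = _
      ring
    rw [h2, F.ord.map_mul] at h1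
    by_contra hne
    rw [F.ord_algebraMap _ (sub_ne_zero.2 (Ne.symm hne)), zero_add] at h1
    exact lt_irrefl _ h1
  set w : Fin n → ℤ := fun i => F.val (s i) with hw
  let s' : Fin n → L := fun i => algebraMap k L (N : k)⁻¹ *
    ∑ m ∈ Finset.range N, algebraMap k L (ζ ^ (-(m * w i))) * (σ ^ m) (s i)
  have hσmV : ∀ m : ℕ, ∀ x ∈ V, (σ ^ m) x ∈ V := by
    intro m
    induction m with
    | zero => intro x hx; simpa using hx
    | succ m ih =>
      intro x hx
      rw [pow_succ']
      exact hσV _ (ih x hx)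
  have hs'V : ∀ i, s' i ∈ V := by
    intro i
    simp only [s']
    rw [← Algebra.smul_def]
    refine V.smul_mem _ (V.sum_mem fun m _ => ?_)
    rw [← Algebra.smul_def]
    exact V.smul_mem _ (hσmV m _ (hsV i))
  have hσs' : ∀ i, σ (s' i) = algebraMap k L (ζ ^ (w i)) * s' i := by
    intro i
    simp only [s']
    rw [map_mul, AlgEquiv.commutes, map_sum]
    have h1 : ∀ m : ℕ, σ (algebraMap k L (ζ ^ (-(m * w i))) * (σ ^ m) (s i)) =
        algebraMap k L (ζ ^ (w i)) *
          (algebraMap k L (ζ ^ (-(((m + 1 : ℕ) : ℤ) * w i))) * (σ ^ (m + 1)) (s i)) := by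
      intro m
      rw [map_mul, AlgEquiv.commutes, pow_succ', ← mul_assoc, ← map_mul, ← zpow_add₀ hζ]
      congr 3
      push_cast; ring
    simp_rw [h1]
    rw [← Finset.mul_sum]
    have h2 : ∑ m ∈ Finset.range N, algebraMap k L (ζ ^ (-(((m + 1 : ℕ) : ℤ) * w i))) *
        (σ ^ (m + 1)) (s i) =
        ∑ m ∈ Finset.range N, algebraMap k L (ζ ^ (-(m * w i))) * (σ ^ m) (s i) := by
      have h3 := Finset.sum_range_succ'
        (fun m : ℕ => algebraMap k L (ζ ^ (-((m : ℤ) * w i))) * (σ ^ m) (s i)) N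
      have h4 := Finset.sum_range_succ
        (fun m : ℕ => algebraMap k L (ζ ^ (-((m : ℤ) * w i))) * (σ ^ m) (s i)) N
      rw [h4] at h3
      have h5 : ζ ^ (-((N : ℤ) * w i)) = 1 := by
        rw [zpow_neg, hpowN i, inv_one]
      rw [h5, hσN] at h3
      simp only [map_one, one_mul, Nat.cast_zero, zero_mul, neg_zero, zpow_zero, pow_zero] at h3
      exact (add_right_cancel h3).symm
    rw [h2]
    ring
  have hdiff : ∀ i, F.ord (s i) < F.ord (s' i - s i) := by
    intro i
    have h1 : s' i - s i = algebraMap k L (N : k)⁻¹ *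
        ∑ m ∈ Finset.range N, algebraMap k L (ζ ^ (-(m * w i))) *
          ((σ ^ m) (s i) - algebraMap k L (ζ ^ (m * w i)) * s i) := by
      have h2 : ∀ m : ℕ, algebraMap k L (ζ ^ (-(m * w i))) *
          ((σ ^ m) (s i) - algebraMap k L (ζ ^ (m * w i)) * s i) =
          algebraMap k L (ζ ^ (-(m * w i))) * (σ ^ m) (s i) - s i := by
        intro m
        rw [mul_sub, ← mul_assoc, ← map_mul, ← zpow_add₀ hζ]
        simp
      simp_rw [h2]
      rw [Finset.sum_sub_distrib, Finset.sum_const, Finset.card_range, mul_sub]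
      congr 1
      rw [nsmul_eq_mul, ← mul_assoc]
      have h3 : ((N : ℕ) : L) = algebraMap k L (N : k) := by simp
      rw [h3, ← map_mul, inv_mul_cancel₀ hN0, map_one, one_mul]
    rw [h1, F.ord.map_mul, F.ord_algebraMap _ (inv_ne_zero hN0), zero_add]
    apply F.ord.map_lt_sum
    · rw [F.ord_eq_val (hs0 i)]; exact WithTop.coe_ne_top
    · intro m _
      rw [F.ord.map_mul, F.ord_algebraMap _ (zpow_ne_zero _ hζ), zero_add]
      exact tame_iterate F σ hζ hσ (hs0 i) m
  have hs'0 : ∀ i, s' i ≠ 0 ∧ F.val (s' i) = w i := fun i => F.val_eq_of_lt (hs0 i) (hdiff i)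
  -- values of combinations
  have hcomb : ∀ a : Fin n → k, (∃ i, a i ≠ 0) → (∑ j, a j • s' j) ≠ 0 ∧
      F.val (∑ j, a j • s' j) = F.val (∑ j, a j • s j) := by
    intro a ha
    have hx0 : ∑ j, a j • s j ≠ 0 := by
      intro h
      obtain ⟨i, hi⟩ := ha
      exact hi (Fintype.linearIndependent_iff.1 hs a h i)
    apply F.val_eq_of_lt hx0
    have h1 : ∑ j, a j • s' j - ∑ j, a j • s j = ∑ j, a j • (s' j - s j) := by
      rw [← Finset.sum_sub_distrib]
      refine Finset.sum_congr rfl fun j _ => ?_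
      rw [smul_sub]
    rw [h1]
    apply F.ord.map_lt_sum
    · rw [F.ord_eq_val hx0]; exact WithTop.coe_ne_top
    · intro j _
      by_cases hj : a j = 0
      · rw [hj, zero_smul, F.ord.map_zero, F.ord_eq_val hx0]; exact WithTop.coe_lt_top _
      · rw [Algebra.smul_def, F.ord.map_mul, F.ord_algebraMap _ hj, zero_add]
        refine lt_of_le_of_lt ?_ (hdiff j)
        rw [F.ord_eq_val hx0, F.ord_eq_val (hs0 j)]
        exact_mod_cast hsF a j hj
  refine ⟨s', ?_, hs'V, fun i => ?_, fun a i hai => ?_⟩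
  · rw [Fintype.linearIndependent_iff]
    intro a ha
    by_contra hcon
    push Not at hcon
    exact (hcomb a hcon).1 ha
  · rw [hσs', (hs'0 i).2]
  · rw [(hcomb a ⟨i, hai⟩).2, (hs'0 i).2]
    exact hsF a i hai

end adapted

end Pool.H32
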