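import Mathlib

/-!
# Transcendence degree and differentials
-/

set_option autoImplicit false

open scoped BigOperators nonZeroDivisors TensorProduct
open MvPolynomial KaehlerDifferential

namespace Pool.H32

universe u v

open scoped IntermediateField.algebraAdjoinAdjoin in
/-- a field extension in characteristic zero is formally étale over the polynomial ring in a
transcendence basis -/
lemma formallyEtale_of_isTranscendenceBasis {k : Type u} {L : Type v} [Field k] [Field L]
    [Algebra k L] [CharZero k] {ι : Type*} {x : ι → L} (hx : IsTranscendenceBasis k x)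
    [Algebra (MvPolynomial ι k) L] (halg : algebraMap (MvPolynomial ι k) L = (aeval x : _ →ₐ[k] L)) :
    Algebra.FormallyEtale (MvPolynomial ι k) L := by
  let A := Algebra.adjoin k (Set.range x)
  let F := IntermediateField.adjoin k (Set.range x)
  have h1 : Algebra.FormallyEtale A F := Algebra.FormallyEtale.of_isLocalization (nonZeroDivisors A)
  have : CharZero F := charZero_of_injective_algebraMap (algebraMap k F).injective
  have : Algebra.IsAlgebraic F L := hx.isAlgebraic_field
  have h2 : Algebra.FormallyEtale F L := Algebra.FormallyEtale.of_isSeparable F L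
  have h3 : Algebra.FormallyEtale A L := Algebra.FormallyEtale.comp A F L
  let e : MvPolynomial ι k ≃ₐ[k] A := hx.1.aevalEquiv
  let _ : Algebra (MvPolynomial ι k) A := e.toRingHom.toAlgebra
  have : IsScalarTower (MvPolynomial ι k) A L := by
    refine IsScalarTower.of_algebraMap_eq fun p => ?_
    rw [halg]
    exact (hx.1.algebraMap_aevalEquiv p).symm
  have h4 : Algebra.FormallyEtale (MvPolynomial ι k) A := by
    refine Algebra.FormallyEtale.of_equiv (A := MvPolynomial ι k)
      (AlgEquiv.ofBijective (Algebra.ofId (MvPolynomial ι k) A) ?_)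
    exact e.bijective
  exact Algebra.FormallyEtale.comp (MvPolynomial ι k) A L

lemma card_of_isTranscendenceBasis {k : Type u} {L : Type v} [Field k] [Field L]
    [Algebra k L] [CharZero k] {ι : Type*} {x : ι → L} (hx : IsTranscendenceBasis k x) :
    Nonempty (Module.Basis ι L (Ω[L⁄k])) := by
  let _ : Algebra (MvPolynomial ι k) L := (aeval x : MvPolynomial ι k →ₐ[k] L).toRingHom.toAlgebra
  have halg : algebraMap (MvPolynomial ι k) L = (aeval x : MvPolynomial ι k →ₐ[k] L) := rfl
  have := formallyEtale_of_isTranscendenceBasis hx halg
  have : IsScalarTower k (MvPolynomial ι k) L := IsScalarTower.of_algebraMap_eq fun c => by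
    rw [halg]; simp
  have e := tensorKaehlerEquivOfFormallyEtale k (MvPolynomial ι k) L
  exact ⟨((mvPolynomialBasis k ι).baseChange L).map e⟩

/-- in characteristic zero the transcendence degree is the dimension of the differentials -/
theorem trdeg_eq_of_basis {k : Type u} {L : Type v} [Field k] [Field L]
    [Algebra k L] [CharZero k] {n : ℕ} (ω : Module.Basis (Fin n) L (Ω[L⁄k])) :
    Algebra.trdeg k L = n := by
  obtain ⟨s, hs⟩ := exists_isTranscendenceBasis k L
  obtain ⟨b⟩ := card_of_isTranscendenceBasis hs
  have h1 := b.mk_eq_rank''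
  have h2 : Module.rank L (Ω[L⁄k]) = n := by
    rw [rank_eq_card_basis ω, Fintype.card_fin]
  rw [← hs.cardinalMk_eq_trdeg, h1, h2]

/-- more than `n` elements are algebraically dependent -/
theorem exists_relation {k : Type u} {L : Type v} [Field k] [Field L]
    [Algebra k L] [CharZero k] {n : ℕ} (ω : Module.Basis (Fin n) L (Ω[L⁄k]))
    {ι : Type} [Fintype ι] (hι : n < Fintype.card ι) (x : ι → L) :
    ∃ P : MvPolynomial ι k, P ≠ 0 ∧ aeval x P = 0 := by
  by_contra hcon
  push Not at hcon
  have hx : AlgebraicIndependent k x := by
    rw [algebraicIndependent_iff]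
    intro P hP
    by_contra h
    exact hcon P h hP
  have h1 := hx.lift_cardinalMk_le_trdeg
  rw [trdeg_eq_of_basis ω] at h1
  simp at h1
  omega

end Pool.H32
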