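import Mathlib
import Pool.Agent.H32.Crepant
import Pool.Agent.H32.Trdeg

/-!
# Residual algebraic dependence and the logarithmic Jacobian
-/

set_option autoImplicit false

open scoped BigOperators nonZeroDivisors
open MvPolynomial KaehlerDifferential
open Pool.Agent.H26

namespace Pool.H32

universe u v

section vring

variable {L : Type v} [Field L] (v : AddValuation L (WithTop ℤ))

/-- the valuation ring -/
def vring : ValuationSubring L where
  carrier := {x | 0 ≤ v x}
  mul_mem' := by
    intro a b ha hb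
    change 0 ≤ v (a * b)
    rw [v.map_mul]; exact add_nonneg ha hb
  one_mem' := by simp
  add_mem' := by
    intro a b ha hb
    exact v.map_le_add ha hb
  zero_mem' := by simp
  neg_mem' := by
    intro a ha
    change 0 ≤ v (-a)
    rw [v.map_neg]; exact ha
  mem_or_inv_mem' := by
    intro x
    by_cases hx : x = 0
    · left; subst hx; simp
    · rcases le_total 0 (iv v x) with h | h
      · left; exact (nonneg_iff v hx).2 h
      · right
        refine (nonneg_iff v (inv_ne_zero hx)).2 ?_
        rw [iv_inv v hx]; omega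

lemma mem_vring {x : L} : x ∈ vring v ↔ 0 ≤ v x := Iff.rfl

lemma residue_eq_zero_iff (x : vring v) :
    IsLocalRing.residue (vring v) x = 0 ↔ 0 < v (x : L) := by
  rw [IsLocalRing.residue_eq_zero_iff, IsLocalRing.mem_maximalIdeal, mem_nonunits_iff]
  constructor
  · intro h
    by_contra hcon
    apply h
    have h0 : v (x : L) = 0 := le_antisymm (not_lt.1 hcon) x.2
    have hx0 : (x : L) ≠ 0 := by
      intro hx
      rw [hx, v.map_zero] at h0
      simp at h0
    have h1 : iv v (x : L) = 0 := iv_eq_of v h0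
    have h2 : (x : L)⁻¹ ∈ vring v := by
      rw [mem_vring, nonneg_iff v (inv_ne_zero hx0), iv_inv v hx0, h1, neg_zero]
    exact IsUnit.of_mul_eq_one ⟨_, h2⟩ (Subtype.ext (mul_inv_cancel₀ hx0))
  · rintro h ⟨y, hy⟩
    have h1 : (x : L) * ((y⁻¹ : (vring v)ˣ) : vring v) = 1 := by
      rw [← hy]
      exact congrArg (fun z : vring v => (z : L)) (Units.mul_inv y)
    have h2 := v.map_mul (x : L) ((y⁻¹ : (vring v)ˣ) : vring v)
    rw [h1, v.map_one] at h2
    have h3 : 0 ≤ v (((y⁻¹ : (vring v)ˣ) : vring v) : L) := ((y⁻¹ : (vring v)ˣ) : vring v).2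
    have h4 : 0 < v (x : L) + v (((y⁻¹ : (vring v)ˣ) : vring v) : L) := add_pos_of_pos_of_nonneg h h3
    rw [← h2] at h4
    exact lt_irrefl _ h4

/-- a matrix whose determinant vanishes residually has a residual kernel vector -/
lemma exists_kernel {n : ℕ} (M : Matrix (Fin n) (Fin n) L) (hM : ∀ i j, 0 ≤ v (M i j))
    (hdet : 0 < v M.det) :
    ∃ c : Fin n → L, (∀ j, 0 ≤ v (c j)) ∧ (∃ j, v (c j) = 0) ∧
      ∀ i, 0 < v (∑ j, M i j * c j) := by
  classical
  let M' : Matrix (Fin n) (Fin n) (vring v) := fun i j => ⟨M i j, hM i j⟩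
  have h1 : ((M'.det : vring v) : L) = M.det := by
    have h2 := RingHom.map_det (vring v).subtype M'
    have h3 : (vring v).subtype.mapMatrix M' = M := by ext i j; rfl
    rw [h3] at h2
    exact h2
  have h2 : IsLocalRing.residue (vring v) M'.det = 0 := by
    rw [residue_eq_zero_iff, h1]; exact hdet
  rw [RingHom.map_det] at h2
  obtain ⟨c, hc0, hc⟩ := Matrix.exists_mulVec_eq_zero_iff.2 h2
  choose c' hc' using fun j => IsLocalRing.residue_surjective (R := vring v) (c j)
  refine ⟨fun j => (c' j : L), fun j => (c' j).2, ?_, fun i => ?_⟩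
  · obtain ⟨j, hj⟩ := Function.ne_iff.1 hc0
    refine ⟨j, ?_⟩
    by_contra hcon
    apply hj
    change c j = 0
    rw [← hc' j, residue_eq_zero_iff]
    exact lt_of_le_of_ne (c' j).2 (Ne.symm hcon)
  · have h3 := congrFun hc i
    have h4 : IsLocalRing.residue (vring v) (∑ j, M' i j * c' j) = 0 := by
      rw [map_sum]
      simp_rw [map_mul, hc']
      exact h3
    rw [residue_eq_zero_iff] at h4
    have h5 : ((∑ j, M' i j * c' j : vring v) : L) = ∑ j, M i j * (c' j : L) := by
      rw [AddSubmonoidClass.coe_finsetSum]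
      rfl
    rw [h5] at h4
    exact h4

end vring

section residual

variable {k : Type u} {L : Type v} [Field k] [Field L] [Algebra k L]
  (v : AddValuation L (WithTop ℤ))

/-- a nonzero polynomial with unit coefficients has finite value at an element of nonzero value -/
lemma eval₂_ne_zero {R : Type*} [CommRing R] (φ : R →+* L) (hφ : ∀ r, r ≠ 0 → v (φ r) = 0)
    {s : L} (hs0 : s ≠ 0) (hs : v s ≠ 0) {p : Polynomial R} (hp : p ≠ 0) :
    p.eval₂ φ s ≠ 0 := by
  classical
  have hval : ∀ j, p.coeff j ≠ 0 → v (φ (p.coeff j) * s ^ j) = ((j * iv v s : ℤ) : WithTop ℤ) := by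
    intro j hj
    rw [v.map_mul, hφ _ hj, zero_add, eq_iv v (pow_ne_zero _ hs0), iv_pow v hs0]
  have hs' : iv v s ≠ 0 := by
    intro h
    apply hs
    rw [eq_iv v hs0, h]; rfl
  obtain ⟨j0, hj0, hmin⟩ : ∃ j0 ∈ p.support, ∀ j ∈ p.support, j ≠ j0 →
      (j0 * iv v s : ℤ) < j * iv v s := by
    have hne : p.support.Nonempty := Polynomial.support_nonempty.2 hp
    obtain ⟨j0, hj0, hmin⟩ := p.support.exists_min_image (fun j => (j * iv v s : ℤ)) hne
    refine ⟨j0, hj0, fun j hj hjj => lt_of_le_of_ne (hmin j hj) fun h => hjj ?_⟩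
    have := mul_right_cancel₀ hs' h
    exact_mod_cast this.symm
  rw [Polynomial.eval₂_eq_sum, Polynomial.sum, ← Finset.add_sum_erase _ _ hj0]
  intro hzero
  have h1 : v (φ (p.coeff j0) * s ^ j0) < v (∑ x ∈ p.support.erase j0, φ (p.coeff x) * s ^ x) := by
    apply v.map_lt_sum
    · rw [hval j0 (Polynomial.mem_support_iff.1 hj0)]
      exact WithTop.coe_ne_top
    · intro j hj
      rw [Finset.mem_erase] at hj
      rw [hval j0 (Polynomial.mem_support_iff.1 hj0), hval j (Polynomial.mem_support_iff.1 hj.2)]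
      exact_mod_cast hmin j hj.2 hj.1
  have h2 := v.map_add_eq_of_lt_left h1
  rw [hzero, v.map_zero, hval j0 (Polynomial.mem_support_iff.1 hj0)] at h2
  exact WithTop.top_ne_coe h2

lemma add_pos_nn {a b : WithTop ℤ} (ha : 0 ≤ a) (hb : 0 < b) : 0 < a + b :=
  lt_of_lt_of_le hb (le_add_of_nonneg_left ha)

lemma v_sub_pos {x y : L} (hx : 0 < v x) (hy : 0 < v y) : 0 < v (x - y) := by
  rw [sub_eq_add_neg]
  apply v.map_lt_add hx
  rw [v.map_neg]; exact hy

/-- residually algebraically independent elements -/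
def ResInd (k : Type u) [Field k] [Algebra k L] {m : ℕ} (u : Fin m → L) : Prop :=
  (∀ i, 0 ≤ v (u i)) ∧ ∀ P : MvPolynomial (Fin m) k, P ≠ 0 → v (aeval u P) = 0

lemma opt_eval {σ : Type} (x : Option σ → L) (Q : MvPolynomial (Option σ) k) :
    (optionEquivLeft k σ Q).eval₂
      ((aeval (fun i => x (some i)) : MvPolynomial σ k →ₐ[k] L) : MvPolynomial σ k →+* L) (x none) =
      aeval x Q := by
  induction Q using MvPolynomial.induction_on with
  | C a => simp
  | add p q h1 h2 => rw [map_add, Polynomial.eval₂_add, h1, h2, map_add]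
  | mul_X p i h =>
    rw [map_mul, Polynomial.eval₂_mul, h, map_mul, aeval_X]
    congr 1
    cases i with
    | none => rw [optionEquivLeft_X_none, Polynomial.eval₂_X]
    | some i => rw [optionEquivLeft_X_some, Polynomial.eval₂_C]; simp

lemma eval₂_nonneg {R : Type*} [CommRing R] (φ : R →+* L) (hφ : ∀ r, 0 ≤ v (φ r)) {z : L}
    (hz : 0 ≤ v z) (p : Polynomial R) : 0 ≤ v (p.eval₂ φ z) := by
  rw [Polynomial.eval₂_eq_sum, Polynomial.sum]
  refine v.map_le_sum fun j _ => ?_
  rw [v.map_mul, v.map_pow]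
  exact add_nonneg (hφ _) (nsmul_nonneg hz j)

variable {v} in
lemma ResInd.nonneg {m : ℕ} {u : Fin m → L} (hu : ResInd v k u) (P : MvPolynomial (Fin m) k) :
    0 ≤ v (aeval u P) := by
  by_cases h : P = 0
  · subst h; simp
  · rw [hu.2 P h]

/-- any further integral element is residually algebraic over `u` -/
lemma exists_relation_residual [CharZero k] {m n : ℕ} (hmn : m + 1 = n)
    (ω : Module.Basis (Fin n) L (Ω[L⁄k])) {u : Fin m → L} (hu : ResInd v k u) {s : L} (hs0 : s ≠ 0)
    (hs : v s ≠ 0) {z : L} (hz : 0 ≤ v z) :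
    ∃ p : Polynomial (MvPolynomial (Fin m) k), p ≠ 0 ∧
      0 < v (p.eval₂ ((aeval u : MvPolynomial (Fin m) k →ₐ[k] L) : MvPolynomial (Fin m) k →+* L) z) := by
  classical
  by_contra hcon
  push Not at hcon
  set φ : MvPolynomial (Fin m) k →+* L :=
    ((aeval u : MvPolynomial (Fin m) k →ₐ[k] L) : MvPolynomial (Fin m) k →+* L) with hφ
  have h1 : ∀ p : Polynomial (MvPolynomial (Fin m) k), p ≠ 0 → v (p.eval₂ φ z) = 0 := fun p hp =>
    le_antisymm (hcon p hp) (eval₂_nonneg v φ (fun r => hu.nonneg r) hz p)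
  let x : Option (Option (Fin m)) → L := fun o => match o with
    | none => s
    | some none => z
    | some (some i) => u i
  obtain ⟨Q, hQ0, hQ⟩ := exists_relation ω (ι := Option (Option (Fin m))) (by simp; omega) x
  have h2 := opt_eval x Q
  rw [hQ] at h2
  have hne : optionEquivLeft k (Option (Fin m)) Q ≠ 0 := by
    intro h
    exact hQ0 ((optionEquivLeft k (Option (Fin m))).injective (h.trans (map_zero _).symm))
  refine eval₂_ne_zero v _ ?_ hs0 hs hne h2
  intro r hr
  have h3 := opt_eval (fun i => x (some i)) r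
  change v (aeval (fun i => x (some i)) r) = 0
  rw [← h3]
  have hne' : optionEquivLeft k (Fin m) r ≠ 0 := by
    intro h
    exact hr ((optionEquivLeft k (Fin m)).injective (h.trans (map_zero _).symm))
  exact h1 _ hne'

/-- a logarithmic derivation which is residually zero on `u` is residually zero -/
theorem derivation_pos [CharZero k] {m n : ℕ} (hmn : m + 1 = n)
    (ω : Module.Basis (Fin n) L (Ω[L⁄k])) {u : Fin m → L} (hu : ResInd v k u) {s : L} (hs0 : s ≠ 0)
    (hs : v s ≠ 0) (δ : Derivation k L L) (hδ : ∀ x, v x ≤ v (δ x)) (hδu : ∀ i, 0 < v (δ (u i)))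
    {z : L} (hz : 0 ≤ v z) : 0 < v (δ z) := by
  classical
  set φ : MvPolynomial (Fin m) k →+* L :=
    ((aeval u : MvPolynomial (Fin m) k →ₐ[k] L) : MvPolynomial (Fin m) k →+* L) with hφ
  have hφ0 : ∀ r, 0 ≤ v (φ r) := fun r => hu.nonneg r
  -- a relation of minimal degree
  let S : Set ℕ := {d | ∃ p : Polynomial (MvPolynomial (Fin m) k), p ≠ 0 ∧ p.natDegree = d ∧
    0 < v (p.eval₂ φ z)}
  have hS : ∃ d, d ∈ S := by
    obtain ⟨p, hp, hp'⟩ := exists_relation_residual v hmn ω hu hs0 hs hz
    exact ⟨_, p, hp, rfl, hp'⟩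
  obtain ⟨p, hp0, hpd, hpv⟩ := Nat.find_spec hS
  have hmin : ∀ q : Polynomial (MvPolynomial (Fin m) k), q ≠ 0 → q.natDegree < p.natDegree →
      v (q.eval₂ φ z) = 0 := by
    intro q hq hqd
    have h1 : q.natDegree ∉ S := Nat.find_min hS (by rw [hpd] at hqd; exact hqd)
    refine le_antisymm (not_lt.1 fun h => h1 ⟨q, hq, rfl, h⟩) (eval₂_nonneg v φ hφ0 hz q)
  have hdeg : 0 < p.natDegree := by
    rw [Nat.pos_iff_ne_zero]
    intro h
    rw [Polynomial.eq_C_of_natDegree_eq_zero h, Polynomial.eval₂_C] at hpv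
    have h1 : p.coeff 0 ≠ 0 := by
      intro h2
      apply hp0
      rw [Polynomial.eq_C_of_natDegree_eq_zero h, h2, map_zero]
    have h2 : v (φ (p.coeff 0)) = 0 := hu.2 _ h1
    rw [h2] at hpv
    exact lt_irrefl _ hpv
  have hder : v (p.derivative.eval₂ φ z) = 0 := by
    apply hmin
    · intro h
      have := Polynomial.derivative_eq_zero.1 h
      omega
    · exact Polynomial.natDegree_derivative_lt (by omega)
  have hδφ : ∀ r, 0 < v (δ (φ r)) := by
    intro r
    induction r using MvPolynomial.induction_on with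
    | C a =>
      have h1 : φ (C a) = algebraMap k L a := by simp [hφ]
      rw [h1, Derivation.map_algebraMap, v.map_zero]
      exact WithTop.coe_lt_top 0
    | add p q h1 h2 =>
      rw [map_add, map_add]
      exact v.map_lt_add h1 h2
    | mul_X p i h =>
      have h1 : φ (X i) = u i := by simp [hφ]
      rw [map_mul, Derivation.leibniz, smul_eq_mul, smul_eq_mul, h1]
      apply v.map_lt_add
      · rw [v.map_mul]
        exact add_pos_nn (hφ0 p) (hδu i)
      · rw [v.map_mul]
        exact add_pos_nn (hu.1 i) h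
  have hδp : ∀ q : Polynomial (MvPolynomial (Fin m) k),
      0 < v (δ (q.eval₂ φ z) - q.derivative.eval₂ φ z * δ z) := by
    intro q
    induction q using Polynomial.induction_on with
    | C a =>
      rw [Polynomial.eval₂_C, Polynomial.derivative_C, Polynomial.eval₂_zero, zero_mul, sub_zero]
      exact hδφ a
    | add p q h1 h2 =>
      rw [Polynomial.eval₂_add, map_add, Polynomial.derivative_add, Polynomial.eval₂_add, add_mul]
      have e : δ (p.eval₂ φ z) + δ (q.eval₂ φ z) - (p.derivative.eval₂ φ z * δ z +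
          q.derivative.eval₂ φ z * δ z) = (δ (p.eval₂ φ z) - p.derivative.eval₂ φ z * δ z) +
          (δ (q.eval₂ φ z) - q.derivative.eval₂ φ z * δ z) := by ring
      rw [e]
      exact v.map_lt_add h1 h2
    | monomial j a _ =>
      rw [Polynomial.derivative_C_mul_X_pow, Polynomial.eval₂_mul, Polynomial.eval₂_C,
        Polynomial.eval₂_pow, Polynomial.eval₂_X, Polynomial.eval₂_mul, Polynomial.eval₂_C,
        Polynomial.eval₂_pow, Polynomial.eval₂_X, Derivation.leibniz, Derivation.leibniz_pow,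
        map_mul, map_natCast]
      have e : φ a • (j + 1) • z ^ (j + 1 - 1) • δ z + z ^ (j + 1) • δ (φ a) -
          φ a * ((j + 1 : ℕ) : L) * z ^ (j + 1 - 1) * δ z = z ^ (j + 1) * δ (φ a) := by
        simp only [smul_eq_mul, nsmul_eq_mul]
        push_cast
        ring
      rw [e, v.map_mul, v.map_pow]
      exact add_pos_nn (nsmul_nonneg hz _) (hδφ a)
  have h1 : 0 < v (δ (p.eval₂ φ z)) := lt_of_lt_of_le hpv (hδ _)
  have h2 : 0 < v (p.derivative.eval₂ φ z * δ z) := by
    have e : p.derivative.eval₂ φ z * δ z = δ (p.eval₂ φ z) -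
      (δ (p.eval₂ φ z) - p.derivative.eval₂ φ z * δ z) := by ring
    rw [e]
    exact v_sub_pos v h1 (hδp p)
  rwa [v.map_mul, hder, zero_add] at h2

end residual

end Pool.H32
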