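import Mathlib
import Pool.Agent.H32.Residue

/-!
# The logarithmic Jacobian of a monomial valuation
-/

set_option autoImplicit false

open scoped BigOperators nonZeroDivisors
open MvPolynomial KaehlerDifferential
open Pool.Agent.H26

namespace Pool.H32

universe u v

namespace RegCoord

variable {k : Type u} {L : Type v} [Field k] [Field L] [Algebra k L] {n : ℕ}
  (C : RegCoord k L n)

/-- the derivation `∑ c_j t_j ∂_j` -/
noncomputable def logDer (c : Fin n → L) : Derivation k L L := ∑ j, (c j * C.t j) • C.D j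

lemma logDer_apply (c : Fin n → L) (x : L) : C.logDer c x = ∑ j, c j * C.th j x := by
  have h : ∀ s : Finset (Fin n), (∑ j ∈ s, (c j * C.t j) • C.D j) x = ∑ j ∈ s, c j * C.th j x := by
    classical
    intro s
    induction s using Finset.induction_on with
    | empty => simp
    | insert a s ha ih =>
      rw [Finset.sum_insert ha, Finset.sum_insert ha, Derivation.add_apply, ih,
        Derivation.smul_apply, smul_eq_mul, th]
      ring
  exact h Finset.univ

lemma logDer_t (c : Fin n → L) (j : Fin n) : C.logDer c (C.t j) = c j * C.t j := by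
  classical
  rw [logDer_apply, Finset.sum_eq_single j]
  · rw [th, C.D_t, if_pos rfl, mul_one]
  · intro b _ hb
    rw [th, C.D_t, if_neg (Ne.symm hb), mul_zero, mul_zero]
  · intro h; exact absurd (Finset.mem_univ _) h

lemma mv_logDer [CharZero k] {w : Fin n → ℕ} (hw : ∀ i, 0 < w i) (c : Fin n → L)
    (hc : ∀ j, 0 ≤ C.mv w hw (c j)) (x : L) : C.mv w hw x ≤ C.mv w hw (C.logDer c x) := by
  rw [logDer_apply]
  refine (C.mv w hw).map_le_sum fun j _ => ?_
  rw [AddValuation.map_mul]
  calc C.mv w hw x = 0 + C.mv w hw x := by rw [zero_add]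
    _ ≤ _ := add_le_add (hc j) (C.mv_th hw j x)

lemma mv_int_ne_zero [CharZero k] {w : Fin n → ℕ} (hw : ∀ i, 0 < w i) {m : ℤ} (hm : m ≠ 0) :
    C.mv w hw (m : L) = 0 := by
  have : ((m : ℤ) : L) = algebraMap k L m := by simp
  rw [this]
  exact C.mv_const hw (by exact_mod_cast hm)

theorem mv_det_log [CharZero k] {m : ℕ} (C : RegCoord k L (m + 1)) {w : Fin (m + 1) → ℕ}
    (hw : ∀ i, 0 < w i) (ω : Module.Basis (Fin (m + 1)) L (Ω[L⁄k])) {s : L} (hs0 : s ≠ 0)
    (hs : C.mv w hw s ≠ 0) {u : Fin m → L} (hu : ResInd (C.mv w hw) k u) :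
    C.mv w hw (Matrix.det (Matrix.of fun i j => C.th j ((Fin.cons s u : Fin (m + 1) → L) i))) =
      C.mv w hw s := by
  classical
  set v := C.mv w hw with hv
  set z : Fin (m + 1) → L := Fin.cons s u with hz
  set e : Fin (m + 1) → L := Fin.cons s (fun _ => 1) with he
  set M' : Matrix (Fin (m + 1)) (Fin (m + 1)) L := Matrix.of fun i j => (e i)⁻¹ * C.th j (z i) with hM'
  have he0 : ∀ i, e i ≠ 0 := by
    intro i
    refine Fin.cases ?_ (fun i => ?_) i
    · exact hs0
    · exact one_ne_zero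
  have hdet : Matrix.det (Matrix.of fun i j => C.th j (z i)) = s * M'.det := by
    have h1 : (Matrix.of fun i j => C.th j (z i)) = Matrix.of fun i j => e i * M' i j := by
      ext i j
      rw [Matrix.of_apply, Matrix.of_apply, hM', Matrix.of_apply, mul_inv_cancel_left₀ (he0 i)]
    rw [h1, Matrix.det_mul_column, Fin.prod_univ_succ]
    simp [he]
  have hM'0 : ∀ i j, 0 ≤ v (M' i j) := by
    intro i j
    rw [hM', Matrix.of_apply]
    refine Fin.cases ?_ (fun i => ?_) i
    · have h1 : v s ≤ v (C.th j s) := C.mv_th hw j s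
      have h2 : v ((s)⁻¹ * C.th j s) + v s = v (C.th j s) := by
        rw [← v.map_mul]
        congr 1
        field_simp
      have h3 : 0 ≤ v ((s)⁻¹ * C.th j s) := by
        by_cases hx : (s)⁻¹ * C.th j s = 0
        · rw [hx, v.map_zero]; exact le_top
        · rw [eq_iv v hx, eq_iv v hs0] at h2
          rw [← h2, eq_iv v hs0] at h1
          have h4 : iv v s ≤ iv v ((s)⁻¹ * C.th j s) + iv v s := by exact_mod_cast h1
          rw [nonneg_iff v hx]
          omega
      exact h3
    · have h1 : v (u i) ≤ v (C.th j (u i)) := C.mv_th hw j _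
      have h2 : 0 ≤ v (C.th j (u i)) := le_trans (hu.1 i) h1
      change 0 ≤ v ((1 : L)⁻¹ * C.th j (u i))
      rw [inv_one, one_mul]
      exact h2
  have hM'd : v M'.det = 0 := by
    refine le_antisymm (not_lt.1 fun hpos => ?_) (det_nonneg_of v M' hM'0)
    obtain ⟨c, hc, ⟨j0, hj0⟩, hker⟩ := exists_kernel v M' hM'0 hpos
    set δ := C.logDer c with hδ
    have hδle : ∀ x, v x ≤ v (δ x) := C.mv_logDer hw c hc
    have hδu : ∀ i, 0 < v (δ (u i)) := by
      intro i
      have h1 := hker i.succ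
      have h2 : ∑ j, M' i.succ j * c j = δ (u i) := by
        rw [hδ, logDer_apply]
        refine Finset.sum_congr rfl fun j _ => ?_
        change (1 : L)⁻¹ * C.th j (u i) * c j = _
        rw [inv_one, one_mul, mul_comm]
      rwa [h2] at h1
    have hδs : 0 < v (s⁻¹ * δ s) := by
      have h1 := hker 0
      have h2 : ∑ j, M' 0 j * c j = s⁻¹ * δ s := by
        rw [hδ, logDer_apply, Finset.mul_sum]
        refine Finset.sum_congr rfl fun j _ => ?_
        change s⁻¹ * C.th j s * c j = _
        ring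
      rwa [h2] at h1
    have hvs : iv v s ≠ 0 := by
      intro h
      apply hs
      rw [eq_iv v hs0, h]; rfl
    -- test element
    set x : L := C.t j0 ^ (iv v s) * s ^ (-(w j0 : ℤ)) with hx
    have ht0 := C.t_ne_zero j0
    have hx0 : x ≠ 0 := mul_ne_zero (zpow_ne_zero _ ht0) (zpow_ne_zero _ hs0)
    have hivt : iv v (C.t j0) = w j0 := iv_eq_of v (C.mv_t hw j0)
    have hvx : iv v x = 0 := by
      rw [hx, iv_mul v (zpow_ne_zero _ ht0) (zpow_ne_zero _ hs0), iv_zpow v ht0, iv_zpow v hs0,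
        hivt]
      ring
    have hvx' : v x = 0 := by rw [eq_iv v hx0, hvx]; rfl
    have h3 := derivation_pos v rfl ω hu hs0 hs δ hδle hδu (z := x) (by rw [hvx'])
    have h4 : x⁻¹ * δ x = (iv v s : L) * c j0 - (w j0 : L) * (s⁻¹ * δ s) := by
      have h5 : δ x = C.t j0 ^ (iv v s) * ((-(w j0 : ℤ) : ℤ) : L) * (s ^ (-(w j0 : ℤ) - 1) * δ s) +
          s ^ (-(w j0 : ℤ)) * ((iv v s : ℤ) : L) * (C.t j0 ^ (iv v s - 1) * (c j0 * C.t j0)) := by
        rw [hx, Derivation.leibniz, Derivation.leibniz_zpow, Derivation.leibniz_zpow, hδ, C.logDer_t]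
        simp only [smul_eq_mul, zsmul_eq_mul]
        push_cast
        ring
      rw [h5, zpow_sub_one₀ hs0, zpow_sub_one₀ ht0, hx]
      have h6 : C.t j0 ^ (iv v s) ≠ 0 := zpow_ne_zero _ ht0
      have h7 : s ^ (-(w j0 : ℤ)) ≠ 0 := zpow_ne_zero _ hs0
      push_cast
      field_simp
      ring
    have h8 : 0 < v (x⁻¹ * δ x) := by
      have h9 : v (x⁻¹) = 0 := by
        rw [eq_iv v (inv_ne_zero hx0), iv_inv v hx0, hvx]; rfl
      rw [v.map_mul, h9, zero_add]
      exact h3
    have h10 : 0 < v ((iv v s : L) * c j0) := by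
      have h11 : (iv v s : L) * c j0 = x⁻¹ * δ x + (w j0 : L) * (s⁻¹ * δ s) := by rw [h4]; ring
      rw [h11]
      apply v.map_lt_add h8
      rw [v.map_mul]
      refine add_pos_nn ?_ hδs
      have := C.mv_nat_nonneg hw (w j0 : ℤ)
      exact_mod_cast this
    rw [v.map_mul, C.mv_int_ne_zero hw hvs, zero_add, hj0] at h10
    exact lt_irrefl _ h10
  rw [hdet, v.map_mul, hM'd, add_zero]

end RegCoord

end Pool.H32
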