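import Mathlib
import Pool.Agent.H32.LogDet

/-!
# Restricting discrete valuations to a subfield over which the extension is algebraic
-/

set_option autoImplicit false

open scoped BigOperators nonZeroDivisors
open MvPolynomial KaehlerDifferential
open Pool.Agent.H26

namespace Pool.H32

universe u v

section

variable {k : Type u} {K L : Type v} [Field k] [Field K] [Field L] [Algebra k K] [Algebra k L]
  [Algebra K L] [IsScalarTower k K L]

omit [Algebra k K] [Algebra k L] [IsScalarTower k K L] [Field k] in
/-- a valuation which is trivial on `K` is trivial on an algebraic extension -/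
lemma trivial_of_algebraic [Algebra.IsAlgebraic K L] (v : AddValuation L (WithTop ℤ))
    (h : ∀ f : K, f ≠ 0 → v (algebraMap K L f) = 0) (x : L) (hx0 : x ≠ 0) : ¬ 0 < v x := by
  classical
  intro hx
  obtain ⟨p, hp0, hp⟩ := Algebra.IsAlgebraic.isAlgebraic (R := K) x
  rw [Polynomial.aeval_def] at hp
  refine eval₂_ne_zero v (algebraMap K L) h hx0 (fun h0 => ?_) hp0 hp
  rw [h0] at hx
  exact lt_irrefl _ hx

/-- the normalised restriction of a valuation -/
theorem exists_restrict [Algebra.IsAlgebraic K L] (v : AddValuation L (WithTop ℤ))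
    (hk : ∀ c : k, c ≠ 0 → v (algebraMap k L c) = 0) (x : L) (hx0 : x ≠ 0) (hx : 0 < v x) :
    ∃ (r : ℕ) (E : DVal k K), 0 < r ∧ ∀ f : K, f ≠ 0 → iv v (algebraMap K L f) = r * E.val f := by
  classical
  have hinj : ∀ f : K, f ≠ 0 → algebraMap K L f ≠ 0 := fun f hf h =>
    hf ((algebraMap K L).injective (h.trans (map_zero _).symm))
  let S : AddSubgroup ℤ :=
    { carrier := {z | ∃ f : K, f ≠ 0 ∧ iv v (algebraMap K L f) = z}
      zero_mem' := ⟨1, one_ne_zero, by simp⟩
      add_mem' := by
        rintro a b ⟨f, hf, rfl⟩ ⟨g, hg, rfl⟩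
        exact ⟨f * g, mul_ne_zero hf hg, by rw [map_mul, iv_mul v (hinj f hf) (hinj g hg)]⟩
      neg_mem' := by
        rintro a ⟨f, hf, rfl⟩
        exact ⟨f⁻¹, inv_ne_zero hf, by rw [map_inv₀, iv_inv v (hinj f hf)]⟩ }
  obtain ⟨a, ha⟩ := Int.subgroup_cyclic S
  have hSa : ∀ z, z ∈ S ↔ a ∣ z := by
    intro z
    rw [ha, AddSubgroup.mem_closure_singleton]
    constructor
    · rintro ⟨m, rfl⟩
      exact ⟨m, by rw [smul_eq_mul, mul_comm]⟩
    · rintro ⟨m, rfl⟩
      exact ⟨m, by rw [smul_eq_mul, mul_comm]⟩
  set r : ℕ := a.natAbs with hr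
  have hSr : ∀ z, z ∈ S ↔ (r : ℤ) ∣ z := by
    intro z
    rw [hSa, hr, Int.natAbs_dvd]
  have hr0 : 0 < r := by
    rw [Nat.pos_iff_ne_zero]
    intro h0
    refine trivial_of_algebraic (K := K) v (fun f hf => ?_) x hx0 hx
    have h1 : iv v (algebraMap K L f) ∈ S := ⟨f, hf, rfl⟩
    rw [hSr, h0] at h1
    have h2 : iv v (algebraMap K L f) = 0 := by simpa using h1
    rw [eq_iv v (hinj f hf), h2]; rfl
  have hdvd : ∀ f : K, f ≠ 0 → iv v (algebraMap K L f) = r * (iv v (algebraMap K L f) / r) := by
    intro f hf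
    have h1 : iv v (algebraMap K L f) ∈ S := ⟨f, hf, rfl⟩
    rw [hSr] at h1
    exact (Int.mul_ediv_cancel' h1).symm
  let F : K → WithTop ℤ := fun f => if f = 0 then ⊤ else ((iv v (algebraMap K L f) / r : ℤ) : WithTop ℤ)
  have hF : ∀ f, f ≠ 0 → F f = ((iv v (algebraMap K L f) / r : ℤ) : WithTop ℤ) := fun f hf => if_neg hf
  have hF0 : F 0 = ⊤ := if_pos rfl
  have hr' : (0 : ℤ) < r := by exact_mod_cast hr0
  have hadd : ∀ x y : K, min (F x) (F y) ≤ F (x + y) := by
    intro x y
    by_cases hx : x = 0
    · subst hx; rw [zero_add]; exact min_le_right _ _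
    by_cases hy : y = 0
    · subst hy; rw [add_zero]; exact min_le_left _ _
    by_cases hxy : x + y = 0
    · rw [hxy, hF0]; exact le_top
    rw [hF _ hx, hF _ hy, hF _ hxy]
    have h1 := v.map_add (algebraMap K L x) (algebraMap K L y)
    rw [← map_add, eq_iv v (hinj _ hx), eq_iv v (hinj _ hy), eq_iv v (hinj _ hxy)] at h1
    have h2 : min (iv v (algebraMap K L x)) (iv v (algebraMap K L y)) ≤
        iv v (algebraMap K L (x + y)) := by exact_mod_cast h1
    have h3 : min (iv v (algebraMap K L x) / r) (iv v (algebraMap K L y) / r) ≤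
        iv v (algebraMap K L (x + y)) / (r : ℤ) := by
      rcases min_le_iff.1 h2 with h | h
      · exact min_le_iff.2 (Or.inl (Int.ediv_le_ediv hr' h))
      · exact min_le_iff.2 (Or.inr (Int.ediv_le_ediv hr' h))
    exact_mod_cast h3
  have hmul : ∀ x y : K, F (x * y) = F x + F y := by
    intro x y
    by_cases hx : x = 0
    · subst hx; rw [zero_mul, hF0, top_add]
    by_cases hy : y = 0
    · subst hy; rw [mul_zero, hF0, add_top]
    rw [hF _ hx, hF _ hy, hF _ (mul_ne_zero hx hy), map_mul, iv_mul v (hinj _ hx) (hinj _ hy)]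
    have h1 := hdvd x hx
    have h2 := hdvd y hy
    have h3 : (iv v (algebraMap K L x) + iv v (algebraMap K L y)) / (r : ℤ) =
        iv v (algebraMap K L x) / r + iv v (algebraMap K L y) / r := by
      apply Int.ediv_eq_of_eq_mul_right hr'.ne'
      rw [mul_add, ← h1, ← h2]
    rw [h3]; norm_cast
  have h1F : F 1 = 0 := by
    rw [hF _ one_ne_zero, map_one, iv_one]
    simp
  let E : DVal k K :=
    { ord := AddValuation.of F hF0 h1F hadd hmul
      ord_algebraMap := by
        intro c hc
        have hc' : algebraMap k K c ≠ 0 := fun h =>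
          hc ((algebraMap k K).injective (h.trans (map_zero _).symm))
        change F (algebraMap k K c) = 0
        rw [hF _ hc', ← IsScalarTower.algebraMap_apply, iv_eq_of v (z := 0) (hk c hc)]
        simp
      exists_ord_eq_one := by
        obtain ⟨f, hf, hfr⟩ : (r : ℤ) ∈ S := (hSr _).2 dvd_rfl
        refine ⟨f, ?_⟩
        change F f = 1
        rw [hF _ hf, hfr, Int.ediv_self hr'.ne']
        rfl }
  refine ⟨r, E, hr0, fun f hf => ?_⟩
  have h1 : E.val f = iv v (algebraMap K L f) / r := by
    have h2 : E.ord f = ((iv v (algebraMap K L f) / r : ℤ) : WithTop ℤ) := hF f hf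
    exact iv_eq_of E.ord h2
  rw [h1]
  exact hdvd f hf

/-- `k` maps to the valuation ring -/
noncomputable def kToVring (v : AddValuation L (WithTop ℤ)) (hk : ∀ c : k, 0 ≤ v (algebraMap k L c)) :
    k →+* vring v := (algebraMap k L).codRestrict (vring v) hk

/-- the valuation ring of the restriction maps to the valuation ring -/
noncomputable def vringMap (v : AddValuation L (WithTop ℤ)) (E : AddValuation K (WithTop ℤ)) {r : ℕ}
    (hr : ∀ f : K, f ≠ 0 → iv v (algebraMap K L f) = r * iv E f) : vring E →+* vring v :=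
  ((algebraMap K L).comp (vring E).subtype).codRestrict (vring v) (by
    intro x
    change 0 ≤ v (algebraMap K L (x : K))
    by_cases hx : (x : K) = 0
    · rw [hx, map_zero, v.map_zero]; exact le_top
    · have h1 : algebraMap K L (x : K) ≠ 0 := fun h =>
        hx ((algebraMap K L).injective (h.trans (map_zero _).symm))
      rw [nonneg_iff v h1, hr _ hx]
      have h2 : 0 ≤ iv E (x : K) := (nonneg_iff E hx).1 x.2
      positivity)

lemma vringMap_coe (v : AddValuation L (WithTop ℤ)) (E : AddValuation K (WithTop ℤ)) {r : ℕ}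
    (hr : ∀ f : K, f ≠ 0 → iv v (algebraMap K L f) = r * iv E f) (x : vring E) :
    ((vringMap v E hr x : vring v) : L) = algebraMap K L (x : K) := rfl

lemma isLocalHom_vringMap (v : AddValuation L (WithTop ℤ)) (E : AddValuation K (WithTop ℤ)) {r : ℕ}
    (hr0 : 0 < r) (hr : ∀ f : K, f ≠ 0 → iv v (algebraMap K L f) = r * iv E f) :
    IsLocalHom (vringMap v E hr) := by
  refine ⟨fun x hx => ?_⟩
  by_contra hcon
  have h1 : IsLocalRing.residue (vring E) x = 0 := by
    rw [IsLocalRing.residue_eq_zero_iff, IsLocalRing.mem_maximalIdeal]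
    exact hcon
  rw [residue_eq_zero_iff] at h1
  have h2 : IsLocalRing.residue (vring v) (vringMap v E hr x) = 0 := by
    rw [residue_eq_zero_iff, vringMap_coe]
    by_cases hx0 : (x : K) = 0
    · rw [hx0, map_zero, v.map_zero]; exact WithTop.coe_lt_top 0
    · have h3 : algebraMap K L (x : K) ≠ 0 := fun h =>
        hx0 ((algebraMap K L).injective (h.trans (map_zero _).symm))
      rw [pos_iff v h3, hr _ hx0]
      have h4 := (pos_iff E hx0).1 h1
      positivity
  rw [IsLocalRing.residue_eq_zero_iff, IsLocalRing.mem_maximalIdeal] at h2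
  exact h2 hx

/-- if `v` has residue transcendence degree at least `m` then so has its restriction -/
theorem exists_resInd_restrict [Algebra.IsAlgebraic K L] (v : AddValuation L (WithTop ℤ))
    (hk : ∀ c : k, c ≠ 0 → v (algebraMap k L c) = 0) {r : ℕ} (hr0 : 0 < r) (E : DVal k K)
    (hr : ∀ f : K, f ≠ 0 → iv v (algebraMap K L f) = r * E.val f) {m : ℕ} {u : Fin m → L}
    (hu : ResInd v k u) : ∃ y : Fin m → K, ResInd E.ord k y := by
  classical
  have hk' : ∀ c : k, 0 ≤ v (algebraMap k L c) := by
    intro c
    by_cases hc : c = 0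
    · subst hc; simp
    · rw [hk c hc]
  have hkE : ∀ c : k, 0 ≤ E.ord (algebraMap k K c) := fun c => E.ord_algebraMap_nonneg c
  have hr' : ∀ f : K, f ≠ 0 → iv v (algebraMap K L f) = r * iv E.ord f := hr
  let _ : Algebra k (vring v) := (kToVring v hk').toAlgebra
  let _ : Algebra k (vring E.ord) := (kToVring E.ord hkE).toAlgebra
  have := isLocalHom_vringMap v E.ord hr0 hr'
  let ψ : vring E.ord →+* vring v := vringMap v E.ord hr'
  let κE := IsLocalRing.ResidueField (vring E.ord)
  let κv := IsLocalRing.ResidueField (vring v)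
  let _ : Algebra κE κv := (IsLocalRing.ResidueField.map ψ).toAlgebra
  have hmap : ∀ x : vring E.ord, algebraMap κE κv (IsLocalRing.residue _ x) =
      IsLocalRing.residue _ (ψ x) := fun x => IsLocalRing.ResidueField.map_residue ψ x
  have hkE' : ∀ c : k, algebraMap k κE c = IsLocalRing.residue _ (algebraMap k (vring E.ord) c) :=
    fun c => rfl
  have hkv' : ∀ c : k, algebraMap k κv c = IsLocalRing.residue _ (algebraMap k (vring v) c) :=
    fun c => rfl
  have : IsScalarTower k κE κv := by
    refine IsScalarTower.of_algebraMap_eq fun c => ?_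
    rw [hkE', hmap, hkv']
    congr 1
    apply Subtype.ext
    rw [vringMap_coe]
    exact IsScalarTower.algebraMap_apply k K L c
  -- algebraicity
  have : Algebra.IsAlgebraic κE κv := by
    refine ⟨fun y => ?_⟩
    obtain ⟨z, rfl⟩ := IsLocalRing.residue_surjective y
    obtain ⟨p, hp0, hp⟩ := Algebra.IsAlgebraic.isAlgebraic (R := K) (z : L)
    have hne : p.support.Nonempty := Polynomial.support_nonempty.2 hp0
    obtain ⟨j0, hj0, hmin⟩ := p.support.exists_min_image (fun j => E.val (p.coeff j)) hne
    have hj0' := Polynomial.mem_support_iff.1 hj0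
    set q : Polynomial K := Polynomial.C (p.coeff j0)⁻¹ * p with hq
    have hqc : ∀ j, q.coeff j = (p.coeff j0)⁻¹ * p.coeff j := fun j => Polynomial.coeff_C_mul _
    have hqE : ∀ j, 0 ≤ E.ord (q.coeff j) := by
      intro j
      rw [hqc]
      by_cases hj : p.coeff j = 0
      · rw [hj, mul_zero]; simp
      · rw [nonneg_iff E.ord (mul_ne_zero (inv_ne_zero hj0') hj), iv_mul E.ord (inv_ne_zero hj0') hj,
          iv_inv E.ord hj0']
        have := hmin j (Polynomial.mem_support_iff.2 hj)
        change E.val _ ≤ E.val _ at this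
        change 0 ≤ - E.val _ + E.val _
        omega
    have hlift : q ∈ Polynomial.lifts (vring E.ord).subtype := by
      rw [Polynomial.lifts_iff_coeff_lifts]
      intro j
      exact ⟨⟨q.coeff j, hqE j⟩, rfl⟩
    obtain ⟨q', hq'⟩ := (Polynomial.mem_lifts q).1 hlift
    have hq'c : ∀ j, ((q'.coeff j : vring E.ord) : K) = q.coeff j := by
      intro j
      rw [← hq', Polynomial.coeff_map]; rfl
    refine ⟨q'.map (IsLocalRing.residue (vring E.ord)), ?_, ?_⟩
    · intro h
      have h1 := congrArg (fun f => Polynomial.coeff f j0) h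
      simp only [Polynomial.coeff_map, Polynomial.coeff_zero] at h1
      have h2 : q'.coeff j0 = 1 := by
        apply Subtype.ext
        rw [hq'c, hqc, inv_mul_cancel₀ hj0']
        rfl
      rw [h2, map_one] at h1
      exact one_ne_zero h1
    · rw [Polynomial.aeval_def, Polynomial.eval₂_map]
      have h1 : (algebraMap κE κv).comp (IsLocalRing.residue (vring E.ord)) =
          (IsLocalRing.residue (vring v)).comp ψ := by
        ext x; exact hmap x
      rw [h1, ← Polynomial.hom_eval₂]
      have h2 : q'.eval₂ ψ z = 0 := by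
        apply Subtype.ext
        have h3 := Polynomial.hom_eval₂ q' ψ (vring v).subtype z
        change (vring v).subtype (q'.eval₂ ψ z) = 0
        rw [h3]
        have h4 : (vring v).subtype.comp ψ = (algebraMap K L).comp (vring E.ord).subtype := by
          ext x; rfl
        rw [h4, ← Polynomial.eval₂_map, hq', hq, Polynomial.eval₂_mul]
        have h5 : p.eval₂ (algebraMap K L) ((vring v).subtype z) = 0 := hp
        rw [h5, mul_zero]
      rw [h2, map_zero]
  -- transcendence degrees
  have hind : AlgebraicIndependent k (fun i => IsLocalRing.residue (vring v) ⟨u i, hu.1 i⟩ : Fin m → κv) := by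
    rw [algebraicIndependent_iff]
    intro P hP
    by_contra hP0
    have h1 : aeval (fun i => IsLocalRing.residue (vring v) ⟨u i, hu.1 i⟩ : Fin m → κv) P =
        IsLocalRing.residue (vring v) (aeval (fun i => (⟨u i, hu.1 i⟩ : vring v)) P) := by
      have h2 := MvPolynomial.map_aeval (fun i => (⟨u i, hu.1 i⟩ : vring v))
        (IsLocalRing.residue (vring v)) P
      rw [h2]
      rfl
    rw [h1, residue_eq_zero_iff] at hP
    have h3 : ((aeval (fun i => (⟨u i, hu.1 i⟩ : vring v)) P : vring v) : L) = aeval u P := by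
      have h2 := MvPolynomial.map_aeval (fun i => (⟨u i, hu.1 i⟩ : vring v))
        (vring v).subtype P
      exact h2
    rw [h3, hu.2 P hP0] at hP
    exact lt_irrefl _ hP
  have htr : (m : Cardinal) ≤ Algebra.trdeg k κE := by
    have h1 := hind.lift_cardinalMk_le_trdeg
    have h2 := _root_.trdeg_add_eq k κE (A := κv)
    rw [_root_.trdeg_eq_zero (R := κE) (A := κv), add_zero] at h2
    rw [← h2] at h1
    simpa using h1
  obtain ⟨T, hT⟩ := exists_isTranscendenceBasis k κE
  rw [← hT.cardinalMk_eq_trdeg] at htr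
  obtain ⟨f⟩ : Nonempty (Fin m ↪ T) := by
    rw [← Cardinal.lift_mk_le']
    simpa using htr
  have hindE : AlgebraicIndependent k (fun i => (f i : κE)) := hT.1.comp f f.injective
  choose y hy using fun i => IsLocalRing.residue_surjective (R := vring E.ord) (f i : κE)
  refine ⟨fun i => (y i : K), fun i => (y i).2, fun P hP0 => ?_⟩
  have h1 : aeval (fun i => (f i : κE)) P =
      IsLocalRing.residue (vring E.ord) (aeval y P) := by
    have h2 := MvPolynomial.map_aeval y (IsLocalRing.residue (vring E.ord)) P
    rw [h2]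
    have h3 : (fun i => (f i : κE)) = fun i => IsLocalRing.residue (vring E.ord) (y i) := by
      funext i; exact (hy i).symm
    rw [h3]
    rfl
  have h4 : ((aeval y P : vring E.ord) : K) = aeval (fun i => (y i : K)) P := by
    have h2 := MvPolynomial.map_aeval y (vring E.ord).subtype P
    exact h2
  refine le_antisymm (not_lt.1 fun hpos => ?_) ?_
  · rw [← h4, ← residue_eq_zero_iff, ← h1] at hpos
    exact hP0 ((algebraicIndependent_iff.1 hindE) P hpos)
  · rw [← h4]; exact (aeval y P : vring E.ord).2

end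

end Pool.H32
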