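import Mathlib
import Pool.Agent.H32.Restrict
import Pool.Agent.H32.OrbDefs

/-!
# Log discrepancies of restrictions of monomial valuations
-/

set_option autoImplicit false

open scoped BigOperators nonZeroDivisors
open MvPolynomial KaehlerDifferential
open Pool.Agent.H26

namespace Pool.H32

universe u v

section

variable {k : Type u} {K L : Type v} [Field k] [Field K] [Field L] [Algebra k K] [Algebra k L]
  [Algebra K L] [IsScalarTower k K L] {n : ℕ}

/-- determinants with respect to the pull back of a basis -/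
lemma det_pullback (ω : Module.Basis (Fin n) K (Ω[K⁄k])) (ωL : Module.Basis (Fin n) L (Ω[L⁄k]))
    (hω : ∀ i, ωL i = KaehlerDifferential.map k k K L (ω i)) (y : Fin n → K) :
    ωL.det (fun i => D k L (algebraMap K L (y i))) =
      algebraMap K L (ω.det fun i => D k K (y i)) := by
  classical
  have h1 : ∀ x : K, D k L (algebraMap K L x) =
      ∑ i, algebraMap K L (ω.repr (D k K x) i) • ωL i := by
    intro x
    have h2 := congrArg (KaehlerDifferential.map k k K L) (ω.sum_repr (D k K x))
    rw [KaehlerDifferential.map_D, map_sum] at h2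
    rw [← h2]
    refine Finset.sum_congr rfl fun i _ => ?_
    rw [map_smul, hω, algebraMap_smul]
  rw [Module.Basis.det_apply, Module.Basis.det_apply, RingHom.map_det]
  congr 1
  ext i j
  rw [Module.Basis.toMatrix_apply, RingHom.mapMatrix_apply, Matrix.map_apply,
    Module.Basis.toMatrix_apply, h1, map_sum, Finsupp.finsetSum_apply, Finset.sum_eq_single i]
  · rw [map_smul, Module.Basis.repr_self, Finsupp.smul_apply, Finsupp.single_eq_same, smul_eq_mul,
      mul_one]
  · intro b _ hb
    rw [map_smul, Module.Basis.repr_self, Finsupp.smul_apply, Finsupp.single_apply, if_neg hb,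
      smul_zero]
  · intro h; exact absurd (Finset.mem_univ _) h

variable {B : Subalgebra k L} [IsFractionRing B L] {𝔪 : Ideal B} [𝔪.IsMaximal]

lemma det_th_eq [IsAlgClosed k] (hfg : B.FG) {t : Fin n → B}
    (ht : IsParam B 𝔪 t) (ωL : Module.Basis (Fin n) L (Ω[L⁄k])) (y : Fin n → L) :
    Matrix.det (Matrix.of fun i j => (regCoord hfg ht ωL).th j (y i)) =
      (∏ l, (t l : L)) * (dtBasis hfg ht ωL).det (fun i => D k L (y i)) := by
  rw [det_dt, ← Matrix.det_mul_row]
  rfl

/-- the order of a rational top form along the restriction of a monomial valuation -/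
theorem formOrd_restrict [IsAlgClosed k] [CharZero k] (hfg : B.FG) {t : Fin n → B}
    (ht : IsParam B 𝔪 t) (ω : Module.Basis (Fin n) K (Ω[K⁄k]))
    (ωL : Module.Basis (Fin n) L (Ω[L⁄k]))
    (hω : ∀ i, ωL i = KaehlerDifferential.map k k K L (ω i)) {w : Fin n → ℕ} (hw : ∀ l, 0 < w l)
    {r : ℕ} (hr0 : 0 < r) (E : DVal k K)
    (hr : ∀ f : K, f ≠ 0 → iv ((regCoord hfg ht ωL).mv w hw) (algebraMap K L f) = r * E.val f)
    (hE : E.IsDivisorial n) :
    ∃ e : ℤ, E.FormOrd ω e ∧ r * (e + 1) =
      ∑ l, (w l : ℤ) + iv ((regCoord hfg ht ωL).mv w hw) ((dtBasis hfg ht ωL).det ωL) := by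
  classical
  obtain ⟨m, y, hmn, hy, hyP⟩ := hE
  subst hmn
  set C := regCoord hfg ht ωL with hC
  set v := C.mv w hw with hv
  set dt := dtBasis hfg ht ωL with hdt
  have hinj : ∀ f : K, f ≠ 0 → algebraMap K L f ≠ 0 := fun f hf h =>
    hf ((algebraMap K L).injective (h.trans (map_zero _).symm))
  have hδ0 : dt.det ωL ≠ 0 := det_ne_zero dt ωL
  have ht0 : ∀ l, (t l : L) ≠ 0 := fun l => C.t_ne_zero l
  have hprod0 : (∏ l, (t l : L)) ≠ 0 := Finset.prod_ne_zero_iff.2 fun l _ => ht0 l
  have hprod : iv v (∏ l, (t l : L)) = ∑ l, (w l : ℤ) := by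
    rw [iv_prod v _ _ fun l _ => ht0 l]
    refine Finset.sum_congr rfl fun l _ => ?_
    exact iv_eq_of v (C.mv_t hw l)
  have key : ∀ z : Fin (m + 1) → K,
      Matrix.det (Matrix.of fun i j => C.th j (algebraMap K L (z i))) =
        (∏ l, (t l : L)) * (dt.det ωL * algebraMap K L (ω.det fun i => D k K (z i))) := by
    intro z
    have h1 := det_th_eq hfg ht ωL (fun i => algebraMap K L (z i))
    rw [← hC] at h1
    rw [h1, ← hdt, det_change dt ωL, det_pullback ω ωL hω]
  have key2 : ∀ z : Fin (m + 1) → K, (ω.det fun i => D k K (z i)) ≠ 0 →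
      iv v (Matrix.det (Matrix.of fun i j => C.th j (algebraMap K L (z i)))) =
        ∑ l, (w l : ℤ) + iv v (dt.det ωL) + r * E.val (ω.det fun i => D k K (z i)) := by
    intro z hz
    rw [key, iv_mul v hprod0 (mul_ne_zero hδ0 (hinj _ hz)), iv_mul v hδ0 (hinj _ hz), hprod, hr _ hz]
    ring
  -- the uniformiser and residually independent elements
  obtain ⟨s, hs⟩ := E.exists_ord_eq_one
  have hs1 := (E.ord_eq_iff (z := 1)).1 (by exact_mod_cast hs)
  obtain ⟨hs0, hsv⟩ := hs1
  have hvs : v (algebraMap K L s) = ((r : ℤ) : WithTop ℤ) := by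
    rw [eq_iv v (hinj s hs0), hr s hs0, hsv, mul_one]
  have hvs0 : v (algebraMap K L s) ≠ 0 := by
    rw [hvs]
    intro h
    have : (r : ℤ) = 0 := by exact_mod_cast h
    omega
  have hu : ResInd v k (fun i => algebraMap K L (y i)) := by
    refine ⟨fun i => ?_, fun P hP => ?_⟩
    · change 0 ≤ v (algebraMap K L (y i))
      by_cases h0 : y i = 0
      · rw [h0, map_zero, v.map_zero]; exact le_top
      · rw [nonneg_iff v (hinj _ h0), hr _ h0]
        have h1 := (E.nonneg_ord_iff.1 (hy i)).resolve_left h0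
        positivity
    · have h1 := E.ord_eq_zero_iff.1 (hyP P hP)
      have h2 : aeval (fun i => algebraMap K L (y i)) P = algebraMap K L (aeval y P) :=
        (aeval_algebraMap_apply L y P)
      rw [h2, eq_iv v (hinj _ h1.1), hr _ h1.1, h1.2, mul_zero]
      rfl
  have hdet := C.mv_det_log hw ωL (hinj s hs0) hvs0 hu
  have hcons : (Fin.cons (algebraMap K L s) (fun i => algebraMap K L (y i)) : Fin (m + 1) → L) =
      fun i => algebraMap K L ((Fin.cons s y : Fin (m + 1) → K) i) := by
    funext i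
    refine Fin.cases ?_ (fun i => ?_) i
    · rfl
    · rfl
  rw [hcons] at hdet
  set z0 : Fin (m + 1) → K := Fin.cons s y with hz0
  have hz00 : (ω.det fun i => D k K (z0 i)) ≠ 0 := by
    intro h
    rw [key, h, map_zero, mul_zero, mul_zero, ← hv, v.map_zero, hvs] at hdet
    exact WithTop.top_ne_coe hdet
  have hval0 := key2 z0 hz00
  rw [iv_eq_of v (hdet.trans hvs)] at hval0
  have hr0' : (0 : ℤ) < r := by exact_mod_cast hr0
  refine ⟨-E.val (ω.det fun i => D k K (z0 i)), ⟨fun z hz => ?_, z0, ?_, ?_⟩, ?_⟩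
  · rw [E.le_ord_iff]
    by_cases hzero : (ω.det fun i => D k K (z i)) = 0
    · left; exact hzero
    right
    have h1 := C.mv_det_pos hw 0 (fun i => algebraMap K L (z i)) (by
      intro i
      by_cases h0 : z i = 0
      · rw [h0, map_zero, v.map_zero]; exact le_top
      · rw [nonneg_iff _ (hinj _ h0), hr _ h0]
        have h1 := (E.nonneg_ord_iff.1 (hz i)).resolve_left h0
        positivity)
    have h2 : Matrix.det (Matrix.of fun i j => C.th j (algebraMap K L (z i))) ≠ 0 := by
      rw [key]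
      exact mul_ne_zero hprod0 (mul_ne_zero hδ0 (hinj _ hzero))
    rw [← hv, eq_iv v h2, key2 z hzero] at h1
    have h3 : (1 : ℤ) ≤ ∑ l, (w l : ℤ) + iv v (dt.det ωL) +
        r * E.val (ω.det fun i => D k K (z i)) := by exact_mod_cast h1
    have h4 : (0 : ℤ) < r * (1 + E.val (ω.det fun i => D k K (z i)) -
        E.val (ω.det fun i => D k K (z0 i))) := by
      nlinarith
    have h5 := (pos_iff_pos_of_mul_pos h4).1 hr0'
    omega
  · intro i
    refine Fin.cases ?_ (fun i => ?_) i
    · change 0 ≤ E.ord s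
      rw [hs]; exact zero_le_one
    · exact hy i
  · rw [neg_neg, E.ord_eq_val hz00]
  · rw [mul_add, mul_neg]
    linarith

end

end Pool.H32
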