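import Mathlib
import Pool.Agent.H32.LogDisc

/-!
# Weighted blow-ups in crepant charts
-/

set_option autoImplicit false

open scoped BigOperators nonZeroDivisors
open MvPolynomial KaehlerDifferential
open Pool.Agent.H26

namespace Pool.H32

universe u v

section filtration

variable {k : Type u} {L : Type v} [Field k] [Field L] [Algebra k L] {n : ℕ}
variable {B : Subalgebra k L} [IsFractionRing B L] {𝔪 : Ideal B} [𝔪.IsMaximal]

lemma mono_eq_prod [IsAlgClosed k] (hfg : B.FG) {t : Fin n → B}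
    (ht : IsParam B 𝔪 t) (ω : Module.Basis (Fin n) L (Ω[L⁄k])) (d : Fin n → ℕ) :
    ((∏ i, t i ^ d i : B) : L) = (regCoord hfg ht ω).mono (Finsupp.equivFunOnFinite.symm d) := by
  rw [RegCoord.mono]
  simp only [Finsupp.coe_equivFunOnFinite_symm]
  rw [SubmonoidClass.coe_finsetProd]
  rfl

lemma weight_eq_sum (w d : Fin n → ℕ) :
    Finsupp.weight w (Finsupp.equivFunOnFinite.symm d) = ∑ i, w i * d i := by
  rw [Finsupp.weight_apply, Finsupp.sum_fintype]
  · refine Finset.sum_congr rfl fun i _ => ?_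
    simp [mul_comm]
  · intro i; simp

/-- the weight filtration of the local ring is the localisation of the weight ideals -/
lemma mem_Fil_iff [IsAlgClosed k] (hfg : B.FG) {t : Fin n → B}
    (ht : IsParam B 𝔪 t) (ω : Module.Basis (Fin n) L (Ω[L⁄k])) (w : Fin n → ℕ) (c : ℕ) (x : B) :
    (x : L) ∈ (regCoord hfg ht ω).Fil w c ↔ ∃ s : B, s ∉ 𝔪 ∧ s * x ∈ weightIdeal B t w c := by
  classical
  set C := regCoord hfg ht ω with hC
  constructor
  · intro hx
    have key : ∀ y : L, y ∈ C.Fil w c → ∃ s z : B, s ∉ 𝔪 ∧ z ∈ weightIdeal B t w c ∧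
        (s : L) * y = z := by
      intro y hy
      have h1 : (1 : B) ∉ 𝔪 := (Ideal.ne_top_iff_one _).1 (Ideal.IsPrime.ne_top inferInstance)
      induction hy using Submodule.span_induction with
      | mem y h =>
        obtain ⟨d, hd, rfl⟩ := h
        refine ⟨1, ∏ i, t i ^ d i, h1, Ideal.subset_span ⟨d, ?_, rfl⟩, ?_⟩
        · rw [← weight_eq_sum]
          convert hd
          ext; simp
        · rw [mono_eq_prod hfg ht ω, ← hC]
          simp
      | zero => exact ⟨1, 0, h1, Ideal.zero_mem _, by simp⟩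
      | add y z _ _ h2 h3 =>
        obtain ⟨s, a, hs, ha, e1⟩ := h2
        obtain ⟨s', a', hs', ha', e2⟩ := h3
        refine ⟨s * s', s' * a + s * a', fun h => ?_, ?_, ?_⟩
        · rcases Ideal.IsPrime.mem_or_mem inferInstance h with h | h
          · exact hs h
          · exact hs' h
        · exact Ideal.add_mem _ (Ideal.mul_mem_left _ _ ha) (Ideal.mul_mem_left _ _ ha')
        · push_cast
          rw [← e1, ← e2]; ring
      | smul b y _ h2 =>
        obtain ⟨s, a, hs, ha, e1⟩ := h2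
        obtain ⟨a', s', hs', e2⟩ := mem_locAt_iff.1 b.2
        refine ⟨s * s', a' * a, fun h => ?_, Ideal.mul_mem_left _ _ ha, ?_⟩
        · rcases Ideal.IsPrime.mem_or_mem inferInstance h with h | h
          · exact hs h
          · exact hs' h
        · push_cast
          rw [← e1, ← e2]
          change (s : L) * s' * ((b : L) * y) = _
          ring
    obtain ⟨s, z, hs, hz, e⟩ := key x hx
    refine ⟨s, hs, ?_⟩
    have : s * x = z := Subtype.ext e
    rw [this]; exact hz
  · rintro ⟨s, hs, hsx⟩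
    have h1 : ∀ y ∈ weightIdeal B t w c, (y : L) ∈ C.Fil w c := by
      intro y hy
      induction hy using Submodule.span_induction with
      | mem y h =>
        obtain ⟨d, hd, rfl⟩ := h
        rw [mono_eq_prod hfg ht ω]
        exact C.mono_mem_Fil (by rw [weight_eq_sum]; exact hd)
      | zero => exact Submodule.zero_mem _
      | add y z _ _ h2 h3 => exact Submodule.add_mem _ h2 h3
      | smul b y _ h2 => exact C.mul_mem_Fil_left (le_locAt b.2) h2
    have h2 := C.mul_mem_Fil_left (b := (s : L)⁻¹) (inv_mem_locAt hs) (h1 _ hsx)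
    have hs0 : (s : L) ≠ 0 := by
      intro h
      have : s = 0 := Subtype.ext h
      exact hs (this ▸ 𝔪.zero_mem)
    have h3 : (s : L)⁻¹ * ((s * x : B) : L) = x := by
      push_cast
      field_simp
    rwa [h3] at h2

end filtration

section resind

variable {k : Type u} {L : Type v} [Field k] [Field L] [Algebra k L]

/-- residually independent Laurent monomials of weight zero -/
lemma exists_resInd_mv [CharZero k] {m : ℕ} (C : RegCoord k L (m + 1)) {w : Fin (m + 1) → ℕ}
    (hw : ∀ i, 0 < w i) : ∃ u : Fin m → L, ResInd (C.mv w hw) k u := by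
  classical
  let f : Fin m → Fin (m + 1) → ℤ := fun i => Fin.cons (-(w i.succ : ℤ)) (Pi.single i (w 0 : ℤ))
  have hf0 : ∀ i, ∑ l, (w l : ℤ) * f i l = 0 := by
    intro i
    rw [Fin.sum_univ_succ]
    have h1 : f i 0 = -(w i.succ : ℤ) := rfl
    have h2 : ∀ l : Fin m, f i l.succ = (Pi.single i (w 0 : ℤ) : Fin m → ℤ) l := fun l => rfl
    simp_rw [h1, h2]
    rw [Finset.sum_eq_single i]
    · rw [Pi.single_eq_same]; ring
    · intro b _ hb
      rw [Pi.single_eq_of_ne hb, mul_zero]
    · intro h; exact absurd (Finset.mem_univ _) h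
  let F : (Fin m →₀ ℕ) → Fin (m + 1) → ℤ := fun d => ∑ i, (d i) • f i
  have hF : ∀ (d : Fin m →₀ ℕ) (l : Fin m), F d l.succ = (d l : ℤ) * w 0 := by
    intro d l
    simp only [F]
    rw [Finset.sum_apply, Finset.sum_eq_single l]
    · change d l • (Pi.single l (w 0 : ℤ) : Fin m → ℤ) l = _
      rw [Pi.single_eq_same, nsmul_eq_mul]
    · intro b _ hb
      change d b • (Pi.single b (w 0 : ℤ) : Fin m → ℤ) l = 0
      rw [Pi.single_eq_of_ne (Ne.symm hb), smul_zero]
    · intro h; exact absurd (Finset.mem_univ _) h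
  have hFinj : Function.Injective F := by
    intro d d' h
    ext l
    have h1 := congrFun h l.succ
    rw [hF, hF] at h1
    have h2 : (w 0 : ℤ) ≠ 0 := by
      have := hw 0
      exact_mod_cast this.ne'
    have h3 := mul_right_cancel₀ h2 h1
    exact_mod_cast h3
  have hFw : ∀ d, ∑ l, (w l : ℤ) * F d l = 0 := by
    intro d
    simp only [F]
    simp_rw [Finset.sum_apply, Finset.mul_sum]
    rw [Finset.sum_comm]
    refine Finset.sum_eq_zero fun i _ => ?_
    have h1 : ∀ l, (w l : ℤ) * (d i • f i) l = (d i : ℤ) * ((w l : ℤ) * f i l) := by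
      intro l
      rw [Pi.smul_apply, nsmul_eq_mul]; ring
    simp_rw [h1]
    rw [← Finset.mul_sum, hf0, mul_zero]
  have haeval : ∀ P : MvPolynomial (Fin m) k, aeval (fun i => C.zmono (f i)) P =
      ∑ d ∈ P.support, algebraMap k L (P.coeff d) * C.zmono (F d) := by
    intro P
    rw [MvPolynomial.aeval_def, MvPolynomial.eval₂_eq]
    refine Finset.sum_congr rfl fun d _ => ?_
    congr 1
    simp only [F]
    rw [C.zmono_sum]
    have h1 : ∀ i, C.zmono (d i • f i) = C.zmono (f i) ^ d i := fun i => C.zmono_nsmul _ _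
    simp_rw [h1]
    exact Finset.prod_subset (Finset.subset_univ _) (by
      intro i _ hi
      rw [Finsupp.notMem_support_iff.1 hi, pow_zero])
  refine ⟨fun i => C.zmono (f i), fun i => ?_, fun P hP => ?_⟩
  · rw [C.mv_zmono hw, hf0]; exact le_rfl
  · rw [haeval]
    have h1 := C.mv_sum_zmono hw P.support F (hFinj.injOn) (fun d => P.coeff d) 0
      (fun d _ => hFw d) ?_
    · exact h1
    · obtain ⟨d, hd⟩ := MvPolynomial.support_nonempty.2 hP
      exact ⟨d, hd, MvPolynomial.mem_support_iff.1 hd⟩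

end resind

namespace CrepantChart

variable {k : Type u} {K : Type v} [Field k] [IsAlgClosed k] [CharZero k] [Field K] [Algebra k K]
  {n : ℕ} {G : LogGerm k K n} {L : Type v} [Field L] [Algebra k L] [Algebra K L]
  [IsScalarTower k K L] (C : CrepantChart G L)

/-- the regular coordinates of the chart -/
noncomputable def rc : RegCoord k L n := regCoord C.fg C.isParam C.ω

/-- the monomial valuations of the chart -/
noncomputable def mval (w : Fin n → ℕ) (hw : ∀ l, 0 < w l) : AddValuation L (WithTop ℤ) :=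
  C.rc.mv w hw

lemma mval_nonneg {w : Fin n → ℕ} (hw : ∀ l, 0 < w l) {x : L} (hx : x ∈ locAt C.B C.pt) :
    0 ≤ C.mval w hw x := C.rc.mv_nonneg hw hx

lemma mval_const {w : Fin n → ℕ} (hw : ∀ l, 0 < w l) {c : k} (hc : c ≠ 0) :
    C.mval w hw (algebraMap k L c) = 0 := C.rc.mv_const hw hc

lemma mval_t {w : Fin n → ℕ} (hw : ∀ l, 0 < w l) (l : Fin n) :
    C.mval w hw (C.t l) = ((w l : ℤ) : WithTop ℤ) := C.rc.mv_t hw l

omit [IsAlgClosed k] [CharZero k] in
lemma isNoetherianRing : IsNoetherianRing C.B := by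
  have : Algebra.FiniteType k C.B := (Subalgebra.fg_iff_finiteType C.B).1 C.fg
  exact Algebra.FiniteType.isNoetherianRing k C.B

omit [IsAlgClosed k] [CharZero k] in
lemma g_ne_zero' (j : C.α) : (C.g j : L) ≠ 0 := fun h => C.g_ne_zero j (Subtype.ext h)

lemma t_ne_zero (l : Fin n) : (C.t l : L) ≠ 0 := C.rc.t_ne_zero l

omit [IsAlgClosed k] [CharZero k] in
lemma algebraMap_ne_zero {f : K} (hf : f ≠ 0) : algebraMap K L f ≠ 0 := fun h =>
  hf ((algebraMap K L).injective (h.trans (map_zero _).symm))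

/-- the log discrepancy of the (unnormalised) monomial valuation with weights `w` -/
noncomputable def ld (w : Fin n → ℕ) (hw : ∀ l, 0 < w l) : ℝ :=
  ∑ l, (1 - C.c l) * w l - ∑ j, C.d j * (iv (C.mval w hw) (C.g j : L) : ℝ)

/-- transfer of the crepant relation to monomial valuations -/
lemma crepant_mval {w : Fin n → ℕ} (hw : ∀ l, 0 < w l) :
    ∑ i, G.r i * (iv (C.mval w hw) (algebraMap K L (G.s i)) : ℝ) =
      (iv (C.mval w hw) ((dtBasis C.fg C.isParam C.ω).det C.ω) : ℝ) +
      (∑ l, C.c l * (w l : ℝ) + ∑ j, C.d j * (iv (C.mval w hw) (C.g j : L) : ℝ)) := by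
  classical
  have := C.isNoetherianRing
  set dt := dtBasis C.fg C.isParam C.ω with hdt
  set v := C.mval w hw with hv
  have hδ0 : dt.det C.ω ≠ 0 := det_ne_zero dt C.ω
  let co : (G.ι ⊕ (Fin n ⊕ (C.α ⊕ Unit))) → ℝ :=
    Sum.elim G.r (Sum.elim (fun l => -C.c l) (Sum.elim (fun j => -C.d j) (fun _ => -1)))
  let x : (G.ι ⊕ (Fin n ⊕ (C.α ⊕ Unit))) → L :=
    Sum.elim (fun i => algebraMap K L (G.s i)) (Sum.elim (fun l => (C.t l : L))
      (Sum.elim (fun j => (C.g j : L)) (fun _ => dt.det C.ω)))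
  have hx : ∀ i, x i ≠ 0 := by
    rintro (i | l | j | _)
    · exact algebraMap_ne_zero (G.s_ne_zero i)
    · exact C.t_ne_zero l
    · exact C.g_ne_zero' j
    · exact hδ0
  have h1 := transfer (B := C.B) (𝔪 := C.pt) co x hx (by
    intro V hV
    obtain ⟨e, he, hsum⟩ := C.crepant V hV
    have h2 := formOrd_dt C.fg C.isParam C.ω V hV
    rw [← hdt] at h2
    have h3 := FormOrd_change V dt C.ω h2
    have h4 := FormOrd_unique V C.ω he h3
    rw [zero_add] at h4
    simp only [co, x, Fintype.sum_sum_type, Sum.elim_inl, Sum.elim_inr, Finset.univ_unique,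
      Finset.sum_singleton, neg_mul, one_mul, Finset.sum_neg_distrib]
    rw [← h4]
    linarith) v (fun y hy => C.mval_nonneg hw hy)
  simp only [co, x, Fintype.sum_sum_type, Sum.elim_inl, Sum.elim_inr, Finset.univ_unique,
    Finset.sum_singleton, neg_mul, one_mul, Finset.sum_neg_distrib] at h1
  have h5 : ∀ l, iv v (C.t l : L) = w l := fun l => iv_eq_of v (C.mval_t hw l)
  simp_rw [h5] at h1
  push_cast at h1
  linarith

/-- the log discrepancy of the restriction of a monomial valuation -/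
theorem isLogDiscrepancy_restrict {w : Fin n → ℕ} (hw : ∀ l, 0 < w l) {r : ℕ} (hr0 : 0 < r)
    (E : DVal k K) (hr : ∀ f : K, f ≠ 0 → iv (C.mval w hw) (algebraMap K L f) = r * E.val f)
    (hE : E.IsDivisorial n) : G.IsLogDiscrepancy E (C.ld w hw / r) := by
  classical
  obtain ⟨e, he, hre⟩ := formOrd_restrict C.fg C.isParam G.ω C.ω C.ω_eq hw hr0 E hr hE
  refine ⟨e, he, ?_⟩
  have hr0' : (0 : ℝ) < r := by exact_mod_cast hr0
  rw [div_eq_iff hr0'.ne']
  have h1 := C.crepant_mval hw
  have h2 : ∑ i, G.r i * (iv (C.mval w hw) (algebraMap K L (G.s i)) : ℝ) =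
      r * ∑ i, G.r i * (E.val (G.s i) : ℝ) := by
    rw [Finset.mul_sum]
    refine Finset.sum_congr rfl fun i _ => ?_
    rw [hr _ (G.s_ne_zero i)]
    push_cast
    ring
  have h3 : (r : ℝ) * ((e : ℝ) + 1) = ∑ l, (w l : ℝ) +
      (iv (C.mval w hw) ((dtBasis C.fg C.isParam C.ω).det C.ω) : ℝ) := by
    have h4 : ((r * (e + 1) : ℤ) : ℝ) = ((∑ l, (w l : ℤ) +
      iv ((regCoord C.fg C.isParam C.ω).mv w hw) ((dtBasis C.fg C.isParam C.ω).det C.ω) : ℤ) : ℝ) := by
      rw [hre]
    push_cast at h4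
    exact h4
  have h5 : ∑ l, (1 - C.c l) * (w l : ℝ) = ∑ l, (w l : ℝ) - ∑ l, C.c l * (w l : ℝ) := by
    rw [← Finset.sum_sub_distrib]
    refine Finset.sum_congr rfl fun l _ => ?_
    ring
  rw [ld, h5]
  rw [h2] at h1
  nlinarith

/-- monomial valuations restrict to divisorial valuations -/
theorem isDivisorial_restrict [Algebra.IsAlgebraic K L] {w : Fin n → ℕ} (hw : ∀ l, 0 < w l)
    (hn : 0 < n) {r : ℕ} (hr0 : 0 < r)
    (E : DVal k K) (hr : ∀ f : K, f ≠ 0 → iv (C.mval w hw) (algebraMap K L f) = r * E.val f) :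
    E.IsDivisorial n := by
  obtain ⟨m, rfl⟩ : ∃ m, n = m + 1 := ⟨n - 1, by omega⟩
  obtain ⟨u, hu⟩ := exists_resInd_mv C.rc hw
  obtain ⟨y, hy⟩ := exists_resInd_restrict (C.mval w hw) (fun c hc => C.mval_const hw hc) hr0 E hr hu
  exact ⟨m, y, rfl, hy.1, hy.2⟩

end CrepantChart

end Pool.H32
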