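import Mathlib
import Pool.Agent.H32.Chart

/-!
# Orbifold weighted blow-ups
-/

set_option autoImplicit false

open scoped BigOperators nonZeroDivisors
open MvPolynomial KaehlerDifferential
open Pool.Agent.H26

namespace Pool.H32

universe u v

section uniq

variable {k : Type u} {L : Type v} [Field k] [Field L] [Algebra k L] {n : ℕ}
variable {B : Subalgebra k L} [IsFractionRing B L] {𝔪 : Ideal B} [𝔪.IsMaximal]

/-- derivations are determined by their values on parameters -/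
lemma derivation_eq [IsAlgClosed k] (hfg : B.FG) {t : Fin n → B}
    (ht : IsParam B 𝔪 t) (D₁ D₂ : Derivation k L L)
    (h : ∀ i, D₁ (t i : L) = D₂ (t i : L)) : D₁ = D₂ := by
  have h1 : D₁.liftKaehlerDifferential = D₂.liftKaehlerDifferential := by
    refine LinearMap.ext_on (s := Set.range fun i => D k L (t i : L))
      (top_le_iff.1 (span_param_eq_top hfg ht)) ?_
    rintro _ ⟨i, rfl⟩
    · change D₁.liftKaehlerDifferential (D k L (t i : L)) =
        D₂.liftKaehlerDifferential (D k L (t i : L))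
      rw [Derivation.liftKaehlerDifferential_comp_D, Derivation.liftKaehlerDifferential_comp_D]
      exact h i
  ext x
  rw [← Derivation.liftKaehlerDifferential_comp_D, h1, Derivation.liftKaehlerDifferential_comp_D]

/-- conjugating a derivation by an automorphism -/
noncomputable def conjDer (σ : L ≃ₐ[k] L) (D₁ : Derivation k L L) : Derivation k L L where
  toFun x := σ (D₁ (σ.symm x))
  map_add' x y := by simp
  map_smul' c x := by simp
  map_one_eq_zero' := by simp
  leibniz' x y := by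
    change σ (D₁ (σ.symm (x * y))) = x * σ (D₁ (σ.symm y)) + y * σ (D₁ (σ.symm x))
    rw [map_mul, Derivation.leibniz, smul_eq_mul, smul_eq_mul, map_add, map_mul, map_mul,
      AlgEquiv.apply_symm_apply, AlgEquiv.apply_symm_apply]

lemma conjDer_apply (σ : L ≃ₐ[k] L) (D₁ : Derivation k L L) (x : L) :
    conjDer σ D₁ x = σ (D₁ (σ.symm x)) := rfl

end uniq

namespace CrepantChart

variable {k : Type u} {K : Type v} [Field k] [IsAlgClosed k] [CharZero k] [Field K] [Algebra k K]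
  {n : ℕ} {G : LogGerm k K n} {L : Type v} [Field L] [Algebra k L] [Algebra K L]
  [IsScalarTower k K L] (C : CrepantChart G L)

omit [CharZero k] in
lemma sigma_pt (σ : L ≃ₐ[K] L)
    (hσB : ∀ b : C.B, ∃ b' : C.B, (b' : L) = σ b ∧ (b ∈ C.pt → b' ∈ C.pt)) (s : C.B)
    (hs : s ∉ C.pt) {s' : C.B} (hs' : (s' : L) = σ s) : s' ∉ C.pt := by
  intro h
  obtain ⟨c, hc⟩ := exists_residue_B (𝔪 := C.pt) C.fg s
  obtain ⟨m', hm', hmpt⟩ := hσB (s - algebraMap k C.B c)
  have h1 := hmpt hc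
  have h2 : (m' : L) = s' - algebraMap k L c := by
    rw [hm', hs']
    have h3 : ((s - algebraMap k C.B c : C.B) : L) = s - algebraMap k L c := rfl
    rw [h3, map_sub, IsScalarTower.algebraMap_apply k K L, σ.commutes]
  have h3 : m' = s' - algebraMap k C.B c := Subtype.ext h2
  have h4 : algebraMap k C.B c ∈ C.pt := by
    have h5 : algebraMap k C.B c = s' - m' := by rw [h3]; ring
    rw [h5]
    exact C.pt.sub_mem h h1
  have h6 : s ∈ C.pt := by
    have h7 : s = (s - algebraMap k C.B c) + algebraMap k C.B c := by ring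
    rw [h7]
    exact C.pt.add_mem hc h4
  exact hs h6

omit [CharZero k] in
lemma sigma_Fil (σ : L ≃ₐ[K] L)
    (hσB : ∀ b : C.B, ∃ b' : C.B, (b' : L) = σ b ∧ (b ∈ C.pt → b' ∈ C.pt)) {x : L}
    (hx : x ∈ C.rc.Fil (fun _ => 1) 1) : σ x ∈ C.rc.Fil (fun _ => 1) 1 := by
  rw [C.rc.mem_Fil_one_iff (fun _ => one_pos)] at hx ⊢
  obtain ⟨hx1, hx2⟩ := hx
  obtain ⟨a, s, hs, ha, e⟩ := (mem_maximalIdeal_locAt_iff (B := C.B) (𝔪 := C.pt) hx1).1 hx2
  obtain ⟨a', ha', ha2⟩ := hσB a
  obtain ⟨s', hs', _⟩ := hσB s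
  have hs'' := C.sigma_pt σ hσB s hs hs'
  have h1 : σ x * (s' : L) = a' := by
    rw [hs', ha', ← e, map_mul]
  have h2 : σ x ∈ locAt C.B C.pt := mem_locAt_iff.2 ⟨a', s', hs'', h1⟩
  exact ⟨h2, (mem_maximalIdeal_locAt_iff (B := C.B) (𝔪 := C.pt) h2).2 ⟨a', s', hs'', ha2 ha, h1⟩⟩

omit [CharZero k] in
/-- the exponents of a function on `X` are invariant -/
lemma supp_invariant {r : ℕ} {ζ : k} (hr0 : 0 < r) (hζ : IsPrimitiveRoot ζ r) (σ : L ≃ₐ[K] L)
    {w : Fin n → ℕ}
    (hσB : ∀ b : C.B, ∃ b' : C.B, (b' : L) = σ b ∧ (b ∈ C.pt → b' ∈ C.pt))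
    (hσt : ∀ l, σ (C.t l : L) = algebraMap k L (ζ ^ w l) * C.t l) (f : G.A)
    {d : Fin n →₀ ℕ} (hd : d ∈ C.rc.supp (algebraMap K L (f : K))) :
    r ∣ ∑ l, w l * d l := by
  classical
  have hζ0 : ζ ≠ 0 := hζ.ne_zero hr0.ne'
  let σk : L ≃ₐ[k] L := σ.restrictScalars k
  have hσk : ∀ x, σk x = σ x := fun x => rfl
  have hσc : ∀ c : k, σ (algebraMap k L c) = algebraMap k L c := fun c => σk.commutes c
  have hconj : ∀ (l : Fin n) (x : L), σ (C.rc.D l x) =
      algebraMap k L (ζ ^ w l)⁻¹ * C.rc.D l (σ x) := by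
    intro l x
    have h1 : conjDer σk (C.rc.D l) = algebraMap k L (ζ ^ w l)⁻¹ • C.rc.D l := by
      apply derivation_eq C.fg C.isParam
      intro i
      have h2 : σk.symm (C.t i : L) = algebraMap k L (ζ ^ w i)⁻¹ * C.t i := by
        rw [AlgEquiv.symm_apply_eq, map_mul, AlgEquiv.commutes]
        change _ = _ * σ (C.t i : L)
        rw [hσt, ← mul_assoc, ← map_mul, inv_mul_cancel₀ (pow_ne_zero _ hζ0), map_one, one_mul]
      rw [conjDer_apply, h2, Derivation.leibniz, Derivation.map_algebraMap, smul_zero, add_zero,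
        smul_eq_mul, Derivation.smul_apply, smul_eq_mul]
      have h3 : C.rc.D l (C.t i : L) = if i = l then 1 else 0 := C.rc.D_t i l
      rw [h3]
      by_cases hil : i = l
      · subst hil
        rw [if_pos rfl, mul_one, AlgEquiv.commutes]
      · rw [if_neg hil, mul_zero, mul_zero, map_zero]
    have h2 := congrArg (fun D' : Derivation k L L => D' (σ x)) h1
    simp only [Derivation.smul_apply, smul_eq_mul] at h2
    rw [conjDer_apply] at h2
    have h3 : σk.symm (σ x) = x := σk.symm_apply_apply x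
    rw [h3] at h2
    exact h2
  have hDl : ∀ (l : List (Fin n)) (x : L), σ (C.rc.Dl l x) =
      algebraMap k L (ζ ^ (Finsupp.weight w (RegCoord.cnt l)))⁻¹ * C.rc.Dl l (σ x) := by
    intro l
    induction l with
    | nil => intro x; simp [RegCoord.Dl, RegCoord.cnt]
    | cons j l ih =>
      intro x
      rw [RegCoord.Dl_cons, hconj, ih, Derivation.leibniz, Derivation.map_algebraMap, smul_zero,
        add_zero, smul_eq_mul, RegCoord.Dl_cons, RegCoord.cnt_cons, map_add,
        Finsupp.weight_single, one_smul, ← mul_assoc, ← map_mul, pow_add, mul_inv]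
  obtain ⟨l, hl⟩ := RegCoord.exists_cnt d
  have hf : σ (algebraMap K L (f : K)) = algebraMap K L (f : K) := σ.commutes _
  have h1 := hDl l (algebraMap K L (f : K))
  rw [hf, hl] at h1
  set y := C.rc.Dl l (algebraMap K L (f : K)) with hy
  have hyF : y ∉ C.rc.Fil (fun _ => 1) 1 := hd l hl
  have hyB : y ∈ C.rc.B := C.rc.Dl_mem_B l (le_locAt (C.map_mem f))
  obtain ⟨c, hc⟩ := C.rc.exists_const (w := fun _ => 1) (fun _ => one_pos) hyB
  have hc0 : c ≠ 0 := by
    rintro rfl
    rw [map_zero, sub_zero] at hc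
    exact hyF hc
  have h2 := C.sigma_Fil σ hσB hc
  rw [map_sub, hσc, h1] at h2
  set q : k := (ζ ^ (Finsupp.weight w d))⁻¹ with hq
  have h3 : algebraMap k L ((1 - q) * c) ∈ C.rc.Fil (fun _ => 1) 1 := by
    have e : algebraMap k L ((1 - q) * c) = algebraMap k L q * (y - algebraMap k L c) -
        (algebraMap k L q * y - algebraMap k L c) := by
      rw [map_mul, map_sub, map_one]; ring
    rw [e]
    exact Submodule.sub_mem _ (C.rc.mul_mem_Fil_left (Subalgebra.algebraMap_mem _ _) hc) h2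
  have h4 := C.rc.algebraMap_mem_Fil_one (fun _ => one_pos) h3
  have h5 : q = 1 := by
    have h6 := (mul_eq_zero.1 h4).resolve_right hc0
    exact (sub_eq_zero.1 h6).symm
  have h7 : ζ ^ (Finsupp.weight w d) = 1 := by
    rw [hq, inv_eq_one] at h5
    exact h5
  have h8 := hζ.dvd_of_pow_eq_one _ h7
  have h9 : Finsupp.weight w d = ∑ l, w l * d l := by
    rw [← weight_eq_sum w (fun l => d l)]
    congr 1
    ext; simp
  rwa [h9] at h8

/-- a divisor given by an orbifold weighted blow-up is the restriction of the monomial valuation -/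
lemma restrict_of_iff {r : ℕ} {w : Fin n → ℕ} (hw : ∀ l, 0 < w l) (E : DVal k K)
    (hE : ∀ f : G.A, f ≠ 0 → ∀ c : ℕ, ((c : ℤ) ≤ r * E.val (f : K) ↔
      ∃ s : C.B, s ∉ C.pt ∧
        s * ⟨algebraMap K L (f : K), C.map_mem f⟩ ∈ weightIdeal C.B C.t w c))
    (f : K) (hf : f ≠ 0) : iv (C.mval w hw) (algebraMap K L f) = r * E.val f := by
  set v := C.mval w hw with hv
  have hA : ∀ f : G.A, f ≠ 0 → iv v (algebraMap K L (f : K)) = r * E.val (f : K) := by
    intro f hf
    have hf0 : (f : K) ≠ 0 := fun h => hf (Subtype.ext h)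
    have hL0 := algebraMap_ne_zero (L := L) hf0
    have hmem : algebraMap K L (f : K) ∈ C.rc.B := le_locAt (C.map_mem f)
    have h1 : ∀ c : ℕ, (c : ℤ) ≤ iv v (algebraMap K L (f : K)) ↔ (c : ℤ) ≤ r * E.val (f : K) := by
      intro c
      rw [hE f hf c]
      have h2 := mem_Fil_iff C.fg C.isParam C.ω w c ⟨algebraMap K L (f : K), C.map_mem f⟩
      rw [← h2]
      have h3 := C.rc.le_mv_iff hw hmem (c := c)
      rw [← show C.rc = regCoord C.fg C.isParam C.ω from rfl, ← h3]
      change _ ↔ _ ≤ v _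
      rw [eq_iv v hL0]
      norm_cast
    have h2 : 0 ≤ iv v (algebraMap K L (f : K)) :=
      (nonneg_iff v hL0).1 (C.mval_nonneg hw hmem)
    have h3 : (0 : ℤ) ≤ r * E.val (f : K) := by
      have := (h1 0).1 (by simpa using h2)
      simpa using this
    apply le_antisymm
    · have := (h1 (iv v (algebraMap K L (f : K))).toNat).1 (by rw [Int.toNat_of_nonneg h2])
      rwa [Int.toNat_of_nonneg h2] at this
    · have := (h1 (r * E.val (f : K)).toNat).2 (by rw [Int.toNat_of_nonneg h3])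
      rwa [Int.toNat_of_nonneg h3] at this
  have := G.isFractionRing
  obtain ⟨a, b, hb, hab⟩ := IsFractionRing.div_surjective G.A f
  have hb0 : b ≠ 0 := nonZeroDivisors.ne_zero hb
  have hbK : (b : K) ≠ 0 := fun h => hb0 (Subtype.ext h)
  have ha0 : a ≠ 0 := by
    rintro rfl
    rw [map_zero, zero_div] at hab
    exact hf hab.symm
  have haK : (a : K) ≠ 0 := fun h => ha0 (Subtype.ext h)
  have hab' : f = (a : K) / (b : K) := hab.symm
  rw [hab', map_div₀, iv_div v (algebraMap_ne_zero haK) (algebraMap_ne_zero hbK), hA a ha0,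
    hA b hb0, E.val_div haK hbK]
  ring

/-- the centre of the restriction of a monomial valuation -/
lemma hasCenter_restrict {w : Fin n → ℕ} (hw : ∀ l, 0 < w l) {r : ℕ} (hr0 : 0 < r) (E : DVal k K)
    (hr : ∀ f : K, f ≠ 0 → iv (C.mval w hw) (algebraMap K L f) = r * E.val f) :
    E.HasCenter G.A G.pt := by
  have hr0' : (0 : ℤ) < r := by exact_mod_cast hr0
  have hpos : ∀ f : G.A, 0 < C.mval w hw (algebraMap K L (f : K)) ↔ f ∈ G.pt := by
    intro f
    rw [← C.mem_pt_iff]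
    have hmem : algebraMap K L (f : K) ∈ C.rc.B := le_locAt (C.map_mem f)
    have h1 := C.rc.mv_pos_iff hw hmem
    change 0 < C.rc.mv w hw _ ↔ _
    rw [h1, C.rc.mem_Fil_one_iff hw]
    constructor
    · rintro ⟨h2, h3⟩
      obtain ⟨a, s, hs, ha, e⟩ := (mem_maximalIdeal_locAt_iff (B := C.B) (𝔪 := C.pt) h2).1 h3
      have h4 : (⟨algebraMap K L (f : K), C.map_mem f⟩ : C.B) * s = a := Subtype.ext e
      have h5 : (⟨algebraMap K L (f : K), C.map_mem f⟩ : C.B) * s ∈ C.pt := by rw [h4]; exact ha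
      exact (Ideal.IsPrime.mem_or_mem inferInstance h5).resolve_right hs
    · intro h2
      exact ⟨hmem, (mem_maximalIdeal_locAt_iff (B := C.B) (𝔪 := C.pt) hmem).2
        ⟨⟨algebraMap K L (f : K), C.map_mem f⟩, 1,
        (Ideal.ne_top_iff_one _).1 (Ideal.IsPrime.ne_top inferInstance), h2, by simp⟩⟩
  refine ⟨fun f => ?_, fun f => ?_⟩
  · by_cases hf : (f : K) = 0
    · rw [hf, E.ord.map_zero]; exact le_top
    · have h1 := C.mval_nonneg hw (le_locAt (𝔪 := C.pt) (C.map_mem f))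
      rw [nonneg_iff _ (algebraMap_ne_zero hf), hr _ hf] at h1
      rw [E.nonneg_ord_iff]
      right
      exact nonneg_of_mul_nonneg_right h1 hr0'
  · rw [← hpos]
    by_cases hf : (f : K) = 0
    · rw [hf, map_zero, E.ord.map_zero, AddValuation.map_zero]
    · rw [pos_iff _ (algebraMap_ne_zero hf), hr _ hf, E.pos_ord_iff]
      constructor
      · intro h
        right
        exact (pos_iff_pos_of_mul_pos h).1 hr0'
      · intro h
        have h1 := h.resolve_left hf
        positivity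

/-- the minimal log discrepancy is bounded by the log discrepancies of the divisors in the lattice
generated by an orbifold weighted blow-up -/
theorem mld_le [Algebra.IsAlgebraic K L] (hn : 0 < n) {b : ℝ} (hb0 : 0 ≤ b)
    (hb : G.mld = (b : EReal)) {r : ℕ} {ζ : k} (hr0 : 0 < r) (hζ : IsPrimitiveRoot ζ r)
    (σ : L ≃ₐ[K] L) {w : Fin n → ℕ}
    (hσB : ∀ b : C.B, ∃ b' : C.B, (b' : L) = σ b ∧ (b ∈ C.pt → b' ∈ C.pt))
    (hσt : ∀ l, σ (C.t l : L) = algebraMap k L (ζ ^ w l) * C.t l)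
    (q : ℕ) (z : Fin n → ℤ) (w' : Fin n → ℕ) (hw' : ∀ l, 0 < w' l)
    (hw'e : ∀ l, (w' l : ℤ) = q * w l + r * z l) : b ≤ C.ld w' hw' / r := by
  classical
  have hr0' : (0 : ℝ) < r := by exact_mod_cast hr0
  obtain ⟨l0⟩ : Nonempty (Fin n) := ⟨⟨0, hn⟩⟩
  have hpos : 0 < C.mval w' hw' (C.t l0 : L) := by
    rw [C.mval_t hw']
    have := hw' l0
    exact_mod_cast this
  obtain ⟨r', E', hr'0, hE'⟩ := exists_restrict (K := K) (k := k) (C.mval w' hw')
    (fun c hc => C.mval_const hw' hc) (C.t l0 : L) (C.t_ne_zero l0) hpos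
  have hr'0' : (0 : ℝ) < r' := by exact_mod_cast hr'0
  -- integrality
  have hdvdA : ∀ f : G.A, f ≠ 0 → (r : ℤ) ∣ iv (C.mval w' hw') (algebraMap K L (f : K)) := by
    intro f hf
    have hf0 : (f : K) ≠ 0 := fun h => hf (Subtype.ext h)
    have hL0 := algebraMap_ne_zero (L := L) hf0
    have hmem : algebraMap K L (f : K) ∈ C.rc.B := le_locAt (C.map_mem f)
    obtain ⟨d, hd, hv⟩ := C.rc.exists_mv_eq hw' hmem hL0
    have h1 : iv (C.mval w' hw') (algebraMap K L (f : K)) = Finsupp.weight w' d :=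
      iv_eq_of _ hv
    have h2 := C.supp_invariant hr0 hζ σ hσB hσt f hd
    have h3 : Finsupp.weight w' d = ∑ l, w' l * d l := by
      rw [← weight_eq_sum w' (fun l => d l)]
      congr 1
      ext; simp
    rw [h1, h3]
    push_cast
    have h4 : ∑ l, (w' l : ℤ) * (d l : ℤ) = q * ∑ l, (w l : ℤ) * d l + r * ∑ l, z l * d l := by
      rw [Finset.mul_sum, Finset.mul_sum, ← Finset.sum_add_distrib]
      refine Finset.sum_congr rfl fun l _ => ?_
      rw [hw'e]; ring
    rw [h4]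
    apply dvd_add
    · apply Dvd.dvd.mul_left
      have h5 : ((∑ l, w l * d l : ℕ) : ℤ) = ∑ l, (w l : ℤ) * d l := by push_cast; rfl
      rw [← h5]
      exact_mod_cast h2
    · exact Dvd.intro _ rfl
  have hdvd : ∀ f : K, f ≠ 0 → (r : ℤ) ∣ iv (C.mval w' hw') (algebraMap K L f) := by
    intro f hf
    have := G.isFractionRing
    obtain ⟨a, b, hb, hab⟩ := IsFractionRing.div_surjective G.A f
    have hb0 : b ≠ 0 := nonZeroDivisors.ne_zero hb
    have hbK : (b : K) ≠ 0 := fun h => hb0 (Subtype.ext h)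
    have ha0 : a ≠ 0 := by
      rintro rfl
      rw [map_zero, zero_div] at hab
      exact hf hab.symm
    have haK : (a : K) ≠ 0 := fun h => ha0 (Subtype.ext h)
    have hab' : f = (a : K) / (b : K) := hab.symm
    rw [hab', map_div₀, iv_div _ (algebraMap_ne_zero haK) (algebraMap_ne_zero hbK)]
    exact dvd_sub (hdvdA a ha0) (hdvdA b hb0)
  have hrr' : r ≤ r' := by
    obtain ⟨s, hs⟩ := E'.exists_ord_eq_one
    have hs1 := (E'.ord_eq_iff (z := 1)).1 (by exact_mod_cast hs)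
    have h1 := hdvd s hs1.1
    rw [hE' s hs1.1, hs1.2, mul_one] at h1
    have h2 : r ∣ r' := by exact_mod_cast h1
    exact Nat.le_of_dvd hr'0 h2
  have hdiv := C.isDivisorial_restrict hw' hn hr'0 E' hE'
  have hcen := C.hasCenter_restrict hw' hr'0 E' hE'
  have hld := C.isLogDiscrepancy_restrict hw' hr'0 E' hE' hdiv
  have h1 : b ≤ C.ld w' hw' / r' := by
    have h2 : G.mld ≤ ((C.ld w' hw' / r' : ℝ) : EReal) := by
      unfold LogGerm.mld
      exact sInf_le ⟨E', _, hdiv, hcen, hld, rfl⟩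
    rw [hb] at h2
    exact_mod_cast h2
  have h2 : 0 ≤ C.ld w' hw' := by
    have h3 : 0 ≤ C.ld w' hw' / r' := hb0.trans h1
    by_contra hcon
    push Not at hcon
    exact absurd (div_neg_of_neg_of_pos hcon hr'0') (not_lt.2 h3)
  refine h1.trans ?_
  have h4 : (r : ℝ) ≤ r' := by exact_mod_cast hrr'
  exact div_le_div_of_nonneg_left h2 hr0' h4

/-- the combinatorial data of a cyclic automorphism and a monomial valuation -/
theorem exists_data_of_le [Algebra.IsAlgebraic K L] (hn : 0 < n) {b : ℝ} (hb0 : 0 ≤ b)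
    (hb : G.mld = (b : EReal)) (hd : ∀ j, 0 ≤ C.d j) {r : ℕ} {ζ : k} {σ : L ≃ₐ[K] L}
    {w : Fin n → ℕ} (hr0 : 0 < r) (hζ : IsPrimitiveRoot ζ r) (hw : ∀ l, 0 < w l)
    (hσB : ∀ b : C.B, ∃ b' : C.B, (b' : L) = σ b ∧ (b ∈ C.pt → b' ∈ C.pt))
    (hσt : ∀ l, σ (C.t l : L) = algebraMap k L (ζ ^ w l) * C.t l) {a : ℝ}
    (hale : C.ld w hw / r ≤ a) :
    ∃ (S : C.α → Set (Fin n →₀ ℕ)),
      (∀ m : C.α → (Fin n →₀ ℕ), (∀ j, m j ∈ S j) →
        ∑ l, (1 - C.c l - ∑ j, C.d j * m j l) * ((w l : ℝ) / r) ≤ a) ∧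
      ∀ (q : ℕ) (z : Fin n → ℤ), (∀ l, 0 < (q : ℝ) * ((w l : ℝ) / r) + z l) →
        ∃ m : C.α → (Fin n →₀ ℕ), (∀ j, m j ∈ S j) ∧
          b ≤ ∑ l, (1 - C.c l - ∑ j, C.d j * m j l) * ((q : ℝ) * ((w l : ℝ) / r) + z l) := by
  classical
  have hr0' : (0 : ℝ) < r := by exact_mod_cast hr0
  have hweight : ∀ (w : Fin n → ℕ) (d : Fin n →₀ ℕ), Finsupp.weight w d = ∑ l, w l * d l := by
    intro w d
    rw [← weight_eq_sum w (fun l => d l)]
    congr 1
    ext; simp
  have hswap : ∀ (m : C.α → (Fin n →₀ ℕ)) (y : Fin n → ℝ),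
      ∑ l, (1 - C.c l - ∑ j, C.d j * m j l) * y l =
        ∑ l, (1 - C.c l) * y l - ∑ j, C.d j * ∑ l, y l * m j l := by
    intro m y
    have h1 : ∀ l, (1 - C.c l - ∑ j, C.d j * m j l) * y l =
        (1 - C.c l) * y l - ∑ j, C.d j * (y l * m j l) := by
      intro l
      rw [sub_mul, Finset.sum_mul]
      congr 1
      refine Finset.sum_congr rfl fun j _ => ?_
      ring
    simp_rw [h1]
    rw [Finset.sum_sub_distrib, Finset.sum_comm]
    congr 1
    refine Finset.sum_congr rfl fun j _ => ?_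
    rw [Finset.mul_sum]
  refine ⟨fun j => C.rc.supp (C.g j : L), fun m hm => ?_, fun q z hqz => ?_⟩
  · refine le_trans ?_ hale
    rw [hswap, le_div_iff₀ hr0', ld]
    have h1 : (∑ l, (1 - C.c l) * ((w l : ℝ) / r) - ∑ j, C.d j * ∑ l, (w l : ℝ) / r * m j l) * r =
        ∑ l, (1 - C.c l) * (w l : ℝ) - ∑ j, C.d j * ∑ l, (w l : ℝ) * m j l := by
      rw [sub_mul, Finset.sum_mul, Finset.sum_mul]
      congr 1
      · refine Finset.sum_congr rfl fun l _ => ?_
        field_simp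
      · refine Finset.sum_congr rfl fun j _ => ?_
        rw [mul_assoc, Finset.sum_mul]
        congr 1
        refine Finset.sum_congr rfl fun l _ => ?_
        field_simp
    rw [h1]
    apply sub_le_sub_left
    refine Finset.sum_le_sum fun j _ => ?_
    apply mul_le_mul_of_nonneg_left _ (hd j)
    have h2 := C.rc.mv_le_of_mem_supp hw (le_locAt (C.g j).2) (C.g_ne_zero' j) (hm j)
    have h3 : iv (C.mval w hw) (C.g j : L) ≤ Finsupp.weight w (m j) := by
      have h4 : C.mval w hw (C.g j : L) ≤ ((Finsupp.weight w (m j) : ℤ) : WithTop ℤ) := h2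
      rw [eq_iv _ (C.g_ne_zero' j)] at h4
      exact_mod_cast h4
    rw [hweight] at h3
    have h5 : ((iv (C.mval w hw) (C.g j : L) : ℤ) : ℝ) ≤ (((∑ l, w l * m j l : ℕ) : ℤ) : ℝ) := by
      exact_mod_cast h3
    refine h5.trans (le_of_eq ?_)
    push_cast
    rfl
  · have hpos : ∀ l, (0 : ℤ) < q * w l + r * z l := by
      intro l
      have h1 := hqz l
      have h2 : (0 : ℝ) < ((q : ℝ) * ((w l : ℝ) / r) + z l) * r := mul_pos h1 hr0'
      have h3 : ((q : ℝ) * ((w l : ℝ) / r) + z l) * r = q * w l + r * z l := by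
        field_simp
      rw [h3] at h2
      exact_mod_cast h2
    set w' : Fin n → ℕ := fun l => ((q : ℤ) * w l + r * z l).toNat with hw'd
    have hw'e : ∀ l, (w' l : ℤ) = q * w l + r * z l := fun l => Int.toNat_of_nonneg (hpos l).le
    have hw' : ∀ l, 0 < w' l := by
      intro l
      have h1 := hpos l
      rw [← hw'e l] at h1
      exact_mod_cast h1
    have hle := C.mld_le hn hb0 hb hr0 hζ σ hσB hσt q z w' hw' hw'e
    have hy : ∀ l, (q : ℝ) * ((w l : ℝ) / r) + z l = (w' l : ℝ) / r := by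
      intro l
      have h1 : ((w' l : ℤ) : ℝ) = ((q * w l + r * z l : ℤ) : ℝ) := by rw [hw'e l]
      push_cast at h1
      rw [h1]
      field_simp
    choose m hm hmv using fun j => C.rc.exists_mv_eq hw' (le_locAt (C.g j).2) (C.g_ne_zero' j)
    refine ⟨m, hm, ?_⟩
    rw [hswap]
    simp_rw [hy]
    refine hle.trans (le_of_eq ?_)
    rw [div_eq_iff hr0'.ne', ld, sub_mul, Finset.sum_mul, Finset.sum_mul]
    congr 1
    · refine Finset.sum_congr rfl fun l _ => ?_
      field_simp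
    · refine Finset.sum_congr rfl fun j _ => ?_
      rw [mul_assoc, Finset.sum_mul]
      congr 1
      have h1 : iv (C.mval w' hw') (C.g j : L) = Finsupp.weight w' (m j) := iv_eq_of _ (hmv j)
      rw [h1, hweight]
      push_cast
      refine Finset.sum_congr rfl fun l _ => ?_
      field_simp

/-- the combinatorial data of an orbifold weighted blow-up -/
theorem exists_data [Algebra.IsAlgebraic K L] (hn : 0 < n) {b : ℝ} (hb0 : 0 ≤ b)
    (hb : G.mld = (b : EReal)) (hd : ∀ j, 0 ≤ C.d j) {E : DVal k K}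
    (hE : C.IsOrbifoldWeightedBlowup E) {a : ℝ} (ha : G.IsLogDiscrepancy E a) :
    ∃ (r : ℕ) (w : Fin n → ℕ) (S : C.α → Set (Fin n →₀ ℕ)), 0 < r ∧ (∀ l, 0 < w l) ∧
      (∀ m : C.α → (Fin n →₀ ℕ), (∀ j, m j ∈ S j) →
        ∑ l, (1 - C.c l - ∑ j, C.d j * m j l) * ((w l : ℝ) / r) ≤ a) ∧
      ∀ (q : ℕ) (z : Fin n → ℤ), (∀ l, 0 < (q : ℝ) * ((w l : ℝ) / r) + z l) →
        ∃ m : C.α → (Fin n →₀ ℕ), (∀ j, m j ∈ S j) ∧
          b ≤ ∑ l, (1 - C.c l - ∑ j, C.d j * m j l) * ((q : ℝ) * ((w l : ℝ) / r) + z l) := by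
  classical
  obtain ⟨r, ζ, σ, w, hr0, hζ, hw, hσB, hσt, hEf⟩ := hE
  have hrE := C.restrict_of_iff hw E hEf
  have hdiv := C.isDivisorial_restrict hw hn hr0 E hrE
  have hld := C.isLogDiscrepancy_restrict hw hr0 E hrE hdiv
  have haeq : a = C.ld w hw / r := by
    obtain ⟨e, he, h1⟩ := ha
    obtain ⟨e', he', h2⟩ := hld
    have h3 := FormOrd_unique E G.ω he he'
    rw [h1, h2, h3]
  obtain ⟨S, h1, h2⟩ := C.exists_data_of_le hn hb0 hb hd hr0 hζ hw hσB hσt haeq.ge
  exact ⟨r, w, S, hr0, hw, h1, h2⟩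

end CrepantChart

end Pool.H32
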