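import Mathlib
import Pool.Agent.H32.Blowup
import Pool.Agent.H26.Engine
import Pool.Agent.H26.Chains

/-!
# ACC for minimal log discrepancies computed by orbifold weighted blow-ups
-/

set_option autoImplicit false

open scoped BigOperators nonZeroDivisors Pointwise
open Pool.Agent.H26

namespace Pool.H32

universe u v

lemma mem_closure_sum {Γ : Set ℝ} {α : Type} [Fintype α] (d : α → ℝ) (hd : ∀ j, d j ∈ Γ)
    (m : α → ℕ) : ∑ j, d j * (m j : ℝ) ∈ AddSubmonoid.closure Γ := by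
  refine AddSubmonoid.sum_mem _ fun j _ => ?_
  have h := AddSubmonoid.nsmul_mem (AddSubmonoid.closure Γ)
    (AddSubmonoid.subset_closure (hd j)) (m j)
  rwa [nsmul_eq_mul, mul_comm] at h

theorem orb_acc (n : ℕ) {Γ Γ' : Set ℝ} (hΓ0 : ∀ γ ∈ Γ, 0 ≤ γ) (hΓ : DCC Γ) (hΓ' : DCC Γ') :
    ACC (OrbMlds.{u, v} n Γ Γ') := by
  classical
  refine ACC_of_real fun t ht hmono => ?_
  -- dimension zero is impossible
  rcases Nat.eq_zero_or_pos n with hn | hn
  · obtain ⟨k, _, _, _, K, _, _, G, b, hxb, hb0, hG, _⟩ := ht 0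
    subst hn
    have hempty : {a : EReal | ∃ (v : DVal k K) (b : ℝ), v.IsDivisorial 0 ∧ v.HasCenter G.A G.pt ∧
        G.IsLogDiscrepancy v b ∧ a = (b : EReal)} = ∅ := by
      ext a
      simp only [Set.mem_ofPred_eq, Set.mem_empty_iff_false, iff_false]
      rintro ⟨v, b, ⟨m, _, hm, _⟩, _⟩
      omega
    unfold LogGerm.mld at hG
    rw [hempty, sInf_empty] at hG
    exact absurd hG.symm (EReal.coe_ne_top b)
  -- a bound for the coefficients in Γ'
  obtain ⟨Cst, hC0, hC⟩ : ∃ Cst : ℝ, 0 < Cst ∧ ∀ c ∈ Γ', 1 - c ≤ Cst := by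
    rcases Γ'.eq_empty_or_nonempty with h | h
    · exact ⟨1, one_pos, by rw [h]; simp⟩
    · have hwf := hΓ'.isPWO.isWF
      refine ⟨max 1 (1 - hwf.min h), lt_max_of_lt_left one_pos, fun c hc => ?_⟩
      have := hwf.min_le h hc
      exact le_max_of_le_right (by linarith)
  let W : Set ℝ := (fun x => (Cst - 1 + x) / Cst) '' (Γ' + (AddSubmonoid.closure Γ : Set ℝ))
  have hWpwo : W.IsPWO := by
    apply Set.IsPWO.image_of_monotone
    · exact hΓ'.isPWO.add (hΓ.isPWO.addSubmonoid_closure hΓ0)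
    · intro x y hxy
      have : (Cst - 1 + x) ≤ (Cst - 1 + y) := by linarith
      exact div_le_div_of_nonneg_right this hC0.le
  have hcl0 : ∀ s ∈ AddSubmonoid.closure Γ, 0 ≤ s := by
    intro s hs
    have : AddSubmonoid.closure Γ ≤ AddSubmonoid.nonneg ℝ := by
      rw [AddSubmonoid.closure_le]
      intro x hx
      exact hΓ0 x hx
    exact this hs
  have hW0 : ∀ x ∈ W, 0 ≤ x := by
    rintro _ ⟨_, ⟨c, hc, s, hs, rfl⟩, rfl⟩
    have h1 := hC c hc
    have h2 := hcl0 s hs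
    apply div_nonneg _ hC0.le
    change 0 ≤ Cst - 1 + (c + s)
    linarith
  -- the data
  have hdata : ∀ j : ℕ, ∃ (r : ℕ) (w : Fin n → ℕ) (U : Set (Fin n → ℝ)), 0 < r ∧ (∀ l, 0 < w l) ∧
      (∀ u ∈ U, ∀ l, u l ∈ W) ∧
      (∀ u ∈ U, ∑ l, (1 - u l) * ((w l : ℝ) / r) < t (j + 1) / Cst) ∧
      ∀ (q : ℕ) (z : Fin n → ℤ), (∀ l, 0 < (q : ℝ) * ((w l : ℝ) / r) + z l) →
        ∃ u ∈ U, t j / Cst ≤ ∑ l, (1 - u l) * ((q : ℝ) * ((w l : ℝ) / r) + z l) := by
    intro j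
    obtain ⟨k, _, _, _, K, _, _, G, b, hxb, hb0, hG, hinf⟩ := ht j
    have htb : t j = b := by exact_mod_cast hxb
    have hε : 0 < t (j + 1) - t j := sub_pos.2 (hmono (Nat.lt_succ_self j))
    obtain ⟨L, _, _, _, _, _, C, E, a, hc, hd, hE, ha, hab⟩ := hinf _ hε
    obtain ⟨r, w, S, hr0, hw, hS1, hS2⟩ := C.exists_data hn hb0 hG (fun j => hΓ0 _ (hd j)) hE ha
    have hlin : ∀ (m : C.α → (Fin n →₀ ℕ)) (y : Fin n → ℝ),
        ∑ l, (1 - (Cst - 1 + (C.c l + ∑ j, C.d j * m j l)) / Cst) * y l =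
          (∑ l, (1 - C.c l - ∑ j, C.d j * m j l) * y l) / Cst := by
      intro m y
      rw [Finset.sum_div]
      refine Finset.sum_congr rfl fun l _ => ?_
      field_simp
      ring
    refine ⟨r, w, {u | ∃ m : C.α → (Fin n →₀ ℕ), (∀ j, m j ∈ S j) ∧
      u = fun l => (Cst - 1 + (C.c l + ∑ j, C.d j * m j l)) / Cst}, hr0, hw, ?_, ?_, ?_⟩
    · rintro u ⟨m, hm, rfl⟩ l
      refine ⟨C.c l + ∑ j, C.d j * m j l, ⟨C.c l, hc l, _, ?_, rfl⟩, rfl⟩
      exact mem_closure_sum C.d hd fun j => m j l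
    · rintro u ⟨m, hm, rfl⟩
      rw [hlin]
      apply div_lt_div_of_pos_right _ hC0
      have := hS1 m hm
      linarith
    · intro q z hqz
      obtain ⟨m, hm, hmb⟩ := hS2 q z hqz
      refine ⟨_, ⟨m, hm, rfl⟩, ?_⟩
      rw [hlin, htb]
      exact div_le_div_of_nonneg_right hmb hC0.le
  choose r w U hr0 hw hUW hU2 hU1 using hdata
  refine engine n hWpwo hW0 U hUW (fun j l => (w j l : ℝ) / r j) ?_ ?_ (fun j => t j / Cst)
    (fun j q z h => hU1 j q z h) (fun j u hu => hU2 j u hu) ?_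
  · intro j
    refine ⟨r j, hr0 j, fun l => ⟨w j l, ?_⟩⟩
    have : (r j : ℝ) ≠ 0 := by exact_mod_cast (hr0 j).ne'
    push_cast
    field_simp
  · intro j l
    have h1 : (0 : ℝ) < w j l := by exact_mod_cast hw j l
    have h2 : (0 : ℝ) < r j := by exact_mod_cast hr0 j
    positivity
  · intro i j hij
    exact div_lt_div_of_pos_right (hmono hij) hC0

end Pool.H32
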