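import Mathlib
import Pool.Agent.H32.OrbDefs

/-!
# Finite quotients of hyperplane arrangements
-/

open scoped BigOperators

namespace Pool.H32

open Pool.Agent.H26

universe u v

namespace CrepantChart

variable {k : Type u} {K : Type v} [Field k] [Field K] [Algebra k K] {n : ℕ}
  {G : LogGerm k K n} {L : Type v} [Field L] [Algebra k L] [Algebra K L] [IsScalarTower k K L]

/-- `C.IsArrangementQuotient`: the crepant chart `π : Y → X` at the smooth point `y` presents the
germ `x ∈ (X, Δ)` as a quotient of a hyperplane arrangement by a finite group.  This means that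
`L / K` is Galois, with group `H` say, that `π` is finite, that `H` fixes the point `y` (so that
near `x`, `X` is the quotient `Y / H`), that the parameters `t l` at `y` are chosen such that `H`
acts on them by linear substitutions, and that the boundary on `Y` is `∑ j, d j • (g j = 0)` where
every `g j` is a linear form in the `t l`. -/
structure IsArrangementQuotient (C : CrepantChart G L) : Prop where
  /-- `L / K` is Galois -/
  isGalois : IsGalois K L
  /-- `Y → X` is finite -/
  isIntegral : ∀ b : C.B, IsIntegral G.A (b : L)
  /-- the Galois group fixes the point `y` -/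
  fixed : ∀ (σ : L ≃ₐ[K] L) (b : C.B), b ∈ C.pt → ∃ b' : C.B, b' ∈ C.pt ∧ (b' : L) = σ b
  /-- the Galois group acts on the parameters by linear substitutions -/
  linear : ∀ (σ : L ≃ₐ[K] L) (l : Fin n),
    σ (C.t l : L) ∈ Submodule.span k (Set.range fun i => (C.t i : L))
  /-- no coordinate hyperplanes are listed separately -/
  coeff_eq_zero : ∀ l, C.c l = 0
  /-- the equations of the boundary are linear forms in the parameters -/
  mem_span : ∀ j, (C.g j : L) ∈ Submodule.span k (Set.range fun i => (C.t i : L))

end CrepantChart

/-- The set of the minimal log discrepancies `b = mld (x, X, Δ) ≥ 0` of germs of log pairs of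
dimension `n` (over arbitrary algebraically closed fields of characteristic zero) which are
quotients by finite groups of smooth germs `y ∈ Y` with boundary `∑ j, d j • (g j = 0)`, where
the `g j` are linear forms and `d j ∈ Γ`. -/
def ArrMlds (n : ℕ) (Γ : Set ℝ) : Set EReal :=
  {x | ∃ (k : Type u) (_ : Field k) (_ : IsAlgClosed k) (_ : CharZero k) (K : Type v) (_ : Field K)
    (_ : Algebra k K) (G : LogGerm k K n) (b : ℝ) (L : Type v) (_ : Field L) (_ : Algebra k L)
    (_ : Algebra K L) (_ : IsScalarTower k K L) (_ : FiniteDimensional K L) (C : CrepantChart G L),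
    x = (b : EReal) ∧ 0 ≤ b ∧ G.mld = (b : EReal) ∧ (∀ j, C.d j ∈ Γ) ∧ C.IsArrangementQuotient}

end Pool.H32
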