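import Mathlib
import Pool.Agent.H32.ArrDefs
import Pool.Agent.H32.Chart

/-!
# Centres of extensions of valuations to Galois covers
-/

set_option autoImplicit false

open scoped BigOperators nonZeroDivisors
open Pool.Agent.H26

namespace Pool.H32

universe u v

section integral

variable {R : Type*} {L : Type v} [CommRing R] [Field L] [Algebra R L]

lemma nonneg_of_isIntegral (v : AddValuation L (WithTop ℤ))
    (hR : ∀ r : R, 0 ≤ v (algebraMap R L r)) {x : L} (hx : IsIntegral R x) : 0 ≤ v x := by
  let φ : R →+* vring v := (algebraMap R L).codRestrict (vring v) hR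
  have h1 : IsIntegral (vring v) x := by
    obtain ⟨p, hp, hpx⟩ := hx
    refine ⟨p.map φ, hp.map φ, ?_⟩
    rw [Polynomial.eval₂_map]
    exact hpx
  obtain ⟨y, hy⟩ := (IsIntegrallyClosed.isIntegral_iff (R := vring v) (K := L)).1 h1
  rw [← hy]
  exact y.2

end integral

namespace CrepantChart

variable {k : Type u} {K : Type v} [Field k] [Field K] [Algebra k K]
  {n : ℕ} {G : LogGerm k K n} {L : Type v} [Field L] [Algebra k L] [Algebra K L]
  [IsScalarTower k K L] (C : CrepantChart G L)

/-- the point of the cover is the centre of every valuation extending one centred at `x` -/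
lemma pos_of_mem_pt [FiniteDimensional K L] (hC : C.IsArrangementQuotient) {E : DVal k K}
    (hE : E.HasCenter G.A G.pt) (F : DVal k L)
    (hFE0 : ∀ f : K, 0 ≤ E.ord f → 0 ≤ F.ord (algebraMap K L f))
    (hFE : ∀ f : K, 0 < E.ord f → 0 < F.ord (algebraMap K L f)) :
    (∀ b : C.B, 0 ≤ F.ord (b : L)) ∧ ∀ b ∈ C.pt, 0 < F.ord (b : L) := by
  classical
  have hgal := hC.isGalois
  have hA : ∀ a : G.A, 0 ≤ F.ord (algebraMap G.A L a) := fun a => hFE0 _ (hE.1 a)
  have hnn : ∀ b : C.B, 0 ≤ F.ord (b : L) := fun b => nonneg_of_isIntegral F.ord hA (hC.isIntegral b)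
  refine ⟨hnn, fun b hb => ?_⟩
  choose β hβ1 hβ2 using fun σ : L ≃ₐ[K] L => hC.fixed σ b hb
  let P0 : Polynomial C.B := ∏ σ : L ≃ₐ[K] L, (Polynomial.X - Polynomial.C (β σ))
  set N := Fintype.card (L ≃ₐ[K] L) with hN
  have hN0 : 0 < N := Fintype.card_pos
  have hmonic : P0.Monic := Polynomial.monic_prod_of_monic _ _ fun σ _ => Polynomial.monic_X_sub_C _
  have hdeg : P0.natDegree = N := by
    rw [Polynomial.natDegree_prod_of_monic _ _ fun σ _ => Polynomial.monic_X_sub_C _]
    simp [hN]
  -- the lower coefficients are in `pt`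
  have hpt : ∀ i, i < N → P0.coeff i ∈ C.pt := by
    intro i hi
    have h1 : P0.map (Ideal.Quotient.mk C.pt) = Polynomial.X ^ N := by
      simp only [P0]
      rw [Polynomial.map_prod]
      have h2 : ∀ σ : L ≃ₐ[K] L, (Polynomial.X - Polynomial.C (β σ)).map
          (Ideal.Quotient.mk C.pt) = Polynomial.X := by
        intro σ
        rw [Polynomial.map_sub, Polynomial.map_X, Polynomial.map_C,
          Ideal.Quotient.eq_zero_iff_mem.2 (hβ1 σ), map_zero, sub_zero]
      simp_rw [h2]
      rw [Finset.prod_const, Finset.card_univ]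
    have h2 := congrArg (fun p => Polynomial.coeff p i) h1
    simp only [Polynomial.coeff_map, Polynomial.coeff_X_pow, if_neg hi.ne] at h2
    exact Ideal.Quotient.eq_zero_iff_mem.1 h2
  -- the coefficients are in `K`
  let ι : C.B →+* L := C.B.val.toRingHom
  have hPL : P0.map ι = ∏ σ : L ≃ₐ[K] L, (Polynomial.X - Polynomial.C (σ (b : L))) := by
    simp only [P0]
    rw [Polynomial.map_prod]
    refine Finset.prod_congr rfl fun σ _ => ?_
    rw [Polynomial.map_sub, Polynomial.map_X, Polynomial.map_C]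
    congr 2
    exact hβ2 σ
  have hfix : ∀ (τ : L ≃ₐ[K] L) (i : ℕ), τ ((P0.coeff i : C.B) : L) = (P0.coeff i : C.B) := by
    intro τ i
    have h1 : (P0.map ι).map (τ : L →+* L) = P0.map ι := by
      rw [hPL, Polynomial.map_prod]
      refine Fintype.prod_equiv (Equiv.mulLeft τ) _ _ fun σ => ?_
      rw [Polynomial.map_sub, Polynomial.map_X, Polynomial.map_C]
      rfl
    have h2 := congrArg (fun p => Polynomial.coeff p i) h1
    simp only [Polynomial.coeff_map] at h2
    exact h2
  have hcoef : ∀ i, i < N → 0 < F.ord ((P0.coeff i : C.B) : L) := by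
    intro i hi
    obtain ⟨κ, hκ⟩ := (IsGalois.mem_range_algebraMap_iff_fixed (F := K) (E := L)
      ((P0.coeff i : C.B) : L)).2 fun τ => hfix τ i
    have hint : IsIntegral G.A κ := by
      have h1 := hC.isIntegral (P0.coeff i)
      rw [← hκ] at h1
      exact (isIntegral_algebraMap_iff (algebraMap K L).injective).1 h1
    have := G.normal
    have := G.isFractionRing
    obtain ⟨a, ha⟩ := (IsIntegrallyClosed.isIntegral_iff (R := G.A) (K := K)).1 hint
    have ha' : (a : K) = κ := ha
    have h1 : (⟨algebraMap K L (a : K), C.map_mem a⟩ : C.B) = P0.coeff i := by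
      apply Subtype.ext
      change algebraMap K L (a : K) = _
      rw [ha', hκ]
    have h2 : a ∈ G.pt := by
      rw [← C.mem_pt_iff, h1]
      exact hpt i hi
    rw [← hκ, ← ha']
    exact hFE _ ((hE.2 a).1 h2)
  -- the equation
  have hroot : P0.eval₂ ι (b : L) = 0 := by
    rw [← Polynomial.eval_map, hPL, Polynomial.eval_prod]
    refine Finset.prod_eq_zero (Finset.mem_univ 1) ?_
    simp
  rw [Polynomial.eval₂_eq_sum_range, hdeg, Finset.sum_range_succ] at hroot
  have hlead : P0.coeff N = 1 := by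
    rw [← hdeg]; exact hmonic
  rw [hlead, map_one, one_mul] at hroot
  have hbN : ((b : L)) ^ N = -∑ i ∈ Finset.range N, ι (P0.coeff i) * (b : L) ^ i := by
    rw [eq_neg_iff_add_eq_zero, add_comm]; exact hroot
  have hpos : 0 < F.ord ((b : L) ^ N) := by
    rw [hbN, F.ord.map_neg]
    apply F.ord.map_lt_sum
    · exact WithTop.zero_ne_top
    · intro i hi
      rw [F.ord.map_mul, F.ord.map_pow, add_comm]
      exact add_pos_nn (nsmul_nonneg (hnn b) i) (hcoef i (Finset.mem_range.1 hi))
  by_contra hcon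
  have h0 : F.ord (b : L) = 0 := le_antisymm (not_lt.1 hcon) (hnn b)
  rw [F.ord.map_pow, h0, nsmul_zero] at hpos
  exact lt_irrefl _ hpos

/-- such a valuation is nonnegative on the local ring -/
lemma nonneg_on_locAt [IsAlgClosed k] (F : DVal k L) (h1 : ∀ b : C.B, 0 ≤ F.ord (b : L))
    (h2 : ∀ b ∈ C.pt, 0 < F.ord (b : L)) : ∀ y ∈ locAt C.B C.pt, 0 ≤ F.ord y := by
  intro y hy
  obtain ⟨a, s, hs, e⟩ := mem_locAt_iff.1 hy
  have hs0 : F.ord (s : L) = 0 := by
    obtain ⟨c, hc⟩ := exists_residue_B (𝔪 := C.pt) C.fg s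
    have hc0 : c ≠ 0 := by
      rintro rfl
      rw [map_zero, sub_zero] at hc
      exact hs hc
    have h3 := h2 _ hc
    have h4 : ((s - algebraMap k C.B c : C.B) : L) = s - algebraMap k L c := rfl
    rw [h4] at h3
    refine le_antisymm (not_lt.1 fun h5 => ?_) (h1 s)
    have h6 : 0 < F.ord (algebraMap k L c) := by
      have e2 : algebraMap k L c = (s : L) - (s - algebraMap k L c) := by ring
      rw [e2]
      exact v_sub_pos F.ord h5 h3
    rw [F.ord_algebraMap c hc0] at h6
    exact lt_irrefl _ h6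
  have h3 := h1 a
  rw [← e, F.ord.map_mul, hs0, add_zero] at h3
  exact h3

end CrepantChart

end Pool.H32
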