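import Mathlib
import Pool.Agent.H32.LogDisc

/-!
# Logarithmic bounds for derivations
-/

set_option autoImplicit false

open scoped BigOperators nonZeroDivisors
open MvPolynomial KaehlerDifferential
open Pool.Agent.H26

namespace Pool.H32

universe u v

section one

variable {k : Type u} {L : Type v} [Field k] [Field L] [Algebra k L]

/-- logarithmic derivative of a Laurent monomial -/
lemma logder_two (δ : Derivation k L L) {x s : L} (hx : x ≠ 0) (hs : s ≠ 0) (e a : ℤ) :
    (x ^ e * s ^ a)⁻¹ * δ (x ^ e * s ^ a) = e * (x⁻¹ * δ x) + a * (s⁻¹ * δ s) := by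
  rw [Derivation.leibniz, Derivation.leibniz_zpow, Derivation.leibniz_zpow, zpow_sub_one₀ hx,
    zpow_sub_one₀ hs]
  have h1 : x ^ e ≠ 0 := zpow_ne_zero _ hx
  have h2 : s ^ a ≠ 0 := zpow_ne_zero _ hs
  simp only [smul_eq_mul, zsmul_eq_mul]
  field_simp
  ring

/-- a bounded derivation which is logarithmic on a residual transcendence basis and on one element
of positive value is logarithmic -/
theorem derivation_log [CharZero k] {m n : ℕ} (hmn : m + 1 = n)
    (ω : Module.Basis (Fin n) L (Ω[L⁄k])) (F : DVal k L) {u : Fin m → L} (hu : ResInd F.ord k u)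
    {s : L} (hs0 : s ≠ 0) (hs : 0 < F.val s) (θ : Derivation k L L) (N : ℤ)
    (hN : ∀ x, 0 ≤ F.ord x → ((N : ℤ) : WithTop ℤ) ≤ F.ord (θ x))
    (hθu : ∀ i, 0 ≤ F.ord (θ (u i))) (hθs : F.ord s ≤ F.ord (θ s)) (x : L) :
    F.ord x ≤ F.ord (θ x) := by
  classical
  obtain ⟨π, hπ⟩ := F.exists_ord_eq_one
  have hπ1 := (F.ord_eq_iff (z := 1)).1 (by exact_mod_cast hπ)
  obtain ⟨hπ0, hπv⟩ := hπ1
  -- the set of lower bounds
  let Bd : ℤ → Prop := fun M => ∀ x : L, x ≠ 0 → ((M : ℤ) : WithTop ℤ) ≤ F.ord (x⁻¹ * θ x)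
  have hBd0 : ∃ M, Bd M := by
    obtain ⟨M, hM1, hM2⟩ : ∃ M : ℤ, M ≤ N ∧ ((M : ℤ) : WithTop ℤ) ≤ F.ord (π⁻¹ * θ π) := by
      by_cases h0 : π⁻¹ * θ π = 0
      · exact ⟨N, le_rfl, by rw [h0, F.ord.map_zero]; exact le_top⟩
      · refine ⟨min N (F.val (π⁻¹ * θ π)), min_le_left _ _, ?_⟩
        rw [F.ord_eq_val h0]
        exact_mod_cast min_le_right _ _
    refine ⟨M, fun x hx => ?_⟩
    set y := x ^ (1 : ℤ) * π ^ (-F.val x) with hy
    have hpz : π ^ (-F.val x) ≠ 0 := zpow_ne_zero _ hπ0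
    have hx1 : x ^ (1 : ℤ) ≠ 0 := zpow_ne_zero _ hx
    have hy0 : y ≠ 0 := mul_ne_zero hx1 hpz
    have hyv : F.val y = 0 := by
      rw [hy, F.val_mul hx1 hpz, F.val_zpow hx, F.val_zpow hπ0, hπv]; ring
    have h1 := logder_two θ hx hπ0 1 (-F.val x)
    rw [← hy] at h1
    have h2 : x⁻¹ * θ x = y⁻¹ * θ y + (F.val x : L) * (π⁻¹ * θ π) := by
      rw [h1]; push_cast; ring
    rw [h2]
    apply F.ord.map_le_add
    · have h3 : F.ord y⁻¹ = 0 := by
        rw [F.ord_eq_zero_iff]; exact ⟨inv_ne_zero hy0, by rw [F.val_inv hy0, hyv, neg_zero]⟩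
      rw [F.ord.map_mul, h3, zero_add]
      refine le_trans (by exact_mod_cast hM1) (hN y ?_)
      rw [F.nonneg_ord_iff]; right; exact hyv.ge
    · rw [F.ord.map_mul]
      have h4 : 0 ≤ F.ord ((F.val x : ℤ) : L) := by
        have : ((F.val x : ℤ) : L) = algebraMap k L (F.val x) := by simp
        rw [this]; exact F.ord_algebraMap_nonneg _
      calc ((M : ℤ) : WithTop ℤ) = 0 + ((M : ℤ) : WithTop ℤ) := (zero_add _).symm
        _ ≤ _ := add_le_add h4 hM2
  have hstep : ∀ M : ℤ, Bd M → M < 0 → Bd (M + 1) := by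
    intro M hM hM0
    -- rescaled derivation
    set θ' : Derivation k L L := (π ^ (-M)) • θ with hθ'
    have hθ'a : ∀ x, θ' x = π ^ (-M) * θ x := fun x => rfl
    have hπM : F.ord (π ^ (-M)) = ((-M : ℤ) : WithTop ℤ) := by
      rw [F.ord_eq_val (zpow_ne_zero _ hπ0), F.val_zpow hπ0, hπv, mul_one]
    have hlog : ∀ x, x ≠ 0 → 0 ≤ F.ord (x⁻¹ * θ' x) := by
      intro x hx
      have e : x⁻¹ * θ' x = π ^ (-M) * (x⁻¹ * θ x) := by rw [hθ'a]; ring
      rw [e, F.ord.map_mul, hπM]
      calc (0 : WithTop ℤ) = ((-M : ℤ) : WithTop ℤ) + ((M : ℤ) : WithTop ℤ) := by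
            rw [← WithTop.coe_add]; simp
        _ ≤ _ := add_le_add le_rfl (hM x hx)
    have hθ'le : ∀ x, F.ord x ≤ F.ord (θ' x) := by
      intro x
      by_cases hx : x = 0
      · subst hx; simp
      · have e : θ' x = x * (x⁻¹ * θ' x) := by field_simp
        rw [e, F.ord.map_mul]
        exact le_add_of_nonneg_right (hlog x hx)
    have hMpos : (0 : WithTop ℤ) < ((-M : ℤ) : WithTop ℤ) := by
      have : (0 : ℤ) < -M := by omega
      exact_mod_cast this
    have hθ'u : ∀ i, 0 < F.ord (θ' (u i)) := by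
      intro i
      rw [hθ'a, F.ord.map_mul, hπM]
      exact add_pos_of_pos_of_nonneg hMpos (hθu i)
    have hsle : 0 ≤ F.ord (s⁻¹ * θ s) := by
      rw [F.ord.map_mul, F.ord_eq_val (inv_ne_zero hs0), F.val_inv hs0]
      rw [F.ord_eq_val hs0] at hθs
      calc (0 : WithTop ℤ) = ((-F.val s : ℤ) : WithTop ℤ) + ((F.val s : ℤ) : WithTop ℤ) := by
            rw [← WithTop.coe_add]; simp
        _ ≤ _ := add_le_add le_rfl hθs
    have hθ's : 0 < F.ord (s⁻¹ * θ' s) := by
      have e : s⁻¹ * θ' s = π ^ (-M) * (s⁻¹ * θ s) := by rw [hθ'a]; ring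
      rw [e, F.ord.map_mul, hπM]
      exact add_pos_of_pos_of_nonneg hMpos hsle
    have hsne : F.ord s ≠ 0 := by
      intro h
      have := (F.ord_eq_zero_iff.1 h).2
      omega
    have hpos : ∀ z, 0 ≤ F.ord z → 0 < F.ord (θ' z) := fun z hz =>
      derivation_pos F.ord hmn ω hu hs0 hsne θ' hθ'le hθ'u hz
    have hall : ∀ x, x ≠ 0 → 0 < F.ord (x⁻¹ * θ' x) := by
      intro x hx
      set y := x ^ (F.val s) * s ^ (-F.val x) with hy
      have h1 : x ^ (F.val s) ≠ 0 := zpow_ne_zero _ hx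
      have h2 : s ^ (-F.val x) ≠ 0 := zpow_ne_zero _ hs0
      have hy0 : y ≠ 0 := mul_ne_zero h1 h2
      have hyv : F.val y = 0 := by
        rw [hy, F.val_mul h1 h2, F.val_zpow hx, F.val_zpow hs0]; ring
      have h3 := logder_two θ' hx hs0 (F.val s) (-F.val x)
      rw [← hy] at h3
      have h4 : (F.val s : L) * (x⁻¹ * θ' x) = y⁻¹ * θ' y + (F.val x : L) * (s⁻¹ * θ' s) := by
        rw [h3]; push_cast; ring
      have h5 : F.ord y⁻¹ = 0 := by
        rw [F.ord_eq_zero_iff]; exact ⟨inv_ne_zero hy0, by rw [F.val_inv hy0, hyv, neg_zero]⟩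
      have h6 : 0 < F.ord ((F.val s : L) * (x⁻¹ * θ' x)) := by
        rw [h4]
        apply F.ord.map_lt_add
        · rw [F.ord.map_mul, h5, zero_add]
          exact hpos y (by rw [F.nonneg_ord_iff]; right; exact hyv.ge)
        · rw [F.ord.map_mul]
          refine add_pos_nn ?_ hθ's
          have : ((F.val x : ℤ) : L) = algebraMap k L (F.val x) := by simp
          rw [this]; exact F.ord_algebraMap_nonneg _
      have h7 : F.ord ((F.val s : ℤ) : L) = 0 := by
        have : ((F.val s : ℤ) : L) = algebraMap k L (F.val s) := by simp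
        rw [this]
        apply F.ord_algebraMap
        exact_mod_cast hs.ne'
      rwa [F.ord.map_mul, h7, zero_add] at h6
    intro x hx
    have e : x⁻¹ * θ x = π ^ M * (x⁻¹ * θ' x) := by
      rw [hθ'a]
      have h1 : π ^ M * π ^ (-M) = 1 := by rw [← zpow_add₀ hπ0]; simp
      linear_combination (-(x⁻¹ * θ x)) * h1
    have h8 := hall x hx
    by_cases h0 : x⁻¹ * θ' x = 0
    · rw [e, h0, mul_zero, F.ord.map_zero]; exact le_top
    · rw [e, F.ord.map_mul, F.ord_eq_val (zpow_ne_zero _ hπ0), F.val_zpow hπ0, hπv, mul_one,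
        F.ord_eq_val h0]
      have h9 := (F.pos_ord_iff.1 h8).resolve_left h0
      norm_cast
      omega
  have h0 : Bd 0 := by
    obtain ⟨M, hM⟩ := hBd0
    rcases le_total 0 M with h | h
    · intro x hx
      exact le_trans (by exact_mod_cast h) (hM x hx)
    · have h1 : ∀ j : ℕ, (j : ℤ) ≤ -M → Bd (M + j) := by
        intro j
        induction j with
        | zero => intro _; simpa using hM
        | succ j ih =>
          intro hj
          push_cast at hj
          have h2 := hstep (M + j) (ih (by omega)) (by omega)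
          have e : M + ((j + 1 : ℕ) : ℤ) = M + j + 1 := by push_cast; ring
          rw [e]; exact h2
      have h3 := h1 (-M).toNat (by rw [Int.toNat_of_nonneg (by omega)])
      rw [Int.toNat_of_nonneg (by omega)] at h3
      simpa using h3
  by_cases hx : x = 0
  · subst hx; simp
  · have e : θ x = x * (x⁻¹ * θ x) := by field_simp
    rw [e, F.ord.map_mul]
    exact le_add_of_nonneg_right (by simpa using h0 x hx)

end one

section basis

variable {k : Type u} {L : Type v} [Field k] [Field L] [Algebra k L] [CharZero k]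

/-- the differentials of a transcendence basis are a basis of the differentials -/
lemma exists_basis_of_isTranscendenceBasis {ι : Type*} {x : ι → L}
    (hx : IsTranscendenceBasis k x) :
    ∃ b : Module.Basis ι L (Ω[L⁄k]), ∀ i, b i = D k L (x i) := by
  let _ : Algebra (MvPolynomial ι k) L := (aeval x : MvPolynomial ι k →ₐ[k] L).toRingHom.toAlgebra
  have halg : algebraMap (MvPolynomial ι k) L = (aeval x : MvPolynomial ι k →ₐ[k] L) := rfl
  have := formallyEtale_of_isTranscendenceBasis hx halg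
  have : IsScalarTower k (MvPolynomial ι k) L := IsScalarTower.of_algebraMap_eq fun c => by
    rw [halg]; simp
  refine ⟨((mvPolynomialBasis k ι).baseChange L).map
    (tensorKaehlerEquivOfFormallyEtale k (MvPolynomial ι k) L), fun i => ?_⟩
  rw [Module.Basis.map_apply, Module.Basis.baseChange_apply, mvPolynomialBasis_apply,
    tensorKaehlerEquivOfFormallyEtale_apply, mapBaseChange_tmul, one_smul, map_D, halg]
  simp

/-- an element of nonzero value and residually independent elements give a basis of the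
differentials -/
theorem exists_basis_resInd {m n : ℕ} (hmn : m + 1 = n)
    (ω : Module.Basis (Fin n) L (Ω[L⁄k])) (v : AddValuation L (WithTop ℤ)) {u : Fin m → L}
    (hu : ResInd v k u) {s : L} (hs0 : s ≠ 0) (hs : v s ≠ 0) :
    ∃ b : Module.Basis (Option (Fin m)) L (Ω[L⁄k]), b none = D k L s ∧
      ∀ i, b (some i) = D k L (u i) := by
  classical
  let x : Option (Fin m) → L := fun o => o.elim s u
  have hx : AlgebraicIndependent k x := by
    rw [algebraicIndependent_iff]
    intro Q hQ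
    by_contra hQ0
    have h2 := opt_eval x Q
    rw [hQ] at h2
    have hne : optionEquivLeft k (Fin m) Q ≠ 0 := by
      intro h
      exact hQ0 ((optionEquivLeft k (Fin m)).injective (h.trans (map_zero _).symm))
    exact eval₂_ne_zero v _ (fun r hr => hu.2 r hr) hs0 hs hne h2
  have htr : IsTranscendenceBasis k x := by
    refine hx.isTranscendenceBasis_of_lift_trdeg_le ?_ ?_
    · rw [trdeg_eq_of_basis ω]; exact Cardinal.natCast_lt_aleph0
    · rw [trdeg_eq_of_basis ω]
      simp
      exact_mod_cast hmn.ge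
  obtain ⟨b, hb⟩ := exists_basis_of_isTranscendenceBasis htr
  exact ⟨b, hb none, fun i => hb (some i)⟩

end basis

section two

variable {k : Type u} {K L : Type v} [Field k] [Field K] [Field L] [Algebra k K] [Algebra k L]
  [Algebra K L] [IsScalarTower k K L]

omit [Algebra k K] [IsScalarTower k K L] [Algebra K L] [Field K] in
lemma exists_lower_bound (F : DVal k L) {r : ℕ} (z : Fin r → L) :
    ∃ M : ℤ, ∀ i, ((M : ℤ) : WithTop ℤ) ≤ F.ord (z i) := by
  refine ⟨-∑ i, |F.val (z i)|, fun i => ?_⟩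
  rw [F.le_ord_iff]
  right
  have h1 : |F.val (z i)| ≤ ∑ i, |F.val (z i)| :=
    Finset.single_le_sum (f := fun i => |F.val (z i)|) (fun i _ => abs_nonneg _)
      (Finset.mem_univ i)
  have h2 := neg_abs_le (F.val (z i))
  linarith

/-- boundedness of a derivation on the valuation ring of an extension -/
theorem bounded_of_ramified (E : DVal k K) (F : DVal k L) {r : ℕ} (T : Fin r → L)
    (hEF : ∀ f : K, 0 ≤ E.ord f → 0 ≤ F.ord (algebraMap K L f))
    (hfin : ∀ x : L, 0 ≤ F.ord x → ∃ a b : Fin r → K, (∀ i, 0 ≤ E.ord (a i)) ∧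
      (∀ i, 0 ≤ E.ord (b i)) ∧ F.ord (∑ i, algebraMap K L (b i) * T i) = 0 ∧
        x * (∑ i, algebraMap K L (b i) * T i) = ∑ i, algebraMap K L (a i) * T i)
    (θ : Derivation k L L) (N0 : ℤ)
    (hN0 : ∀ f : K, 0 ≤ E.ord f → ((N0 : ℤ) : WithTop ℤ) ≤ F.ord (θ (algebraMap K L f))) :
    ∃ N : ℤ, ∀ x, 0 ≤ F.ord x → ((N : ℤ) : WithTop ℤ) ≤ F.ord (θ x) := by
  obtain ⟨M1, hM1⟩ := exists_lower_bound F T
  obtain ⟨M2, hM2⟩ := exists_lower_bound F (fun i => θ (T i))
  set N : ℤ := min (M1 + N0) M2 with hN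
  have key : ∀ a : Fin r → K, (∀ i, 0 ≤ E.ord (a i)) →
      ((N : ℤ) : WithTop ℤ) ≤ F.ord (θ (∑ i, algebraMap K L (a i) * T i)) := by
    intro a ha
    rw [map_sum]
    refine F.ord.map_le_sum fun i _ => ?_
    rw [Derivation.leibniz, smul_eq_mul, smul_eq_mul]
    apply F.ord.map_le_add
    · rw [F.ord.map_mul]
      calc ((N : ℤ) : WithTop ℤ) ≤ ((M2 : ℤ) : WithTop ℤ) := by exact_mod_cast min_le_right _ _
        _ = 0 + ((M2 : ℤ) : WithTop ℤ) := (zero_add _).symm
        _ ≤ _ := add_le_add (hEF _ (ha i)) (hM2 i)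
    · rw [F.ord.map_mul]
      calc ((N : ℤ) : WithTop ℤ) ≤ ((M1 + N0 : ℤ) : WithTop ℤ) := by
            exact_mod_cast min_le_left _ _
        _ = ((M1 : ℤ) : WithTop ℤ) + ((N0 : ℤ) : WithTop ℤ) := by rw [← WithTop.coe_add]
        _ ≤ _ := add_le_add (hM1 i) (hN0 _ (ha i))
  refine ⟨N, fun x hx => ?_⟩
  obtain ⟨a, b, ha, hb, hb0, hxb⟩ := hfin x hx
  set s := ∑ i, algebraMap K L (b i) * T i with hs
  have h1 : θ x * s = θ (∑ i, algebraMap K L (a i) * T i) - x * θ s := by
    rw [← hxb, Derivation.leibniz, smul_eq_mul, smul_eq_mul]; ring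
  have h2 : ((N : ℤ) : WithTop ℤ) ≤ F.ord (θ x * s) := by
    rw [h1]
    apply F.ord.map_le_sub (key a ha)
    rw [F.ord.map_mul]
    calc ((N : ℤ) : WithTop ℤ) = 0 + ((N : ℤ) : WithTop ℤ) := (zero_add _).symm
      _ ≤ _ := add_le_add hx (key b hb)
  rwa [F.ord.map_mul, hb0, add_zero] at h2

omit [Algebra k K] [IsScalarTower k K L] [Algebra K L] [Field K] in
lemma det_update_basis {n : ℕ} (ω η : Module.Basis (Fin n) L (Ω[L⁄k])) (i : Fin n) (x : Ω[L⁄k]) :
    ω.det (Function.update η i x) = η.repr x i * ω.det η := by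
  classical
  have h1 : x = ∑ j, η.repr x j • η j := (η.sum_repr x).symm
  conv_lhs => rw [h1]
  rw [AlternatingMap.map_update_sum, Finset.sum_eq_single i]
  · rw [AlternatingMap.map_update_smul, Function.update_eq_self, smul_eq_mul]
  · intro j _ hj
    rw [AlternatingMap.map_update_smul]
    have h2 : ω.det (Function.update η i (η j)) = 0 := by
      refine ω.det.map_eq_zero_of_eq _ ?_ hj
      rw [Function.update_self, Function.update_of_ne hj]
    rw [h2, smul_zero]
  · intro h; exact absurd (Finset.mem_univ _) h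

/-- logarithmic forms on `L` have at most simple poles along `E` -/
theorem log_forms_ramified [CharZero k] {n : ℕ} (E : DVal k K) (hE : E.IsDivisorial n)
    (ω : Module.Basis (Fin n) K (Ω[K⁄k])) (ωL : Module.Basis (Fin n) L (Ω[L⁄k]))
    (hω : ∀ i, ωL i = KaehlerDifferential.map k k K L (ω i)) {f : ℤ} (hf : E.FormOrd ω f)
    (F : DVal k L) {e : ℕ} (he : 0 < e)
    (hFE : ∀ g : K, g ≠ 0 → F.val (algebraMap K L g) = e * E.val g) {r : ℕ} (T : Fin r → L)
    (hfin : ∀ x : L, 0 ≤ F.ord x → ∃ a b : Fin r → K, (∀ i, 0 ≤ E.ord (a i)) ∧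
      (∀ i, 0 ≤ E.ord (b i)) ∧ F.ord (∑ i, algebraMap K L (b i) * T i) = 0 ∧
        x * (∑ i, algebraMap K L (b i) * T i) = ∑ i, algebraMap K L (a i) * T i)
    (y : Fin n → L) (hy : ∀ i, y i ≠ 0) :
    ((-(e * (f + 1)) : ℤ) : WithTop ℤ) ≤ F.ord (ωL.det fun i => dlog k (y i)) := by
  classical
  obtain ⟨m, u, hmn, hu, huP⟩ := hE
  subst hmn
  have hinj : ∀ g : K, g ≠ 0 → algebraMap K L g ≠ 0 := fun g hg h =>
    hg ((algebraMap K L).injective (h.trans (map_zero _).symm))
  have hFord : ∀ (g : K) (z : ℤ), ((z : ℤ) : WithTop ℤ) ≤ E.ord g →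
      ((e * z : ℤ) : WithTop ℤ) ≤ F.ord (algebraMap K L g) := by
    intro g z hz
    by_cases hg : g = 0
    · subst hg; simp
    · rw [F.ord_eq_val (hinj g hg), hFE g hg]
      rw [E.ord_eq_val hg] at hz
      have h1 : z ≤ E.val g := by exact_mod_cast hz
      have h2 : (e : ℤ) * z ≤ e * E.val g := by
        apply mul_le_mul_of_nonneg_left h1; positivity
      exact_mod_cast h2
  have hEF : ∀ g : K, 0 ≤ E.ord g → 0 ≤ F.ord (algebraMap K L g) := by
    intro g hg
    have := hFord g 0 (by exact_mod_cast hg)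
    simpa using this
  obtain ⟨s0, hs0⟩ := E.exists_ord_eq_one
  obtain ⟨hs00, hs0v⟩ := (E.ord_eq_iff (z := 1)).1 (by exact_mod_cast hs0)
  set s := algebraMap K L s0 with hs
  have hsL0 : s ≠ 0 := hinj s0 hs00
  have hsv : F.val s = e := by rw [hs, hFE s0 hs00, hs0v, mul_one]
  have hspos : 0 < F.val s := by rw [hsv]; exact_mod_cast he
  have hsne : F.ord s ≠ 0 := by
    intro h
    have := (F.ord_eq_zero_iff.1 h).2
    omega
  have hu' : ResInd F.ord k (fun i => algebraMap K L (u i)) := by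
    refine ⟨fun i => hEF _ (hu i), fun P hP => ?_⟩
    have h1 := E.ord_eq_zero_iff.1 (huP P hP)
    have h2 : aeval (fun i => algebraMap K L (u i)) P = algebraMap K L (aeval u P) :=
      aeval_algebraMap_apply L u P
    rw [h2, F.ord_eq_zero_iff]
    exact ⟨hinj _ h1.1, by rw [hFE _ h1.1, h1.2, mul_zero]⟩
  obtain ⟨b, hb0, hbs⟩ := exists_basis_resInd rfl ωL F.ord hu' hsL0 hsne
  let η : Module.Basis (Fin (m + 1)) L (Ω[L⁄k]) := b.reindex (finSuccEquiv m).symm
  set z : Fin (m + 1) → K := Fin.cons s0 u with hz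
  have hz0 : ∀ i, 0 ≤ E.ord (z i) := by
    intro i
    refine Fin.cases ?_ (fun i => ?_) i
    · change 0 ≤ E.ord s0
      rw [hs0]; exact zero_le_one
    · exact hu i
  have hη : ∀ i, η i = D k L (algebraMap K L (z i)) := by
    intro i
    rw [Module.Basis.reindex_apply, Equiv.symm_symm]
    refine Fin.cases ?_ (fun i => ?_) i
    · rw [finSuccEquiv_zero]; exact hb0
    · rw [finSuccEquiv_succ]; exact hbs i
  have hdetη : (η : Fin (m + 1) → Ω[L⁄k]) = fun i => D k L (algebraMap K L (z i)) := funext hη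
  have hdet0 : ωL.det η ≠ 0 := det_ne_zero ωL η
  have hdetK : ωL.det η = algebraMap K L (ω.det fun i => D k K (z i)) := by
    rw [hdetη, det_pullback ω ωL hω]
  have hdetF : ((e * (-f) : ℤ) : WithTop ℤ) ≤ F.ord (ωL.det η) := by
    rw [hdetK]
    exact hFord _ _ (hf.1 z hz0)
  -- the dual derivations
  set c : Fin (m + 1) → L := fun i => if i = 0 then s else 1 with hc
  have hc0 : ∀ i, c i ≠ 0 := by
    intro i
    simp only [hc]
    split_ifs
    · exact hsL0
    · exact one_ne_zero
  have hcF : ∀ i, 0 ≤ F.ord (c i) := by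
    intro i
    simp only [hc]
    split_ifs
    · rw [F.nonneg_ord_iff]; right; exact hspos.le
    · rw [F.ord.map_one]
  let θ : Fin (m + 1) → Derivation k L L := fun i => c i • (η.coord i).compDer (D k L)
  have hθ : ∀ i x, θ i x = c i * η.repr (D k L x) i := fun i x => rfl
  have hθz : ∀ i j, θ i (algebraMap K L (z j)) = if j = i then c i else 0 := by
    intro i j
    rw [hθ, ← hη, Module.Basis.repr_self, Finsupp.single_apply]
    split_ifs <;> simp
  have hθK : ∀ i, ∃ N0 : ℤ, ∀ g : K, 0 ≤ E.ord g →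
      ((N0 : ℤ) : WithTop ℤ) ≤ F.ord (θ i (algebraMap K L g)) := by
    intro i
    refine ⟨e * (-f) - F.val (ωL.det η), fun g hg => ?_⟩
    have h1 : Function.update η i (D k L (algebraMap K L g)) =
        fun j => D k L (algebraMap K L (Function.update z i g j)) := by
      funext j
      by_cases hj : j = i
      · subst hj; simp
      · rw [Function.update_of_ne hj, Function.update_of_ne hj, hη]
    have h2 := det_update_basis ωL η i (D k L (algebraMap K L g))
    rw [h1, det_pullback ω ωL hω] at h2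
    have h3 : ((e * (-f) : ℤ) : WithTop ℤ) ≤
        F.ord (η.repr (D k L (algebraMap K L g)) i * ωL.det η) := by
      rw [← h2]
      apply hFord
      apply hf.1
      intro j
      by_cases hj : j = i
      · subst hj; rw [Function.update_self]; exact hg
      · rw [Function.update_of_ne hj]; exact hz0 j
    rw [hθ, F.ord.map_mul]
    by_cases h0 : η.repr (D k L (algebraMap K L g)) i = 0
    · rw [h0, F.ord.map_zero, WithTop.add_top]; exact le_top
    · rw [F.ord.map_mul, F.ord_eq_val h0, F.ord_eq_val hdet0] at h3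
      have h4 : (e : ℤ) * (-f) ≤ F.val (η.repr (D k L (algebraMap K L g)) i) +
          F.val (ωL.det η) := by exact_mod_cast h3
      rw [F.ord_eq_val h0]
      calc ((e * (-f) - F.val (ωL.det η) : ℤ) : WithTop ℤ) ≤
          ((F.val (η.repr (D k L (algebraMap K L g)) i) : ℤ) : WithTop ℤ) := by
            exact_mod_cast (by linarith :
              (e : ℤ) * (-f) - F.val (ωL.det η) ≤ F.val (η.repr (D k L (algebraMap K L g)) i))
        _ = 0 + ((F.val (η.repr (D k L (algebraMap K L g)) i) : ℤ) : WithTop ℤ) :=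
            (zero_add _).symm
        _ ≤ _ := add_le_add (hcF i) le_rfl
  have hθlog : ∀ i x, F.ord x ≤ F.ord (θ i x) := by
    intro i
    obtain ⟨N0, hN0⟩ := hθK i
    obtain ⟨N, hN⟩ := bounded_of_ramified E F T hEF hfin (θ i) N0 hN0
    refine derivation_log rfl ωL F hu' hsL0 hspos (θ i) N hN (fun j => ?_) ?_
    · have h1 := hθz i j.succ
      have h2 : z j.succ = u j := rfl
      rw [h2] at h1
      rw [h1]
      split_ifs
      · exact hcF i
      · simp
    · have h1 := hθz i 0
      have h2 : z 0 = s0 := rfl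
      rw [h2] at h1
      rw [← hs] at h1
      rw [h1]
      split_ifs with h
      · subst h
        simp only [hc, if_true]
        exact le_rfl
      · simp
  -- the determinant
  have hprodc : ∏ i, c i = s := by
    rw [Fin.prod_univ_succ]
    have h1 : ∀ i : Fin m, c i.succ = 1 := fun i => if_neg (Fin.succ_ne_zero i)
    simp_rw [h1]
    rw [Finset.prod_const_one, mul_one]
    exact if_pos rfl
  have hmat : s * η.det (fun i => dlog k (y i)) =
      Matrix.det (Matrix.of fun i j => (y j)⁻¹ * θ i (y j)) := by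
    rw [Module.Basis.det_apply, ← hprodc, ← Matrix.det_mul_column]
    congr 1
    ext i j
    rw [Matrix.of_apply, Matrix.of_apply, Module.Basis.toMatrix_apply, dlog, map_smul,
      Finsupp.smul_apply, smul_eq_mul, hθ]
    ring
  have hmat0 : 0 ≤ F.ord (s * η.det (fun i => dlog k (y i))) := by
    rw [hmat]
    have := det_nonneg_of F.ord (Matrix.of fun i j => (y j)⁻¹ * θ i (y j)) (fun i j => by
      rw [Matrix.of_apply, F.ord.map_mul, F.ord_eq_val (inv_ne_zero (hy j)), F.val_inv (hy j)]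
      have h1 := hθlog i (y j)
      rw [F.ord_eq_val (hy j)] at h1
      calc (0 : WithTop ℤ) = ((-F.val (y j) : ℤ) : WithTop ℤ) + ((F.val (y j) : ℤ) : WithTop ℤ) := by
            rw [← WithTop.coe_add]; simp
        _ ≤ _ := add_le_add le_rfl h1)
    simpa using this
  rw [det_change ωL η, F.ord.map_mul]
  rw [F.ord.map_mul, F.ord_eq_val hsL0, hsv] at hmat0
  by_cases h0 : η.det (fun i => dlog k (y i)) = 0
  · rw [h0, F.ord.map_zero, WithTop.add_top]; exact le_top
  · rw [F.ord_eq_val h0] at hmat0 ⊢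
    rw [F.ord_eq_val hdet0] at hdetF ⊢
    have h1 : (0 : ℤ) ≤ e + F.val (η.det (fun i => dlog k (y i))) := by exact_mod_cast hmat0
    have h2 : (e : ℤ) * (-f) ≤ F.val (ωL.det η) := by exact_mod_cast hdetF
    rw [← WithTop.coe_add]
    apply WithTop.coe_le_coe.2
    linarith

end two

end Pool.H32
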