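import Mathlib
import Pool.Agent.H32.Crepant

/-!
# Tame inertia

`O` is a discrete valuation ring containing a field of characteristic zero, `L/K` a finite Galois
extension of its fraction field, `S` the integral closure and `P` a maximal ideal of `S`.
-/

set_option autoImplicit false

open scoped BigOperators nonZeroDivisors Pointwise
open IsDedekindDomain WithZero Pool.Agent.H26

namespace Pool.H32

universe u v

section

variable (O K L S : Type*) [CommRing O] [IsDomain O]
  [IsDiscreteValuationRing O] [Field K] [CharZero K] [Algebra O K] [IsFractionRing O K]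
  [Field L] [Algebra K L] [FiniteDimensional K L] [IsGalois K L] [Algebra O L]
  [IsScalarTower O K L] [CommRing S] [IsDedekindDomain S] [Algebra O S] [Algebra S L]
  [IsScalarTower O S L] [IsFractionRing S L] [IsIntegralClosure S O L]

/-- the order of the inertia group is the ramification index -/
theorem card_inertia (P : HeightOneSpectrum S)
    [P.asIdeal.LiesOver (IsLocalRing.maximalIdeal O)]
    [PerfectField (IsLocalRing.maximalIdeal O).ResidueField] :
    let _ := IsIntegralClosure.MulSemiringAction O K L S
    Nat.card (P.asIdeal.inertia Gal(L/K)) =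
      (IsLocalRing.maximalIdeal O).ramificationIdx' P.asIdeal := by
  let _ := IsIntegralClosure.MulSemiringAction O K L S
  have : Algebra.IsIntegral O S := IsIntegralClosure.isIntegral_algebra O L
  have : IsGaloisGroup Gal(L/K) O S := IsGaloisGroup.of_isFractionRing _ _ _ K L
  have : Module.Finite O S := IsIntegralClosure.finite O K L S
  have hinj : Function.Injective (algebraMap O L) := by
    rw [IsScalarTower.algebraMap_eq O K L]
    exact (algebraMap K L).injective.comp (IsFractionRing.injective O K)
  have : Module.IsTorsionFree O L := Module.isTorsionFree_iff_algebraMap_injective.2 hinj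
  have : Module.IsTorsionFree O S := IsIntegralClosure.isTorsionFree O L
  have hp : IsLocalRing.maximalIdeal O ≠ ⊥ := IsDiscreteValuationRing.not_a_field O
  change Nat.card (P.asIdeal.inertia Gal(L/K)) = _
  rw [Ideal.card_inertia_eq_ramificationIdxIn (IsLocalRing.maximalIdeal O) P.asIdeal,
    Ideal.ramificationIdxIn_eq_ramificationIdx (IsLocalRing.maximalIdeal O) P.asIdeal Gal(L/K),
    Ideal.ramificationIdx'_eq_ramificationIdx (IsLocalRing.maximalIdeal O) P.asIdeal hp]

end

section tame

variable {S L : Type*} [CommRing S] [IsDedekindDomain S] [Field L] [Algebra S L]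
  [IsFractionRing S L] (P : HeightOneSpectrum S)

/-- the additive `P`-adic valuation -/
noncomputable def padd : AddValuation L (WithTop ℤ) := addValOfVal (P.valuation L)

lemma padd_apply {x : L} (hx : x ≠ 0) :
    padd (L := L) P x = ((-(WithZero.log (P.valuation L x)) : ℤ) : WithTop ℤ) :=
  addValOfVal_apply _ hx

lemma le_padd_iff (x : S) (m : ℕ) :
    ((m : ℤ) : WithTop ℤ) ≤ padd (L := L) P (algebraMap S L x) ↔ x ∈ P.asIdeal ^ m := by
  by_cases hx : x = 0
  · subst hx
    rw [map_zero, AddValuation.map_zero]
    exact ⟨fun _ => Ideal.zero_mem _, fun _ => le_top⟩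
  have hxL : algebraMap S L x ≠ 0 := fun h => hx ((IsFractionRing.injective S L)
    (h.trans (map_zero _).symm))
  have hv : P.valuation L (algebraMap S L x) ≠ 0 := (Valuation.ne_zero_iff _).2 hxL
  rw [padd_apply P hxL, ← P.intValuation_le_pow_iff_mem, ← P.valuation_of_algebraMap (K := L),
    ← WithZero.log_le_iff_le_exp hv]
  norm_cast
  constructor <;> intro h <;> omega

lemma padd_nonneg (x : S) : 0 ≤ padd (L := L) P (algebraMap S L x) := by
  have h := (le_padd_iff (L := L) P x 0).2 (by simp)
  simpa using h

lemma mem_iff_padd_pos (x : S) : x ∈ P.asIdeal ↔ 0 < padd (L := L) P (algebraMap S L x) := by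
  have h := le_padd_iff (L := L) P x 1
  rw [pow_one] at h
  rw [← h]
  by_cases hx : algebraMap S L x = 0
  · rw [hx, AddValuation.map_zero]
    exact ⟨fun _ => WithTop.coe_lt_top 0, fun _ => le_top⟩
  · rw [eq_iv _ hx]
    norm_cast

lemma padd_eq_zero_of_notMem {x : S} (hx : x ∉ P.asIdeal) :
    padd (L := L) P (algebraMap S L x) = 0 :=
  le_antisymm (not_lt.1 fun h => hx ((mem_iff_padd_pos P x).2 h)) (padd_nonneg P x)

/-- elements of nonnegative value are in the local ring -/
lemma exists_of_padd_nonneg {x : L} (hx : 0 ≤ padd (L := L) P x) :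
    ∃ a s : S, s ∉ P.asIdeal ∧ x * algebraMap S L s = algebraMap S L a := by
  classical
  by_cases hx0 : x = 0
  · subst hx0
    exact ⟨0, 1, (Ideal.ne_top_iff_one _).1 P.isPrime.ne_top, by simp⟩
  obtain ⟨a, b, hb, hab⟩ := IsFractionRing.div_surjective S x
  have hb0 : b ≠ 0 := nonZeroDivisors.ne_zero hb
  have ha0 : a ≠ 0 := by
    rintro rfl
    rw [map_zero, zero_div] at hab
    exact hx0 hab.symm
  have hinj := IsFractionRing.injective S L
  have hbL : algebraMap S L b ≠ 0 := fun h => hb0 (hinj (h.trans (map_zero _).symm))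
  have haL : algebraMap S L a ≠ 0 := fun h => ha0 (hinj (h.trans (map_zero _).symm))
  have hspan : Ideal.span {b} ≠ ⊥ := by rwa [Ne, Ideal.span_singleton_eq_bot]
  have hprime : Prime P.asIdeal := Ideal.prime_of_isPrime P.ne_bot P.isPrime
  have hfin : FiniteMultiplicity P.asIdeal (Ideal.span {b}) :=
    FiniteMultiplicity.of_prime_left hprime hspan
  obtain ⟨J, hJ, hPJ⟩ := hfin.exists_eq_pow_mul_and_not_dvd
  set m := multiplicity P.asIdeal (Ideal.span {b}) with hm
  have hbm : padd (L := L) P (algebraMap S L b) = ((m : ℤ) : WithTop ℤ) := by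
    apply le_antisymm
    · by_contra hcon
      push Not at hcon
      have h1 : (((m + 1 : ℕ) : ℤ) : WithTop ℤ) ≤ padd (L := L) P (algebraMap S L b) := by
        rw [eq_iv _ hbL] at hcon ⊢
        norm_cast at hcon ⊢
      rw [le_padd_iff, ← Ideal.span_singleton_le_iff_mem, ← Ideal.dvd_iff_le] at h1
      exact hfin.not_pow_dvd_of_multiplicity_lt (Nat.lt_succ_self _) h1
    · rw [le_padd_iff, ← Ideal.span_singleton_le_iff_mem, ← Ideal.dvd_iff_le]
      exact pow_multiplicity_dvd _ _
  have ham : a ∈ P.asIdeal ^ m := by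
    rw [← le_padd_iff (L := L), ← hbm]
    have h1 : algebraMap S L a = x * algebraMap S L b := by
      rw [← hab]; field_simp
    rw [h1, AddValuation.map_mul]
    exact le_add_of_nonneg_left hx
  have hJP : ¬ J ≤ P.asIdeal := fun h => hPJ (Ideal.dvd_iff_le.2 h)
  obtain ⟨j, hj, hjP⟩ := SetLike.not_le_iff_exists.1 hJP
  have h2 : a * j ∈ Ideal.span {b} := by
    rw [hJ]
    exact Ideal.mul_mem_mul ham hj
  obtain ⟨c, hc⟩ := Ideal.mem_span_singleton'.1 h2
  refine ⟨c, j, hjP, ?_⟩
  rw [← hab, div_mul_eq_mul_div, div_eq_iff hbL, ← map_mul, ← map_mul, hc]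

end tame

section inertia

variable (O K L S : Type*) [CommRing O] [IsDomain O]
  [IsDiscreteValuationRing O] [Field K] [CharZero K] [Algebra O K] [IsFractionRing O K]
  [Field L] [Algebra K L] [FiniteDimensional K L] [IsGalois K L] [Algebra O L]
  [IsScalarTower O K L] [CommRing S] [IsDedekindDomain S] [Algebra O S] [Algebra S L]
  [IsScalarTower O S L] [IsFractionRing S L] [IsIntegralClosure S O L]

/-- inertia acts trivially on the residue field -/
lemma inertia_pos (P : HeightOneSpectrum S) :
    let _ := IsIntegralClosure.MulSemiringAction O K L S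
    ∀ σ ∈ P.asIdeal.inertia Gal(L/K), ∀ x : L, 0 ≤ padd (L := L) P x →
      0 < padd (L := L) P (σ x - x) := by
  let _ := IsIntegralClosure.MulSemiringAction O K L S
  intro _ σ hσ x hx
  have hσ' : ∀ y : S, σ • y - y ∈ P.asIdeal := hσ
  have hact : ∀ y : S, algebraMap S L (σ • y) = σ (algebraMap S L y) := fun y =>
    algebraMap_galRestrict_apply O σ y
  obtain ⟨a, s, hs, e⟩ := exists_of_padd_nonneg P hx
  have hs' : σ • s ∉ P.asIdeal := by
    intro h
    apply hs
    have e2 : s = σ • s - (σ • s - s) := by ring
    rw [e2]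
    exact Ideal.sub_mem _ h (hσ' s)
  have hv1 := padd_eq_zero_of_notMem (L := L) P hs
  have hv2 := padd_eq_zero_of_notMem (L := L) P hs'
  have hnum : 0 < padd (L := L) P (algebraMap S L ((σ • a - a) * s - a * (σ • s - s))) := by
    rw [← mem_iff_padd_pos]
    exact Ideal.sub_mem _ (Ideal.mul_mem_right _ _ (hσ' a)) (Ideal.mul_mem_left _ _ (hσ' s))
  have e3 : (σ x - x) * (algebraMap S L (σ • s) * algebraMap S L s) =
      algebraMap S L ((σ • a - a) * s - a * (σ • s - s)) := by
    have e4 : σ x * algebraMap S L (σ • s) = algebraMap S L (σ • a) := by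
      rw [hact, hact, ← map_mul, e]
    rw [map_sub, map_mul, map_mul, map_sub, map_sub]
    linear_combination (algebraMap S L s) * e4 - (algebraMap S L (σ • s)) * e
  rw [← e3, AddValuation.map_mul, AddValuation.map_mul, hv1, hv2, add_zero, add_zero] at hnum
  exact hnum

end inertia

end Pool.H32
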