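import Mathlib
import Pool.Agent.H32.Residue

/-!
# The tame character

A finite group of automorphisms of `L` acting trivially on the residue field of a discrete
valuation of `L` (in residue characteristic zero) is cyclic, and acts on the graded ring through a
faithful character.
-/

set_option autoImplicit false

open scoped BigOperators nonZeroDivisors
open Pool.Agent.H26

namespace Pool.H32

universe u v

section tame

variable {k : Type u} {L : Type v} [Field k] [Field L] [Algebra k L] (F : DVal k L)
variable {I : Type*} [Group I] (act : I →* (L ≃ₐ[k] L))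
  (H : ∀ (g : I) (x : L), 0 ≤ F.ord x → 0 < F.ord (act g x - x))

include H

lemma act_nonneg (g : I) {x : L} (hx : 0 ≤ F.ord x) : 0 ≤ F.ord (act g x) := by
  have e : act g x = x + (act g x - x) := by ring
  rw [e]
  exact F.ord.map_le_add hx (H g x hx).le

lemma act_pos (g : I) {x : L} (hx : 0 < F.ord x) : 0 < F.ord (act g x) := by
  have e : act g x = x + (act g x - x) := by ring
  rw [e]
  exact F.ord.map_lt_add hx (H g x hx.le)

omit H in
lemma act_inv_act (g : I) (x : L) : act g⁻¹ (act g x) = x := by
  have : act g⁻¹ (act g x) = (act g⁻¹ * act g) x := rfl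
  rw [this, ← map_mul, inv_mul_cancel, map_one]
  rfl

/-- the valuation is invariant -/
lemma act_val (g : I) {x : L} (hx : x ≠ 0) : F.val (act g x) = F.val x := by
  obtain ⟨π, hπ⟩ := F.exists_ord_eq_one
  have hπ1 := (F.ord_eq_iff (z := 1)).1 (by exact_mod_cast hπ)
  obtain ⟨hπ0, hπv⟩ := hπ1
  have hne : ∀ (g : I) {x : L}, x ≠ 0 → act g x ≠ 0 := fun g x hx h =>
    hx ((act g).injective (h.trans (map_zero _).symm))
  have hunit : ∀ (g : I) {y : L}, y ≠ 0 → F.val y = 0 → F.val (act g y) = 0 := by
    intro g y hy0 hy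
    have h1 : 0 ≤ F.ord y := F.nonneg_ord_iff.2 (Or.inr hy.ge)
    have h2 := (F.nonneg_ord_iff.1 (act_nonneg F act H g h1)).resolve_left (hne g hy0)
    have h3 : 0 ≤ F.ord y⁻¹ := F.nonneg_ord_iff.2 (Or.inr (by rw [F.val_inv hy0, hy]; rfl))
    have h4 := (F.nonneg_ord_iff.1 (act_nonneg F act H g h3)).resolve_left
      (hne g (inv_ne_zero hy0))
    rw [map_inv₀, F.val_inv (hne g hy0)] at h4
    omega
  have hlin : ∀ (g : I) {x : L}, x ≠ 0 → F.val (act g x) = F.val x * F.val (act g π) := by
    intro g x hx
    set y := x * π ^ (-F.val x) with hy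
    have hy0 : y ≠ 0 := mul_ne_zero hx (zpow_ne_zero _ hπ0)
    have hyv : F.val y = 0 := by
      rw [hy, F.val_mul hx (zpow_ne_zero _ hπ0), F.val_zpow hπ0, hπv]; ring
    have hxy : x = y * π ^ (F.val x) := by
      rw [hy, mul_assoc, ← zpow_add₀ hπ0]; simp
    conv_lhs => rw [hxy]
    rw [map_mul, map_zpow₀, F.val_mul (hne g hy0) (zpow_ne_zero _ (hne g hπ0)), hunit g hy0 hyv,
      F.val_zpow (hne g hπ0)]
    ring
  have h1 : 1 ≤ F.val (act g π) := by
    have h2 : 0 < F.ord π := by rw [hπ]; exact zero_lt_one
    have h3 := (F.pos_ord_iff.1 (act_pos F act H g h2)).resolve_left (hne g hπ0)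
    omega
  have h2 : 1 ≤ F.val (act g⁻¹ π) := by
    have h2 : 0 < F.ord π := by rw [hπ]; exact zero_lt_one
    have h3 := (F.pos_ord_iff.1 (act_pos F act H g⁻¹ h2)).resolve_left (hne g⁻¹ hπ0)
    omega
  have h3 : F.val π = F.val (act g π) * F.val (act g⁻¹ π) := by
    rw [← hlin g⁻¹ (hne g hπ0), act_inv_act act]
  rw [hπv] at h3
  have h4 : F.val (act g π) = 1 := by nlinarith
  rw [hlin g hx, h4, mul_one]

lemma act_ord (g : I) (x : L) : F.ord (act g x) = F.ord x := by
  by_cases hx : x = 0
  · subst hx; rw [map_zero]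
  · have hne : act g x ≠ 0 := fun h => hx ((act g).injective (h.trans (map_zero _).symm))
    rw [F.ord_eq_val hne, F.ord_eq_val hx, act_val F act H g hx]

/-- the action on an element of value `m` is residually multiplication by the `m`-th power of the
action on a uniformiser -/
lemma act_leading {π : L} (hπ : F.ord π = 1) (g : I) {x : L} (hx : x ≠ 0) :
    F.ord x < F.ord (act g x - (act g π / π) ^ (F.val x) * x) := by
  have hπ1 := (F.ord_eq_iff (z := 1)).1 (by exact_mod_cast hπ)
  obtain ⟨hπ0, hπv⟩ := hπ1
  set y := x * π ^ (-F.val x) with hy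
  have hy0 : y ≠ 0 := mul_ne_zero hx (zpow_ne_zero _ hπ0)
  have hyv : F.val y = 0 := by
    rw [hy, F.val_mul hx (zpow_ne_zero _ hπ0), F.val_zpow hπ0, hπv]; ring
  have hxy : x = y * π ^ (F.val x) := by
    rw [hy, mul_assoc, ← zpow_add₀ hπ0]; simp
  have hy1 : 0 ≤ F.ord y := F.nonneg_ord_iff.2 (Or.inr hyv.ge)
  have h1 := H g y hy1
  have h2 : act g x - (act g π / π) ^ (F.val x) * x = (act g π) ^ (F.val x) * (act g y - y) := by
    have h3 : act g x = act g y * (act g π) ^ (F.val x) := by
      conv_lhs => rw [hxy]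
      rw [map_mul, map_zpow₀]
    have h4 : (act g π / π) ^ (F.val x) * x = (act g π) ^ (F.val x) * y := by
      have h5 : (act g π / π) ^ (F.val x) * x = (act g π / π) ^ (F.val x) * (y * π ^ (F.val x)) := by
        rw [← hxy]
      rw [h5, div_zpow]
      have : π ^ (F.val x) ≠ 0 := zpow_ne_zero _ hπ0
      field_simp
    rw [h3, h4]; ring
  have hg0 : act g π ≠ 0 := fun h => hπ0 ((act g).injective (h.trans (map_zero _).symm))
  have h3 : F.val (act g π) = 1 := by rw [act_val F act H g hπ0, hπv]
  rw [h2, F.ord.map_mul, F.ord_eq_val (zpow_ne_zero _ hg0), F.val_zpow hg0, h3, mul_one,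
    F.ord_eq_val hx]
  by_cases h0 : act g y - y = 0
  · rw [h0, F.ord.map_zero, WithTop.add_top]; exact WithTop.coe_lt_top _
  · rw [F.ord_eq_val h0]
    have h4 := (F.pos_ord_iff.1 h1).resolve_left h0
    norm_cast
    omega

/-- an element acting residually trivially on a uniformiser is the identity -/
lemma act_eq_one [CharZero k] [Finite I] (hinj : Function.Injective act) {π : L}
    (hπ : F.ord π = 1) (g : I) (hg : 0 < F.ord (act g π / π - 1)) : g = 1 := by
  have hπ1 := (F.ord_eq_iff (z := 1)).1 (by exact_mod_cast hπ)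
  obtain ⟨hπ0, hπv⟩ := hπ1
  have hg0 : act g π ≠ 0 := fun h => hπ0 ((act g).injective (h.trans (map_zero _).symm))
  set u := act g π / π with hu
  have hu0 : u ≠ 0 := div_ne_zero hg0 hπ0
  have huv : F.val u = 0 := by
    rw [hu, F.val_div hg0 hπ0, act_val F act H g hπ0, sub_self]
  -- powers of u are residually one
  have hpow : ∀ m : ℕ, 0 < F.ord (u ^ m - 1) := by
    intro m
    induction m with
    | zero => simp
    | succ m ih =>
      have e : u ^ (m + 1) - 1 = u * (u ^ m - 1) + (u - 1) := by ring
      rw [e]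
      apply F.ord.map_lt_add _ hg
      rw [F.ord.map_mul, F.ord_eq_val hu0, huv]
      simpa using ih
  have hzpow : ∀ m : ℤ, 0 < F.ord (u ^ m - 1) := by
    intro m
    obtain ⟨a, rfl | rfl⟩ := Int.eq_nat_or_neg m
    · simpa using hpow a
    · have e : u ^ (-(a : ℤ)) - 1 = -(u ^ a)⁻¹ * (u ^ a - 1) := by
        rw [zpow_neg, zpow_natCast]
        have : u ^ a ≠ 0 := pow_ne_zero _ hu0
        field_simp
        ring
      rw [e, F.ord.map_mul, F.ord.map_neg, F.ord_eq_val (inv_ne_zero (pow_ne_zero _ hu0)),
        F.val_inv (pow_ne_zero _ hu0), F.val_pow hu0, huv]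
      simpa using hpow a
  have hstrict : ∀ x : L, x ≠ 0 → F.ord x < F.ord (act g x - x) := by
    intro x hx
    have h1 := act_leading F act H hπ g hx
    have e : act g x - x = (act g x - u ^ (F.val x) * x) + (u ^ (F.val x) - 1) * x := by ring
    rw [e]
    apply F.ord.map_lt_add h1
    rw [F.ord.map_mul]
    have h2 := hzpow (F.val x)
    by_cases h0 : u ^ (F.val x) - 1 = 0
    · rw [h0, F.ord.map_zero, WithTop.top_add, F.ord_eq_val hx]; exact WithTop.coe_lt_top _
    · rw [F.ord_eq_val h0, F.ord_eq_val hx]
      have h3 := (F.pos_ord_iff.1 h2).resolve_left h0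
      rw [← WithTop.coe_add]
      exact WithTop.coe_lt_coe.2 (by omega)
  apply hinj
  rw [map_one]
  ext x
  change act g x = x
  by_contra hne
  have hy0 : act g x - x ≠ 0 := sub_ne_zero.2 hne
  set y := act g x - x with hy
  -- iterate
  have hiter : ∀ i : ℕ, F.ord y < F.ord (act (g ^ i) x - x - (i : L) * y) := by
    intro i
    induction i with
    | zero =>
      simp only [pow_zero, map_one, Nat.cast_zero, zero_mul, sub_zero]
      change F.ord y < F.ord (x - x)
      rw [sub_self, F.ord.map_zero, F.ord_eq_val hy0]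
      exact WithTop.coe_lt_top _
    | succ i ih =>
      set ρ := act (g ^ i) x - x - (i : L) * y with hρ
      have h1 : act (g ^ (i + 1)) x = act g (act (g ^ i) x) := by
        rw [pow_succ', map_mul]; rfl
      have h2 : act (g ^ i) x = x + (i : L) * y + ρ := by rw [hρ]; ring
      have h3 : act (g ^ (i + 1)) x - x - ((i + 1 : ℕ) : L) * y =
          (i : L) * (act g y - y) + act g ρ := by
        rw [h1, h2, map_add, map_add, map_mul, map_natCast]
        have h4 : act g x = x + y := by rw [hy]; ring
        rw [h4]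
        push_cast
        ring
      rw [h3]
      apply F.ord.map_lt_add
      · rw [F.ord.map_mul]
        have h5 := hstrict y hy0
        have h6 : 0 ≤ F.ord ((i : ℕ) : L) := by
          have : ((i : ℕ) : L) = algebraMap k L i := by simp
          rw [this]; exact F.ord_algebraMap_nonneg _
        calc F.ord y < F.ord (act g y - y) := h5
          _ = 0 + F.ord (act g y - y) := (zero_add _).symm
          _ ≤ _ := add_le_add h6 le_rfl
      · rw [act_ord F act H]; exact ih
  have hN : 0 < orderOf g := orderOf_pos g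
  have h7 := hiter (orderOf g)
  rw [pow_orderOf_eq_one, map_one] at h7
  have h8 : (1 : L ≃ₐ[k] L) x - x - ((orderOf g : ℕ) : L) * y = -((orderOf g : ℕ) : L) * y := by
    change x - x - _ = _
    ring
  rw [h8, F.ord.map_mul, F.ord.map_neg] at h7
  have h9 : F.ord ((orderOf g : ℕ) : L) = 0 := by
    have : ((orderOf g : ℕ) : L) = algebraMap k L (orderOf g) := by simp
    rw [this]
    apply F.ord_algebraMap
    exact_mod_cast hN.ne'
  rw [h9, zero_add] at h7
  exact lt_irrefl _ h7

/-- the leading coefficient of the action on a uniformiser is a constant -/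
lemma exists_const_leading [IsAlgClosed k] [Finite I] {π : L}
    (hπ : F.ord π = 1) (g : I) : ∃ ζ : k, 0 < F.ord (act g π / π - algebraMap k L ζ) := by
  classical
  have hπ1 := (F.ord_eq_iff (z := 1)).1 (by exact_mod_cast hπ)
  obtain ⟨hπ0, hπv⟩ := hπ1
  have hg0 : act g π ≠ 0 := fun h => hπ0 ((act g).injective (h.trans (map_zero _).symm))
  set u := act g π / π with hu
  have hu0 : u ≠ 0 := div_ne_zero hg0 hπ0
  have huv : F.val u = 0 := by
    rw [hu, F.val_div hg0 hπ0, act_val F act H g hπ0, sub_self]
  have huo : F.ord u = 0 := F.ord_eq_zero_iff.2 ⟨hu0, huv⟩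
  have hau : act g π = u * π := by rw [hu]; field_simp
  have hgu : F.ord (act g u) = 0 := by rw [act_ord F act H, huo]
  have hdiff : ∀ i : ℕ, 0 < F.ord ((act g u) ^ i - u ^ i) := by
    intro i
    induction i with
    | zero => simp
    | succ i ih =>
      have e : (act g u) ^ (i + 1) - u ^ (i + 1) =
          act g u * ((act g u) ^ i - u ^ i) + u ^ i * (act g u - u) := by ring
      rw [e]
      apply F.ord.map_lt_add
      · rw [F.ord.map_mul, hgu, zero_add]; exact ih
      · rw [F.ord.map_mul, F.ord.map_pow, huo, nsmul_zero, zero_add]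
        exact H g u huo.ge
  have hiter : ∀ i : ℕ, 1 < F.ord (act (g ^ i) π - u ^ i * π) := by
    intro i
    induction i with
    | zero =>
      simp only [pow_zero, map_one, one_mul]
      change 1 < F.ord (π - π)
      rw [sub_self, F.ord.map_zero]
      exact WithTop.coe_lt_top 1
    | succ i ih =>
      set ρ := act (g ^ i) π - u ^ i * π with hρ
      have h1 : act (g ^ (i + 1)) π = act g (act (g ^ i) π) := by
        rw [pow_succ', map_mul]; rfl
      have h2 : act (g ^ i) π = u ^ i * π + ρ := by rw [hρ]; ring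
      have h3 : act (g ^ (i + 1)) π - u ^ (i + 1) * π =
          ((act g u) ^ i - u ^ i) * (u * π) + act g ρ := by
        rw [h1, h2, map_add, map_mul, map_pow, hau]
        ring
      rw [h3]
      apply F.ord.map_lt_add
      · rw [F.ord.map_mul, F.ord.map_mul, huo, zero_add, hπ]
        have h4 := hdiff i
        by_cases h0 : (act g u) ^ i - u ^ i = 0
        · rw [h0, F.ord.map_zero, WithTop.top_add]; exact WithTop.coe_lt_top 1
        · rw [F.ord_eq_val h0]
          have h5 := (F.pos_ord_iff.1 h4).resolve_left h0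
          norm_cast
          omega
      · rw [act_ord F act H]; exact ih
  set N := orderOf g with hN
  have hN0 : 0 < N := orderOf_pos g
  have h7 := hiter N
  rw [pow_orderOf_eq_one, map_one] at h7
  have h8 : (1 : L ≃ₐ[k] L) π - u ^ N * π = -(u ^ N - 1) * π := by
    change π - _ = _
    ring
  have h9 : 0 < F.ord (u ^ N - 1) := by
    rw [h8, F.ord.map_mul, F.ord.map_neg, hπ] at h7
    by_cases h0 : u ^ N - 1 = 0
    · rw [h0, F.ord.map_zero]; exact WithTop.coe_lt_top 0
    · rw [F.ord_eq_val h0] at h7 ⊢
      have h10 : (1 : ℤ) < F.val (u ^ N - 1) + 1 := by exact_mod_cast h7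
      have h11 : (0 : ℤ) < F.val (u ^ N - 1) := by omega
      exact_mod_cast h11
  by_contra hcon
  push Not at hcon
  have hzero : ∀ ζ : k, F.ord (u - algebraMap k L ζ) = 0 := by
    intro ζ
    refine le_antisymm (hcon ζ) ?_
    exact F.ord.map_le_sub huo.ge (F.ord_algebraMap_nonneg ζ)
  have hprod : ∀ s : Multiset k, F.ord ((s.map fun a => u - algebraMap k L a).prod) = 0 := by
    intro s
    induction s using Multiset.induction with
    | empty => simp
    | cons a s ih => rw [Multiset.map_cons, Multiset.prod_cons, F.ord.map_mul, hzero, ih, zero_add]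
  have hmonic : (Polynomial.X ^ N - 1 : Polynomial k).Monic := by
    have := Polynomial.monic_X_pow_sub_C (1 : k) hN0.ne'
    simpa using this
  have hsplit := (IsAlgClosed.splits (Polynomial.X ^ N - 1 : Polynomial k)).eq_prod_roots_of_monic hmonic
  have h10 := congrArg (Polynomial.aeval u) hsplit
  rw [map_multiset_prod, Multiset.map_map] at h10
  have h11 : (Polynomial.aeval u) (Polynomial.X ^ N - 1 : Polynomial k) = u ^ N - 1 := by simp
  rw [h11] at h10
  have h12 : F.ord (u ^ N - 1) = 0 := by
    rw [h10, ← hprod (Polynomial.X ^ N - 1 : Polynomial k).roots]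
    congr 2
    refine Multiset.map_congr rfl fun a _ => ?_
    simp
  rw [h12] at h9
  exact lt_irrefl _ h9

/-- **The tame character.** -/
theorem exists_tame_generator [IsAlgClosed k] [CharZero k] [Finite I]
    (hinj : Function.Injective act) :
    ∃ (g : I) (ζ : k), IsPrimitiveRoot ζ (Nat.card I) ∧ ∀ x : L, x ≠ 0 →
      F.ord x < F.ord (act g x - algebraMap k L (ζ ^ (F.val x)) * x) := by
  classical
  obtain ⟨π, hπ⟩ := F.exists_ord_eq_one
  have hπ1 := (F.ord_eq_iff (z := 1)).1 (by exact_mod_cast hπ)
  obtain ⟨hπ0, hπv⟩ := hπ1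
  have hg0 : ∀ g, act g π ≠ 0 := fun g h => hπ0 ((act g).injective (h.trans (map_zero _).symm))
  have hu0 : ∀ g, act g π / π ≠ 0 := fun g => div_ne_zero (hg0 g) hπ0
  have huv : ∀ g, F.ord (act g π / π) = 0 := fun g => by
    rw [F.ord_eq_zero_iff]
    exact ⟨hu0 g, by rw [F.val_div (hg0 g) hπ0, act_val F act H g hπ0, sub_self]⟩
  choose χ hχ using exists_const_leading F act H hπ
  have huniq : ∀ (y : L) (a b : k), 0 < F.ord (y - algebraMap k L a) →
      0 < F.ord (y - algebraMap k L b) → a = b := by
    intro y a b ha hb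
    by_contra hab
    have h1 : 0 < F.ord (algebraMap k L (a - b)) := by
      have e : algebraMap k L (a - b) = (y - algebraMap k L b) - (y - algebraMap k L a) := by
        rw [map_sub]; ring
      rw [e]
      exact v_sub_pos F.ord hb ha
    rw [F.ord_algebraMap _ (sub_ne_zero.2 hab)] at h1
    exact lt_irrefl _ h1
  have hmul : ∀ g h, χ (g * h) = χ g * χ h := by
    intro g h
    apply huniq (act (g * h) π / π) _ _ (hχ _)
    have e1 : act (g * h) π / π = act g (act h π / π) * (act g π / π) := by
      have : act (g * h) π = act g (act h π) := by rw [map_mul]; rfl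
      rw [this, map_div₀]
      have := hg0 g
      field_simp
    have e2 : act (g * h) π / π - algebraMap k L (χ g * χ h) =
        (act g (act h π / π) - act h π / π) * (act g π / π) +
        ((act h π / π) * (act g π / π - algebraMap k L (χ g)) +
          algebraMap k L (χ g) * (act h π / π - algebraMap k L (χ h))) := by
      rw [e1, map_mul]; ring
    rw [e2]
    apply F.ord.map_lt_add
    · rw [F.ord.map_mul, huv, add_zero]
      exact H g _ (huv h).ge
    · apply F.ord.map_lt_add
      · rw [F.ord.map_mul, huv, zero_add]; exact hχ g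
      · rw [F.ord.map_mul]
        exact add_pos_nn (F.ord_algebraMap_nonneg _) (hχ h)
  have hone : χ 1 = 1 := by
    apply huniq (act 1 π / π) _ _ (hχ _)
    rw [map_one, map_one]
    change 0 < F.ord (π / π - 1)
    rw [div_self hπ0, sub_self, F.ord.map_zero]
    exact WithTop.coe_lt_top 0
  let χ' : I →* k := { toFun := χ, map_one' := hone, map_mul' := hmul }
  have hχinj : Function.Injective χ' := by
    intro g h hgh
    have h1 : χ (g * h⁻¹) = 1 := by
      rw [hmul]
      have h2 : χ g = χ h := hgh
      rw [h2, ← hmul, mul_inv_cancel, hone]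
    have h2 := hχ (g * h⁻¹)
    rw [h1, map_one] at h2
    have h3 := act_eq_one F act H hinj hπ _ h2
    exact mul_inv_eq_one.1 h3
  have hcyc : IsCyclic I := isCyclic_of_injective_ringHom χ' hχinj
  obtain ⟨g, hg⟩ := hcyc.exists_generator
  refine ⟨g, χ g, ?_, fun x hx => ?_⟩
  · have h1 := orderOf_eq_card_of_forall_mem_zpowers hg
    have h2 := orderOf_injective χ' hχinj g
    have h3 := IsPrimitiveRoot.orderOf (χ' g)
    rw [h2, h1] at h3
    exact h3
  · have h1 := act_leading F act H hπ g hx
    set u := act g π / π with hu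
    have hζ0 : χ g ≠ 0 := by
      intro h0
      have h2 := hχ g
      rw [h0, map_zero, sub_zero, huv] at h2
      exact lt_irrefl _ h2
    have hpow : ∀ m : ℕ, 0 < F.ord (u ^ m - algebraMap k L (χ g) ^ m) := by
      intro m
      induction m with
      | zero => simp
      | succ m ih =>
        have e : u ^ (m + 1) - algebraMap k L (χ g) ^ (m + 1) =
            u * (u ^ m - algebraMap k L (χ g) ^ m) +
            algebraMap k L (χ g) ^ m * (u - algebraMap k L (χ g)) := by ring
        rw [e]
        apply F.ord.map_lt_add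
        · rw [F.ord.map_mul, huv, zero_add]; exact ih
        · rw [F.ord.map_mul, F.ord.map_pow, F.ord_algebraMap _ hζ0, nsmul_zero, zero_add]
          exact hχ g
    have hzpow : ∀ m : ℤ, 0 < F.ord (u ^ m - algebraMap k L (χ g) ^ m) := by
      intro m
      have hζL : algebraMap k L (χ g) ≠ 0 := fun h => hζ0
        ((algebraMap k L).injective (h.trans (map_zero _).symm))
      obtain ⟨a, rfl | rfl⟩ := Int.eq_nat_or_neg m
      · simpa using hpow a
      · have h3 : u ^ a ≠ 0 := pow_ne_zero _ (hu0 g)
        have h4 : algebraMap k L (χ g) ^ a ≠ 0 := pow_ne_zero _ hζL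
        have e : u ^ (-(a : ℤ)) - algebraMap k L (χ g) ^ (-(a : ℤ)) =
            -((u ^ a)⁻¹ * (algebraMap k L (χ g) ^ a)⁻¹) * (u ^ a - algebraMap k L (χ g) ^ a) := by
          rw [zpow_neg, zpow_natCast, zpow_neg, zpow_natCast]
          field_simp
          ring
        have h5 : F.val u = 0 := (F.ord_eq_zero_iff.1 (huv g)).2
        have h6 : F.val (algebraMap k L (χ g)) = 0 := F.val_algebraMap _
        rw [e, F.ord.map_mul, F.ord.map_neg, F.ord.map_mul,
          F.ord_eq_val (inv_ne_zero h3), F.ord_eq_val (inv_ne_zero h4), F.val_inv h3, F.val_inv h4,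
          F.val_pow (hu0 g), F.val_pow hζL, h5, h6]
        simpa using hpow a
    have e : act g x - algebraMap k L (χ g ^ (F.val x)) * x =
        (act g x - u ^ (F.val x) * x) + (u ^ (F.val x) - algebraMap k L (χ g) ^ (F.val x)) * x := by
      rw [map_zpow₀]; ring
    rw [e]
    apply F.ord.map_lt_add h1
    rw [F.ord.map_mul]
    have h2 := hzpow (F.val x)
    by_cases h0 : u ^ (F.val x) - algebraMap k L (χ g) ^ (F.val x) = 0
    · rw [h0, F.ord.map_zero, WithTop.top_add, F.ord_eq_val hx]; exact WithTop.coe_lt_top _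
    · rw [F.ord_eq_val h0, F.ord_eq_val hx]
      have h3 := (F.pos_ord_iff.1 h2).resolve_left h0
      rw [← WithTop.coe_add]
      exact WithTop.coe_lt_coe.2 (by omega)

end tame

end Pool.H32
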