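import Mathlib
import Pool.Agent.H32.Ram
import Pool.Agent.H32.Tame

/-!
# Extending a divisorial valuation to a Galois extension
-/

set_option autoImplicit false

open scoped BigOperators nonZeroDivisors Pointwise
open IsDedekindDomain WithZero Pool.Agent.H26

namespace Pool.H32

universe u v

section vsub

variable {k : Type u} {K : Type v} [Field k] [Field K] [Algebra k K]

/-- the valuation ring as a subalgebra -/
def vsub (E : DVal k K) : Subalgebra k K where
  carrier := {x | 0 ≤ E.ord x}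
  mul_mem' := by
    intro a b ha hb
    change 0 ≤ E.ord (a * b)
    rw [E.ord.map_mul]; exact add_nonneg ha hb
  add_mem' := by
    intro a b ha hb
    exact E.ord.map_le_add ha hb
  algebraMap_mem' := fun c => E.ord_algebraMap_nonneg c

variable (E : DVal k K)

lemma mem_vsub {x : K} : x ∈ vsub E ↔ 0 ≤ E.ord x := Iff.rfl

lemma vsub_isUnit_iff (x : vsub E) : IsUnit x ↔ E.ord (x : K) = 0 := by
  constructor
  · rintro ⟨y, rfl⟩
    have h1 : ((y : vsub E) : K) * ((y⁻¹ : (vsub E)ˣ) : vsub E) = 1 :=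
      congrArg (fun z : vsub E => (z : K)) (Units.mul_inv y)
    have h2 := E.ord.map_mul ((y : vsub E) : K) ((y⁻¹ : (vsub E)ˣ) : vsub E)
    rw [h1, E.ord.map_one] at h2
    have h3 : 0 ≤ E.ord (((y⁻¹ : (vsub E)ˣ) : vsub E) : K) := ((y⁻¹ : (vsub E)ˣ) : vsub E).2
    have h4 : 0 ≤ E.ord ((y : vsub E) : K) := (y : vsub E).2
    refine le_antisymm ?_ h4
    rw [h2]
    exact le_add_of_nonneg_right h3
  · intro h
    obtain ⟨hx0, hv⟩ := E.ord_eq_zero_iff.1 h
    have h2 : (x : K)⁻¹ ∈ vsub E := by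
      rw [mem_vsub, E.nonneg_ord_iff, E.val_inv hx0, hv]
      right; rfl
    exact IsUnit.of_mul_eq_one ⟨_, h2⟩ (Subtype.ext (mul_inv_cancel₀ hx0))

instance : IsDomain (vsub E) := inferInstance

lemma vsub_exists_irreducible : ∃ p : vsub E, E.ord (p : K) = 1 ∧ Irreducible p ∧
    ∀ {x : vsub E}, x ≠ 0 → ∃ n : ℕ, Associated (p ^ n) x := by
  obtain ⟨π, hπ⟩ := E.exists_ord_eq_one
  have hπ1 := (E.ord_eq_iff (z := 1)).1 (by exact_mod_cast hπ)
  obtain ⟨hπ0, hπv⟩ := hπ1
  have hπm : π ∈ vsub E := by rw [mem_vsub, hπ]; exact zero_le_one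
  refine ⟨⟨π, hπm⟩, hπ, ⟨?_, ?_⟩, ?_⟩
  · rw [vsub_isUnit_iff]
    change E.ord π ≠ 0
    rw [hπ]; exact one_ne_zero
  · intro a b hab
    have h1 : π = (a : K) * b := congrArg (fun z : vsub E => (z : K)) hab
    have ha0 : (a : K) ≠ 0 := fun h => hπ0 (by rw [h1, h, zero_mul])
    have hb0 : (b : K) ≠ 0 := fun h => hπ0 (by rw [h1, h, mul_zero])
    have h2 : E.val (a : K) + E.val (b : K) = 1 := by rw [← E.val_mul ha0 hb0, ← h1, hπv]
    have h3 := (E.nonneg_ord_iff.1 a.2).resolve_left ha0
    have h4 := (E.nonneg_ord_iff.1 b.2).resolve_left hb0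
    rw [vsub_isUnit_iff, vsub_isUnit_iff, E.ord_eq_zero_iff, E.ord_eq_zero_iff]
    by_cases h : E.val (a : K) = 0
    · left; exact ⟨ha0, h⟩
    · right; exact ⟨hb0, by omega⟩
  · intro x hx
    have hx0 : (x : K) ≠ 0 := fun h => hx (Subtype.ext h)
    have h3 := (E.nonneg_ord_iff.1 x.2).resolve_left hx0
    refine ⟨(E.val (x : K)).toNat, ?_⟩
    set n := (E.val (x : K)).toNat with hn
    have hnv : (n : ℤ) = E.val (x : K) := Int.toNat_of_nonneg h3
    have hy : E.val ((x : K) * (π ^ n)⁻¹) = 0 := by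
      rw [E.val_mul hx0 (inv_ne_zero (pow_ne_zero _ hπ0)), E.val_inv (pow_ne_zero _ hπ0),
        E.val_pow hπ0, hπv, hnv]; ring
    have hy0 : (x : K) * (π ^ n)⁻¹ ≠ 0 := mul_ne_zero hx0 (inv_ne_zero (pow_ne_zero _ hπ0))
    have hym : (x : K) * (π ^ n)⁻¹ ∈ vsub E := by
      rw [mem_vsub, E.nonneg_ord_iff]; right; exact hy.ge
    have hu : IsUnit (⟨_, hym⟩ : vsub E) := by
      rw [vsub_isUnit_iff, E.ord_eq_zero_iff]; exact ⟨hy0, hy⟩
    refine ⟨hu.unit, Subtype.ext ?_⟩
    have hpn : π ^ n ≠ 0 := pow_ne_zero _ hπ0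
    change π ^ n * ((x : K) * (π ^ n)⁻¹) = x
    field_simp

instance : IsDiscreteValuationRing (vsub E) := by
  obtain ⟨p, _, hp, h⟩ := vsub_exists_irreducible E
  exact IsDiscreteValuationRing.ofHasUnitMulPowIrreducibleFactorization ⟨p, hp, h⟩

instance : IsFractionRing (vsub E) K := by
  refine IsFractionRing.of_field _ _ fun x => ?_
  by_cases hx0 : x = 0
  · exact ⟨0, 1, by simp [hx0]⟩
  rcases le_total 0 (E.val x) with h | h
  · have hx : x ∈ vsub E := by rw [mem_vsub, E.nonneg_ord_iff]; right; exact h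
    refine ⟨⟨x, hx⟩, 1, ?_⟩
    rw [map_one, div_one]
    rfl
  · have hx : x⁻¹ ∈ vsub E := by
      rw [mem_vsub, E.nonneg_ord_iff, E.val_inv hx0]; right; omega
    refine ⟨1, ⟨x⁻¹, hx⟩, ?_⟩
    rw [map_one]
    change x = 1 / x⁻¹
    rw [one_div, inv_inv]

lemma vsub_mem_maximalIdeal (x : vsub E) : x ∈ IsLocalRing.maximalIdeal (vsub E) ↔
    0 < E.ord (x : K) := by
  rw [IsLocalRing.mem_maximalIdeal, mem_nonunits_iff, vsub_isUnit_iff]
  constructor
  · intro h
    exact lt_of_le_of_ne x.2 (Ne.symm h)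
  · intro h h2
    rw [h2] at h
    exact lt_irrefl _ h

end vsub

section ext

variable {k : Type u} {K L : Type v} [Field k] [Field K] [Field L] [Algebra k K] [Algebra k L]
  [Algebra K L] [IsScalarTower k K L]

/-- **Extension of a discrete valuation to a finite Galois extension, with a generator of the
inertia group.** -/
theorem exists_ramified [IsAlgClosed k] [CharZero k] [FiniteDimensional K L] [IsGalois K L]
    (E : DVal k K) :
    ∃ (F : DVal k L) (e : ℕ) (σ : L ≃ₐ[K] L) (ζ : k) (r : ℕ) (T : Fin r → L), 0 < e ∧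
      (∀ f : K, f ≠ 0 → F.val (algebraMap K L f) = e * E.val f) ∧ IsPrimitiveRoot ζ e ∧
      (∀ x : L, x ≠ 0 → F.ord x < F.ord (σ x - algebraMap k L (ζ ^ (F.val x)) * x)) ∧
      ∀ x : L, 0 ≤ F.ord x → ∃ a b : Fin r → K, (∀ i, 0 ≤ E.ord (a i)) ∧ (∀ i, 0 ≤ E.ord (b i)) ∧
        F.ord (∑ i, algebraMap K L (b i) * T i) = 0 ∧
        x * (∑ i, algebraMap K L (b i) * T i) = ∑ i, algebraMap K L (a i) * T i := by
  classical
  have : CharZero K := charZero_of_injective_algebraMap (algebraMap k K).injective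
  let O := vsub E
  let S := integralClosure O L
  have hFR : IsFractionRing S L := integralClosure.isFractionRing_of_finite_extension K L
  have hDD : IsDedekindDomain S := integralClosure.isDedekindDomain O K L
  have hfin : Module.Finite O S := IsIntegralClosure.finite O K L S
  have hinjOL : Function.Injective (algebraMap O L) := by
    rw [IsScalarTower.algebraMap_eq O K L]
    exact (algebraMap K L).injective.comp (IsFractionRing.injective O K)
  have hinjOS : Function.Injective (algebraMap O S) := by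
    intro x y hxy
    apply hinjOL
    rw [IsScalarTower.algebraMap_apply O S L, hxy, ← IsScalarTower.algebraMap_apply O S L]
  have : Algebra.IsIntegral O S := IsIntegralClosure.isIntegral_algebra O L
  obtain ⟨Q, hQmax, hQ⟩ := Ideal.exists_ideal_over_maximal_of_isIntegral (S := S)
    (IsLocalRing.maximalIdeal O) (by
      rw [(RingHom.injective_iff_ker_eq_bot _).1 hinjOS]; exact bot_le)
  obtain ⟨p, hp1, hpirr, hpass⟩ := vsub_exists_irreducible E
  have hpmem : p ∈ IsLocalRing.maximalIdeal O := by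
    rw [vsub_mem_maximalIdeal, hp1]; exact zero_lt_one
  have hpQ : algebraMap O S p ∈ Q := by
    rw [← hQ] at hpmem; exact hpmem
  have hp0 : p ≠ 0 := hpirr.ne_zero
  have hpS0 : algebraMap O S p ≠ 0 := fun h => hp0 (hinjOS (h.trans (map_zero _).symm))
  let P : HeightOneSpectrum S := ⟨Q, hQmax.isPrime, fun h => hpS0 (Ideal.mem_bot.1 (h ▸ hpQ))⟩
  have hlies : P.asIdeal.LiesOver (IsLocalRing.maximalIdeal O) := ⟨hQ.symm⟩
  have : CharZero (IsLocalRing.maximalIdeal O).ResidueField :=
    charZero_of_injective_algebraMap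
      (algebraMap k (IsLocalRing.maximalIdeal O).ResidueField).injective
  -- the valuation
  have hunitO : ∀ y : O, E.ord (y : K) = 0 → padd (L := L) P (algebraMap O L y) = 0 := by
    intro y hy
    have hu : IsUnit y := (vsub_isUnit_iff E y).2 hy
    have hu' : IsUnit (algebraMap O S y) := hu.map _
    rw [IsScalarTower.algebraMap_apply O S L]
    apply padd_eq_zero_of_notMem
    intro h
    exact P.isPrime.ne_top (Ideal.eq_top_of_isUnit_mem _ h hu')
  let F : DVal k L :=
    { ord := padd P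
      ord_algebraMap := by
        intro c hc
        have h1 : algebraMap k L c = algebraMap O L (algebraMap k O c) := by
          rw [IsScalarTower.algebraMap_apply O K L, IsScalarTower.algebraMap_apply k K L]
          rfl
        rw [h1]
        exact hunitO _ (E.ord_algebraMap c hc)
      exists_ord_eq_one := by
        obtain ⟨π, hπ⟩ := P.valuation_exists_uniformizer L
        have hπ0 : π ≠ 0 := by
          rintro rfl
          rw [map_zero] at hπ
          exact WithZero.exp_ne_zero hπ.symm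
        refine ⟨π, ?_⟩
        rw [padd_apply P hπ0, hπ]
        simp }
  have hFord : F.ord = padd P := rfl
  have hpL0 : algebraMap O L p ≠ 0 := fun h => hp0 (hinjOL (h.trans (map_zero _).symm))
  set e : ℕ := (F.val (algebraMap O L p)).toNat with he
  have hpval : 0 < F.val (algebraMap O L p) := by
    have h1 := (mem_iff_padd_pos (L := L) P (algebraMap O S p)).1 hpQ
    rw [← IsScalarTower.algebraMap_apply O S L] at h1
    exact (F.pos_ord_iff.1 h1).resolve_left hpL0
  have heval : (e : ℤ) = F.val (algebraMap O L p) := Int.toNat_of_nonneg hpval.le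
  have he0 : 0 < e := by
    have : (0 : ℤ) < e := by rw [heval]; exact hpval
    exact_mod_cast this
  have hmap : ∀ m : ℕ, Ideal.map (algebraMap O S) (IsLocalRing.maximalIdeal O) ≤ P.asIdeal ^ m ↔
      m ≤ e := by
    intro m
    rw [hpirr.maximalIdeal_eq, Ideal.map_span, Set.image_singleton,
      Ideal.span_singleton_le_iff_mem, ← le_padd_iff (L := L), ← IsScalarTower.algebraMap_apply O S L]
    change ((m : ℤ) : WithTop ℤ) ≤ F.ord (algebraMap O L p) ↔ _
    rw [F.ord_eq_val hpL0, ← heval]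
    norm_cast
  have hram : (IsLocalRing.maximalIdeal O).ramificationIdx' P.asIdeal = e := by
    apply Ideal.ramificationIdx'_spec
    · exact (hmap e).2 le_rfl
    · intro h
      have := (hmap (e + 1)).1 h
      omega
  let _ := IsIntegralClosure.MulSemiringAction O K L S
  have hcard : Nat.card (P.asIdeal.inertia Gal(L/K)) = e := by
    have h1 := card_inertia O K L S P
    rw [hram] at h1
    exact h1
  let act : P.asIdeal.inertia Gal(L/K) →* (L ≃ₐ[k] L) :=
    { toFun := fun σ => (σ : L ≃ₐ[K] L).restrictScalars k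
      map_one' := rfl
      map_mul' := fun _ _ => rfl }
  have hinj : Function.Injective act := by
    intro σ τ h
    apply Subtype.ext
    ext x
    exact congrArg (fun g : L ≃ₐ[k] L => g x) h
  have H : ∀ (g : P.asIdeal.inertia Gal(L/K)) (x : L), 0 ≤ F.ord x → 0 < F.ord (act g x - x) :=
    fun g x hx => inertia_pos O K L S P g.1 g.2 x hx
  obtain ⟨g, ζ, hζ, hg⟩ := exists_tame_generator F act H hinj
  rw [hcard] at hζ
  obtain ⟨r, T0, hT0⟩ := Module.Finite.exists_fin (R := O) (M := S)
  refine ⟨F, e, (g : L ≃ₐ[K] L), ζ, r, fun i => (T0 i : L), he0, ?_, hζ, hg, ?_⟩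
  · intro f hf
    have hpK0 : (p : K) ≠ 0 := fun h => hp0 (Subtype.ext h)
    have hpKv : E.val (p : K) = 1 := ((E.ord_eq_iff (z := 1)).1 (by exact_mod_cast hp1)).2
    have hy : E.val (f * (p : K) ^ (-E.val f)) = 0 := by
      rw [E.val_mul hf (zpow_ne_zero _ hpK0), E.val_zpow hpK0, hpKv]; ring
    have hy0 : f * (p : K) ^ (-E.val f) ≠ 0 := mul_ne_zero hf (zpow_ne_zero _ hpK0)
    have hyo : E.ord (f * (p : K) ^ (-E.val f)) = 0 := E.ord_eq_zero_iff.2 ⟨hy0, hy⟩
    have h1 := hunitO ⟨f * (p : K) ^ (-E.val f), by rw [mem_vsub, hyo]⟩ hyo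
    have h2 : algebraMap O L ⟨f * (p : K) ^ (-E.val f), by rw [mem_vsub, hyo]⟩ =
        algebraMap K L f * (algebraMap O L p) ^ (-E.val f) := by
      rw [IsScalarTower.algebraMap_apply O K L, IsScalarTower.algebraMap_apply O K L, ← map_zpow₀,
        ← map_mul]
      rfl
    rw [h2] at h1
    have hfL : algebraMap K L f ≠ 0 := fun h =>
      hf ((algebraMap K L).injective (h.trans (map_zero _).symm))
    have h3 := (F.ord_eq_zero_iff.1 h1).2
    rw [F.val_mul hfL (zpow_ne_zero _ hpL0), F.val_zpow hpL0, ← heval] at h3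
    linarith
  · intro x hx
    obtain ⟨a, s, hs, hxs⟩ := exists_of_padd_nonneg P hx
    have hspan : ∀ y : S, ∃ c : Fin r → O, ∑ i, c i • T0 i = y := by
      intro y
      rw [← Submodule.mem_span_range_iff_exists_fun, hT0]
      exact Submodule.mem_top
    obtain ⟨ca, hca⟩ := hspan a
    obtain ⟨cs, hcs⟩ := hspan s
    have hcoe : ∀ c : Fin r → O, (algebraMap S L (∑ i, c i • T0 i)) =
        ∑ i, algebraMap K L (c i : K) * (T0 i : L) := by
      intro c
      rw [map_sum]
      refine Finset.sum_congr rfl fun i _ => ?_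
      rw [Algebra.smul_def, map_mul, ← IsScalarTower.algebraMap_apply O S L]
      rfl
    refine ⟨fun i => (ca i : K), fun i => (cs i : K), fun i => (ca i).2, fun i => (cs i).2, ?_, ?_⟩
    · rw [← hcoe, hcs]
      exact padd_eq_zero_of_notMem P hs
    · rw [← hcoe, hcs, ← hcoe, hca]
      exact hxs

end ext

end Pool.H32
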