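import Mathlib
import Pool.Agent.H32.ArrCenter
import Pool.Agent.H32.Adapted
import Pool.Agent.H32.LogBound
import Pool.Agent.H32.Ram2
import Pool.Agent.H32.Blowup

/-!
# Minimal log discrepancies of quotients of arrangements are computed by weighted blow-ups
-/

set_option autoImplicit false

open scoped BigOperators nonZeroDivisors
open MvPolynomial KaehlerDifferential
open Pool.Agent.H26

namespace Pool.H32

universe u v

namespace CrepantChart

variable {k : Type u} {K : Type v} [Field k] [IsAlgClosed k] [CharZero k] [Field K] [Algebra k K]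
  {n : ℕ} {G : LogGerm k K n} {L : Type v} [Field L] [Algebra k L] [Algebra K L]
  [IsScalarTower k K L] (C : CrepantChart G L)

/-- change of parameters when no coordinate hyperplanes are listed separately -/
def changeParam (hc : ∀ l, C.c l = 0) (s : Fin n → C.B) (hs : IsParam C.B C.pt s) :
    CrepantChart G L :=
  { C with
    t := s
    isParam := hs
    crepant := by
      intro V hV
      obtain ⟨e, he, h⟩ := C.crepant V hV
      refine ⟨e, he, ?_⟩
      simpa [hc] using h }

/-- transfer of the crepant relation to arbitrary valuations with centre through `y` -/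
lemma crepant_val (v : AddValuation L (WithTop ℤ)) (hv : ∀ y ∈ locAt C.B C.pt, 0 ≤ v y) :
    ∑ i, G.r i * (iv v (algebraMap K L (G.s i)) : ℝ) =
      (iv v ((dtBasis C.fg C.isParam C.ω).det C.ω) : ℝ) +
      (∑ l, C.c l * (iv v (C.t l : L) : ℝ) + ∑ j, C.d j * (iv v (C.g j : L) : ℝ)) := by
  classical
  have := C.isNoetherianRing
  set dt := dtBasis C.fg C.isParam C.ω with hdt
  have hδ0 : dt.det C.ω ≠ 0 := det_ne_zero dt C.ω
  let co : (G.ι ⊕ (Fin n ⊕ (C.α ⊕ Unit))) → ℝ :=
    Sum.elim G.r (Sum.elim (fun l => -C.c l) (Sum.elim (fun j => -C.d j) (fun _ => -1)))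
  let x : (G.ι ⊕ (Fin n ⊕ (C.α ⊕ Unit))) → L :=
    Sum.elim (fun i => algebraMap K L (G.s i)) (Sum.elim (fun l => (C.t l : L))
      (Sum.elim (fun j => (C.g j : L)) (fun _ => dt.det C.ω)))
  have hx : ∀ i, x i ≠ 0 := by
    rintro (i | l | j | _)
    · exact algebraMap_ne_zero (G.s_ne_zero i)
    · exact C.t_ne_zero l
    · exact C.g_ne_zero' j
    · exact hδ0
  have h1 := transfer (B := C.B) (𝔪 := C.pt) co x hx (by
    intro V hV
    obtain ⟨e, he, hsum⟩ := C.crepant V hV
    have h2 := formOrd_dt C.fg C.isParam C.ω V hV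
    rw [← hdt] at h2
    have h3 := FormOrd_change V dt C.ω h2
    have h4 := FormOrd_unique V C.ω he h3
    rw [zero_add] at h4
    simp only [co, x, Fintype.sum_sum_type, Sum.elim_inl, Sum.elim_inr, Finset.univ_unique,
      Finset.sum_singleton, neg_mul, one_mul, Finset.sum_neg_distrib]
    rw [← h4]
    linarith) v hv
  simp only [co, x, Fintype.sum_sum_type, Sum.elim_inl, Sum.elim_inr, Finset.univ_unique,
    Finset.sum_singleton, neg_mul, one_mul, Finset.sum_neg_distrib] at h1
  linarith

/-- the space of linear forms in the parameters -/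
def lin : Submodule k L := Submodule.span k (Set.range fun i => (C.t i : L))

omit [IsAlgClosed k] [CharZero k] in
lemma mem_lin_iff {x : L} : x ∈ C.lin ↔ ∃ c : Fin n → k, ∑ j, c j • (C.t j : L) = x :=
  Submodule.mem_span_range_iff_exists_fun k

omit [CharZero k] in
lemma D_lin (c : Fin n → k) (i : Fin n) :
    C.rc.D i (∑ j, c j • (C.t j : L)) = algebraMap k L (c i) := by
  rw [map_sum, Finset.sum_eq_single i]
  · rw [Derivation.map_smul]
    have h : C.rc.D i (C.t i : L) = 1 := by
      have := C.rc.D_t i i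
      rwa [if_pos rfl] at this
    rw [h, Algebra.smul_def, mul_one]
  · intro j _ hj
    rw [Derivation.map_smul]
    have h : C.rc.D i (C.t j : L) = 0 := by
      have := C.rc.D_t j i
      rwa [if_neg hj] at this
    rw [h, smul_zero]
  · intro h; exact absurd (Finset.mem_univ _) h

omit [CharZero k] in
lemma t_linearIndependent : LinearIndependent k (fun i => (C.t i : L)) := by
  rw [Fintype.linearIndependent_iff]
  intro c hc i
  have h := C.D_lin c i
  rw [hc, map_zero] at h
  exact (algebraMap k L).injective (h.symm.trans (map_zero _).symm)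

omit [CharZero k] in
/-- the Jacobian of linearly independent linear forms is a nonzero constant -/
lemma det_lin (s : Fin n → L) (hs : LinearIndependent k s) (hsV : ∀ i, s i ∈ C.lin) :
    ∃ c : k, c ≠ 0 ∧ (dtBasis C.fg C.isParam C.ω).det (fun i => D k L (s i)) = algebraMap k L c := by
  classical
  choose A hA using fun i => C.mem_lin_iff.1 (hsV i)
  refine ⟨Matrix.det (Matrix.of A), ?_, ?_⟩
  · intro hdet
    obtain ⟨c, hc0, hc⟩ := Matrix.exists_vecMul_eq_zero_iff.2 hdet
    apply hc0
    funext i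
    refine Fintype.linearIndependent_iff.1 hs c ?_ i
    have h1 : ∑ i, c i • s i = ∑ j, (∑ i, c i * A i j) • (C.t j : L) := by
      simp_rw [Finset.sum_smul]
      rw [Finset.sum_comm]
      refine Finset.sum_congr rfl fun i _ => ?_
      rw [← hA i, Finset.smul_sum]
      refine Finset.sum_congr rfl fun j _ => ?_
      rw [smul_smul]
    rw [h1]
    refine Finset.sum_eq_zero fun j _ => ?_
    have h2 := congrFun hc j
    have h3 : ∑ i, c i * A i j = 0 := h2
    rw [h3, zero_smul]
  · rw [det_dt, RingHom.map_det]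
    congr 1
    ext i j
    rw [Matrix.of_apply, ← hA i]
    exact C.D_lin (A i) j

omit [CharZero k] in
lemma det_dlog_lin (F : DVal k L) (s : Fin n → L) (hs : LinearIndependent k s)
    (hsV : ∀ i, s i ∈ C.lin) :
    F.ord (C.ω.det fun i => dlog k (s i)) =
      ((-(∑ i, F.val (s i)) + F.val (C.ω.det (dtBasis C.fg C.isParam C.ω)) : ℤ) : WithTop ℤ) := by
  classical
  have hs0 : ∀ i, s i ≠ 0 := fun i => hs.ne_zero i
  obtain ⟨c, hc0, hc⟩ := C.det_lin s hs hsV
  have h1 : C.ω.det (fun i => dlog k (s i)) = (∏ i, (s i)⁻¹) * C.ω.det (fun i => D k L (s i)) :=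
    (C.ω.det : AlternatingMap L (Ω[L⁄k]) L (Fin n)).toMultilinearMap.map_smul_univ
      (fun i => (s i)⁻¹) (fun i => D k L (s i))
  have hd0 := det_ne_zero C.ω (dtBasis C.fg C.isParam C.ω)
  have hcL : algebraMap k L c ≠ 0 := fun h => hc0
    ((algebraMap k L).injective (h.trans (map_zero _).symm))
  have hprod0 : (∏ i, (s i)⁻¹) ≠ 0 := Finset.prod_ne_zero_iff.2 fun i _ => inv_ne_zero (hs0 i)
  rw [h1, det_change C.ω (dtBasis C.fg C.isParam C.ω), hc, F.ord_eq_iff]
  refine ⟨mul_ne_zero hprod0 (mul_ne_zero hd0 hcL), ?_⟩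
  rw [F.val_mul hprod0 (mul_ne_zero hd0 hcL), F.val_mul hd0 hcL, F.val_algebraMap, add_zero,
    F.val_prod _ _ fun i _ => inv_ne_zero (hs0 i)]
  congr 1
  rw [← Finset.sum_neg_distrib]
  refine Finset.sum_congr rfl fun i _ => ?_
  exact F.val_inv (hs0 i)

omit [CharZero k] in
/-- linearly independent linear forms are parameters -/
lemma isParam_of_lin (s : Fin n → C.B) (hs : LinearIndependent k (fun i => (s i : L)))
    (hsV : ∀ i, (s i : L) ∈ C.lin) : IsParam C.B C.pt s := by
  classical
  have : FiniteDimensional k C.lin := FiniteDimensional.span_of_finite k (Set.finite_range _)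
  have hspan : Submodule.span k (Set.range fun i => (s i : L)) = C.lin := by
    apply Submodule.eq_of_le_of_finrank_eq
    · rw [Submodule.span_le]
      rintro _ ⟨i, rfl⟩
      exact hsV i
    · rw [finrank_span_eq_card hs, lin, finrank_span_eq_card C.t_linearIndependent]
  refine ⟨fun i => ?_, fun b hb => ?_⟩
  · obtain ⟨c, hc⟩ := C.mem_lin_iff.1 (hsV i)
    have h1 : s i = ∑ j, algebraMap k C.B (c j) * C.t j := by
      apply Subtype.ext
      rw [← hc, AddSubmonoidClass.coe_finsetSum]
      refine Finset.sum_congr rfl fun j _ => ?_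
      rw [Algebra.smul_def]
      rfl
    rw [h1]
    exact C.pt.sum_mem fun j _ => Ideal.mul_mem_left _ _ (C.isParam.mem j)
  · obtain ⟨σ, hσ, h⟩ := C.isParam.gen b hb
    refine ⟨σ, hσ, (Ideal.span_le.2 ?_) h⟩
    rintro _ ⟨i, rfl⟩
    have h1 : (C.t i : L) ∈ Submodule.span k (Set.range fun i => (s i : L)) := by
      rw [hspan]
      exact Submodule.subset_span ⟨i, rfl⟩
    obtain ⟨c, hc⟩ := (Submodule.mem_span_range_iff_exists_fun k).1 h1
    have h2 : C.t i = ∑ j, algebraMap k C.B (c j) * s j := by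
      apply Subtype.ext
      rw [← hc, AddSubmonoidClass.coe_finsetSum]
      refine Finset.sum_congr rfl fun j _ => ?_
      rw [Algebra.smul_def]
      rfl
    change C.t i ∈ Ideal.span (Set.range s)
    rw [h2]
    exact Ideal.sum_mem _ fun j _ => Ideal.mul_mem_left _ _ (Ideal.subset_span ⟨j, rfl⟩)

/-- **Divisors over quotients of arrangements are dominated by weighted blow-ups.** -/
theorem exists_weights [FiniteDimensional K L] (hC : C.IsArrangementQuotient)
    (hd : ∀ j, 0 ≤ C.d j) (E : DVal k K) (hE : E.IsDivisorial n) (hEc : E.HasCenter G.A G.pt)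
    {a : ℝ} (ha : G.IsLogDiscrepancy E a) :
    ∃ (s : Fin n → C.B) (hs : IsParam C.B C.pt s) (r : ℕ) (ζ : k) (σ : L ≃ₐ[K] L)
      (w : Fin n → ℕ) (hw : ∀ l, 0 < w l), 0 < r ∧ IsPrimitiveRoot ζ r ∧
      (∀ b : C.B, ∃ b' : C.B, (b' : L) = σ b ∧ (b ∈ C.pt → b' ∈ C.pt)) ∧
      (∀ l, σ (s l : L) = algebraMap k L (ζ ^ w l) * s l) ∧
      (C.changeParam hC.coeff_eq_zero s hs).ld w hw / r ≤ a := by
  classical
  have hgal := hC.isGalois
  obtain ⟨F, e, σ, ζ, r, T, he0, hFE, hζ, hσ, hfin⟩ := exists_ramified (L := L) E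
  have he0' : (0 : ℝ) < e := by exact_mod_cast he0
  have hinj : ∀ g : K, g ≠ 0 → algebraMap K L g ≠ 0 := fun g hg => algebraMap_ne_zero hg
  have hFE0 : ∀ f : K, 0 ≤ E.ord f → 0 ≤ F.ord (algebraMap K L f) := by
    intro f hf
    by_cases h0 : f = 0
    · subst h0; simp
    · rw [F.nonneg_ord_iff, hFE f h0]
      right
      have := (E.nonneg_ord_iff.1 hf).resolve_left h0
      positivity
  have hFEp : ∀ f : K, 0 < E.ord f → 0 < F.ord (algebraMap K L f) := by
    intro f hf
    by_cases h0 : f = 0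
    · subst h0; rw [map_zero, F.ord.map_zero]; exact WithTop.coe_lt_top 0
    · rw [F.pos_ord_iff, hFE f h0]
      right
      have := (E.pos_ord_iff.1 hf).resolve_left h0
      positivity
  obtain ⟨hFB, hFpt⟩ := C.pos_of_mem_pt hC hEc F hFE0 hFEp
  have hFloc := C.nonneg_on_locAt F hFB hFpt
  -- the logarithmic bound
  obtain ⟨f, hf, haf⟩ := ha
  have hlog := fun y hy => log_forms_ramified E hE G.ω C.ω C.ω_eq hf F he0 hFE T hfin y hy
  set D0 : ℤ := F.val (C.ω.det (dtBasis C.fg C.isParam C.ω)) with hD0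
  have hbd : ∀ s : Fin n → L, LinearIndependent k s → (∀ i, s i ∈ C.lin) →
      ∑ i, F.val (s i) ≤ D0 + e * (f + 1) := by
    intro s hs hsV
    have h1 := hlog s (fun i => hs.ne_zero i)
    rw [C.det_dlog_lin F s hs hsV] at h1
    have h2 : -((e : ℤ) * (f + 1)) ≤ -(∑ i, F.val (s i)) + D0 := by exact_mod_cast h1
    linarith
  -- the automorphism
  let φ : (L ≃ₐ[K] L) →* (L ≃ₐ[k] L) :=
    { toFun := fun σ => σ.restrictScalars k
      map_one' := rfl
      map_mul' := fun _ _ => rfl }
  have hσN : (φ σ) ^ (orderOf σ) = 1 := by rw [← map_pow, pow_orderOf_eq_one, map_one]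
  have hσV : ∀ x ∈ C.lin, φ σ x ∈ C.lin := by
    intro x hx
    induction hx using Submodule.span_induction with
    | mem x h =>
      obtain ⟨i, rfl⟩ := h
      exact hC.linear σ i
    | zero => rw [map_zero]; exact Submodule.zero_mem _
    | add x y _ _ h1 h2 => rw [map_add]; exact Submodule.add_mem _ h1 h2
    | smul c x _ h => rw [map_smul]; exact Submodule.smul_mem _ _ h
  have hζ0 : ζ ≠ 0 := hζ.ne_zero he0.ne'
  obtain ⟨s, hsind, hsV, hσs, hsF⟩ := exists_adapted F C.lin (fun i => (C.t i : L))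
    C.t_linearIndependent (fun i => Submodule.subset_span ⟨i, rfl⟩) ⟨_, hbd⟩ (φ σ) hσV
    (orderOf_pos σ) hσN hζ0 hσ
  have hs0 : ∀ i, s i ≠ 0 := fun i => hsind.ne_zero i
  -- in `B`
  have hlinB : ∀ x ∈ C.lin, x ∈ C.B := by
    intro x hx
    obtain ⟨c, rfl⟩ := C.mem_lin_iff.1 hx
    exact C.B.sum_mem fun j _ => C.B.smul_mem (C.t j).2 _
  let sB : Fin n → C.B := fun i => ⟨s i, hlinB _ (hsV i)⟩
  have hsP : IsParam C.B C.pt sB := C.isParam_of_lin sB hsind hsV
  have hpos : ∀ i, 0 < F.val (s i) := by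
    intro i
    have h1 := hFpt (sB i) (hsP.mem i)
    exact (F.pos_ord_iff.1 h1).resolve_left (hs0 i)
  let w : Fin n → ℕ := fun i => (F.val (s i)).toNat
  have hwv : ∀ i, (w i : ℤ) = F.val (s i) := fun i => Int.toNat_of_nonneg (hpos i).le
  have hw : ∀ i, 0 < w i := by
    intro i
    have h1 := hpos i
    rw [← hwv i] at h1
    exact_mod_cast h1
  refine ⟨sB, hsP, e, ζ, σ, w, hw, he0, hζ, ?_, ?_, ?_⟩
  · intro b
    by_cases hb : b ∈ C.pt
    · obtain ⟨b', hb', h⟩ := hC.fixed σ b hb
      exact ⟨b', h, fun _ => hb'⟩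
    · obtain ⟨c, hc⟩ := exists_residue_B (𝔪 := C.pt) C.fg b
      obtain ⟨b', hb', h⟩ := hC.fixed σ _ hc
      refine ⟨algebraMap k C.B c + b', ?_, fun h1 => absurd h1 hb⟩
      have h2 : ((b - algebraMap k C.B c : C.B) : L) = b - algebraMap k L c := rfl
      change algebraMap k L c + (b' : L) = _
      rw [h, h2, map_sub, IsScalarTower.algebraMap_apply k K L, σ.commutes]
      ring
  · intro l
    have h1 := hσs l
    rw [← hwv l, zpow_natCast] at h1
    exact h1
  · set C' := C.changeParam hC.coeff_eq_zero sB hsP with hC'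
    have h1 := C'.crepant_val F.ord hFloc
    have hcz : ∀ l, C'.c l = 0 := hC.coeff_eq_zero
    -- the Jacobian
    have h2 := hlog s hs0
    have hlinC' : ∀ i, s i ∈ C'.lin := fun i => Submodule.subset_span ⟨i, rfl⟩
    have h3 := C'.det_dlog_lin F s hsind hlinC'
    have h4 : C'.ω = C.ω := rfl
    rw [h4] at h3
    rw [h3] at h2
    set dt' := dtBasis C'.fg C'.isParam C'.ω with hdt'
    have h5 : F.val (dt'.det C.ω) = -F.val (C.ω.det dt') := by
      have h6 := det_change dt' C.ω dt'
      rw [Module.Basis.det_self] at h6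
      have h7 := F.val_mul (det_ne_zero dt' C.ω) (det_ne_zero C.ω dt')
      rw [← h6, F.val_one] at h7
      linarith
    have h8 : (∑ i, (w i : ℤ)) + F.val (dt'.det C.ω) ≤ e * (f + 1) := by
      have h9 : -((e : ℤ) * (f + 1)) ≤ -(∑ i, F.val (s i)) + F.val (C.ω.det dt') := by
        exact_mod_cast h2
      simp_rw [hwv]
      rw [h5]
      linarith
    have h8' : (∑ i, (w i : ℝ)) + (F.val (dt'.det C.ω) : ℝ) ≤ e * (f + 1) := by
      exact_mod_cast h8
    -- values of the equations
    have hg : ∀ j, (F.val (C.g j : L) : ℝ) ≤ (iv (C'.mval w hw) (C.g j : L) : ℝ) := by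
      intro j
      have hgl : (C.g j : L) ∈ Submodule.span k (Set.range fun i => s i) := by
        have : FiniteDimensional k C.lin :=
          FiniteDimensional.span_of_finite k (Set.finite_range _)
        have hspan : Submodule.span k (Set.range fun i => s i) = C.lin := by
          apply Submodule.eq_of_le_of_finrank_eq
          · rw [Submodule.span_le]
            rintro _ ⟨i, rfl⟩
            exact hsV i
          · rw [finrank_span_eq_card hsind, lin, finrank_span_eq_card C.t_linearIndependent]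
        rw [hspan]
        exact hC.mem_span j
      obtain ⟨c, hc⟩ := (Submodule.mem_span_range_iff_exists_fun k).1 hgl
      have h10 : ((F.val (C.g j : L) : ℤ) : WithTop ℤ) ≤ C'.mval w hw (C.g j : L) := by
        rw [← hc]
        refine (C'.mval w hw).map_le_sum fun i _ => ?_
        by_cases hi : c i = 0
        · rw [hi, zero_smul, AddValuation.map_zero]; exact le_top
        · rw [Algebra.smul_def, AddValuation.map_mul, C'.mval_const hw hi, zero_add]
          have h11 : C'.mval w hw (s i) = ((w i : ℤ) : WithTop ℤ) := C'.mval_t hw i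
          rw [h11, hwv]
          exact_mod_cast hsF c i hi
      rw [eq_iv _ (C.g_ne_zero' j)] at h10
      have h12 : F.val (C.g j : L) ≤ iv (C'.mval w hw) (C.g j : L) := by exact_mod_cast h10
      exact_mod_cast h12
    -- conclusion
    rw [div_le_iff₀ he0', ld]
    have h13 : ∑ i, G.r i * (iv F.ord (algebraMap K L (G.s i)) : ℝ) =
        e * ∑ i, G.r i * (E.val (G.s i) : ℝ) := by
      rw [Finset.mul_sum]
      refine Finset.sum_congr rfl fun i _ => ?_
      have h14 : iv F.ord (algebraMap K L (G.s i)) = e * E.val (G.s i) := hFE _ (G.s_ne_zero i)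
      rw [h14]
      push_cast
      ring
    rw [h13] at h1
    have h15 : ∑ l, C'.c l * (iv F.ord (C'.t l : L) : ℝ) = 0 :=
      Finset.sum_eq_zero fun l _ => by rw [hcz l, zero_mul]
    rw [h15, zero_add] at h1
    have h16 : ∑ l, (1 - C'.c l) * (w l : ℝ) = ∑ l, (w l : ℝ) := by
      refine Finset.sum_congr rfl fun l _ => ?_
      rw [hcz l, sub_zero, one_mul]
    have h17 : ∑ j, C'.d j * (iv F.ord (C'.g j : L) : ℝ) ≤
        ∑ j, C'.d j * (iv (C'.mval w hw) (C'.g j : L) : ℝ) :=
      Finset.sum_le_sum fun j _ => mul_le_mul_of_nonneg_left (hg j) (hd j)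
    rw [h16, haf]
    have h18 : (iv F.ord ((dtBasis C'.fg C'.isParam C'.ω).det C'.ω) : ℝ) =
        (F.val (dt'.det C.ω) : ℝ) := rfl
    rw [h18] at h1
    nlinarith

end CrepantChart

end Pool.H32
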