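import Mathlib
import Pool.Agent.H32.ArrProof
import Pool.Agent.H32.OrbACC

/-!
# ACC for minimal log discrepancies of quotients of arrangements
-/

set_option autoImplicit false

open scoped BigOperators nonZeroDivisors Pointwise
open Pool.Agent.H26

namespace Pool.H32

universe u v

theorem arr_acc (n : ℕ) {Γ : Set ℝ} (hΓ0 : ∀ γ ∈ Γ, 0 ≤ γ) (hΓ : DCC Γ) :
    ACC (ArrMlds.{u, v} n Γ) := by
  classical
  refine ACC_of_real fun t ht hmono => ?_
  -- dimension zero is impossible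
  rcases Nat.eq_zero_or_pos n with hn | hn
  · obtain ⟨k, _, _, _, K, _, _, G, b, L, _, _, _, _, _, C, hxb, hb0, hG, _⟩ := ht 0
    subst hn
    have hempty : {a : EReal | ∃ (v : DVal k K) (b : ℝ), v.IsDivisorial 0 ∧ v.HasCenter G.A G.pt ∧
        G.IsLogDiscrepancy v b ∧ a = (b : EReal)} = ∅ := by
      ext a
      simp only [Set.mem_ofPred_eq, Set.mem_empty_iff_false, iff_false]
      rintro ⟨v, b, ⟨m, _, hm, _⟩, _⟩
      omega
    unfold LogGerm.mld at hG
    rw [hempty, sInf_empty] at hG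
    exact absurd hG.symm (EReal.coe_ne_top b)
  let W : Set ℝ := (AddSubmonoid.closure Γ : Set ℝ)
  have hWpwo : W.IsPWO := hΓ.isPWO.addSubmonoid_closure hΓ0
  have hW0 : ∀ x ∈ W, 0 ≤ x := by
    intro s hs
    have : AddSubmonoid.closure Γ ≤ AddSubmonoid.nonneg ℝ := by
      rw [AddSubmonoid.closure_le]
      intro x hx
      exact hΓ0 x hx
    exact this hs
  -- the data
  have hdata : ∀ j : ℕ, ∃ (r : ℕ) (w : Fin n → ℕ) (U : Set (Fin n → ℝ)), 0 < r ∧ (∀ l, 0 < w l) ∧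
      (∀ u ∈ U, ∀ l, u l ∈ W) ∧
      (∀ u ∈ U, ∑ l, (1 - u l) * ((w l : ℝ) / r) < t (j + 1)) ∧
      ∀ (q : ℕ) (z : Fin n → ℤ), (∀ l, 0 < (q : ℝ) * ((w l : ℝ) / r) + z l) →
        ∃ u ∈ U, t j ≤ ∑ l, (1 - u l) * ((q : ℝ) * ((w l : ℝ) / r) + z l) := by
    intro j
    obtain ⟨k, _, _, _, K, _, _, G, b, L, _, _, _, _, _, C, hxb, hb0, hG, hd, hC⟩ := ht j
    have htb : t j = b := by exact_mod_cast hxb
    have hlt : t j < t (j + 1) := hmono (Nat.lt_succ_self j)
    -- a divisor with log discrepancy less than `t (j + 1)`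
    obtain ⟨E, a, hE, hEc, ha, hab⟩ : ∃ (E : DVal k K) (a : ℝ), E.IsDivisorial n ∧
        E.HasCenter G.A G.pt ∧ G.IsLogDiscrepancy E a ∧ a < t (j + 1) := by
      by_contra hcon
      push Not at hcon
      have h1 : ((t (j + 1) : ℝ) : EReal) ≤ G.mld := by
        unfold LogGerm.mld
        refine le_sInf ?_
        rintro _ ⟨E, a, hE, hEc, ha, rfl⟩
        exact_mod_cast hcon E a hE hEc ha
      rw [hG, ← htb] at h1
      have h2 : t (j + 1) ≤ t j := by exact_mod_cast h1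
      exact absurd hlt (not_lt.2 h2)
    have hd0 : ∀ j, 0 ≤ C.d j := fun j => hΓ0 _ (hd j)
    obtain ⟨s, hs, r, ζ, σ, w, hw, hr0, hζ, hσB, hσt, hle⟩ :=
      C.exists_weights hC hd0 E hE hEc ha
    set C' := C.changeParam hC.coeff_eq_zero s hs with hC'
    obtain ⟨S, hS1, hS2⟩ := C'.exists_data_of_le hn hb0 hG hd0 hr0 hζ hw hσB hσt hle
    have hcz : ∀ l, C'.c l = 0 := hC.coeff_eq_zero
    have hlin : ∀ (m : C'.α → (Fin n →₀ ℕ)) (y : Fin n → ℝ),
        ∑ l, (1 - C'.c l - ∑ j, C'.d j * m j l) * y l =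
          ∑ l, (1 - ∑ j, C'.d j * m j l) * y l := by
      intro m y
      refine Finset.sum_congr rfl fun l _ => ?_
      rw [hcz l, sub_zero]
    refine ⟨r, w, {u | ∃ m : C'.α → (Fin n →₀ ℕ), (∀ j, m j ∈ S j) ∧
      u = fun l => ∑ j, C'.d j * m j l}, hr0, hw, ?_, ?_, ?_⟩
    · rintro u ⟨m, hm, rfl⟩ l
      exact mem_closure_sum C'.d hd fun j => m j l
    · rintro u ⟨m, hm, rfl⟩
      have := hS1 m hm
      rw [hlin] at this
      exact lt_of_le_of_lt this hab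
    · intro q z hqz
      obtain ⟨m, hm, hmb⟩ := hS2 q z hqz
      refine ⟨_, ⟨m, hm, rfl⟩, ?_⟩
      rw [hlin] at hmb
      rw [htb]
      exact hmb
  choose r w U hr0 hw hUW hU2 hU1 using hdata
  refine engine n hWpwo hW0 U hUW (fun j l => (w j l : ℝ) / r j) ?_ ?_ t
    (fun j q z h => hU1 j q z h) (fun j u hu => hU2 j u hu) hmono
  · intro j
    refine ⟨r j, hr0 j, fun l => ⟨w j l, ?_⟩⟩
    have : (r j : ℝ) ≠ 0 := by exact_mod_cast (hr0 j).ne'
    push_cast
    field_simp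
  · intro j l
    have h1 : (0 : ℝ) < w j l := by exact_mod_cast hw j l
    have h2 : (0 : ℝ) < r j := by exact_mod_cast hr0 j
    positivity

end Pool.H32
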